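import Mathlib

namespace Pool.Agent.Lib.MP_be97d8_mp

/-- Vertices of the antitree: pairs `(n, i)` with `i` in the `n`-th shell, of size `s n`. -/
abbrev Vtx (s : ℕ → ℕ) : Type := Σ n : ℕ, Fin (s n)

/-- Edge weights: `1 / sqrt (s n * s (n+1))` between consecutive shells, `0` otherwise. -/
noncomputable def weight (s : ℕ → ℕ) (x y : Vtx s) : ℝ :=
  if y.1 = x.1 + 1 ∨ x.1 = y.1 + 1 then 1 / Real.sqrt ((s x.1 : ℝ) * (s y.1 : ℝ)) else 0

/-- `H` is the Anderson Hamiltonian with disorder `lam` and potential `v` on the antitree, on a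
Hilbert space `E` with Hilbert basis `e` indexed by the vertices (so `E` is `ℓ²` of the
vertex set, the coordinates of `ψ` being `ψ(x) = ⟪e x, ψ⟫`). -/
def IsAnderson {E : Type*} [NormedAddCommGroup E] [InnerProductSpace ℂ E] (s : ℕ → ℕ)
    (e : HilbertBasis (Vtx s) ℂ E) (lam : ℝ) (v : Vtx s → ℝ) (H : E →L[ℂ] E) : Prop :=
  ∀ (ψ : E) (x : Vtx s), inner ℂ (e x) (H ψ) =
    (∑' y : Vtx s, (weight s x y : ℂ) * inner ℂ (e y) ψ) + ((lam * v x : ℝ) : ℂ) * inner ℂ (e x) ψ

/-- The spectrum of the self-adjoint operator `H` is pure point in `[a, b]`: every vector in the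
range of the spectral projection of `[a, b]` (the vectors killed by `f(H)` for every continuous
`f` vanishing on `[a, b]`) lies in the closed linear span of the eigenvectors of `H`. -/
def PurePointIn {E : Type*} [NormedAddCommGroup E] [InnerProductSpace ℂ E] [CompleteSpace E]
    (H : E →L[ℂ] E) (a b : ℝ) : Prop :=
  ∀ ψ : E, (∀ f : ℝ → ℝ, Continuous f → (∀ t ∈ Set.Icc a b, f t = 0) → cfc f H ψ = 0) →
    ψ ∈ (Submodule.span ℂ {φ : E | ∃ z : ℂ, H φ = z • φ}).topologicalClosure

end Pool.Agent.Lib.MP_be97d8_mp
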