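import Mathlib
import Pool.Agent.Lib.MP_be97d8_mp.Defs

namespace Pool.Agent.Lib.MP_be97d8_mp

open Filter Topology
open scoped InnerProductSpace ComplexConjugate

variable {s : ℕ → ℕ}

/-- the Hilbert space -/
noncomputable abbrev HS (s : ℕ → ℕ) := lp (fun _ : Vtx s => ℂ) 2

/-- `H` is the Anderson Hamiltonian with disorder `lam` and potential `v` on the antitree. -/
def IsAnd (s : ℕ → ℕ) (lam : ℝ) (v : Vtx s → ℝ)
    (H : lp (fun _ : Vtx s => ℂ) 2 →L[ℂ] lp (fun _ : Vtx s => ℂ) 2) : Prop :=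
  ∀ (ψ : lp (fun _ : Vtx s => ℂ) 2) (x : Vtx s),
    H ψ x = (∑' y : Vtx s, (weight s x y : ℂ) * ψ y) + ((lam * v x : ℝ) : ℂ) * ψ x

/-- normalised shell sums -/
noncomputable def uu (ψ : Vtx s → ℂ) (n : ℕ) : ℂ :=
  ((1 / Real.sqrt (s n) : ℝ) : ℂ) * ∑ i : Fin (s n), ψ ⟨n, i⟩

/-- shift of a sequence -/
def prev {α : Type} [Zero α] (u : ℕ → α) : ℕ → α
  | 0 => 0
  | n + 1 => u n

theorem hasSum_shell (F : Vtx s → ℂ) (n : ℕ) :
    HasSum (fun y : Vtx s => if y.1 = n then F y else 0) (∑ i : Fin (s n), F ⟨n, i⟩) := by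
  classical
  have h := hasSum_sum_of_ne_finset_zero (f := fun y : Vtx s => if y.1 = n then F y else 0)
    (s := Finset.univ.map (Function.Embedding.sigmaMk n)) (L := SummationFilter.unconditional _) (by
      rintro ⟨m, i⟩ hy
      by_cases hm : m = n
      · subst hm
        exact absurd (Finset.mem_map.2 ⟨i, Finset.mem_univ _, rfl⟩) hy
      · simp [hm])
  simpa [Finset.sum_map] using h

theorem hasSum_weight (ψ : Vtx s → ℂ) (x : Vtx s) :
    HasSum (fun y : Vtx s => (weight s x y : ℂ) * ψ y)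
      (((1 / Real.sqrt (s x.1) : ℝ) : ℂ) * (prev (uu ψ) x.1 + uu ψ (x.1 + 1))) := by
  obtain ⟨n, j⟩ := x
  have h1 := hasSum_shell
    (fun y => ((1 / Real.sqrt ((s n : ℝ) * (s y.1 : ℝ)) : ℝ) : ℂ) * ψ y) (n + 1)
  have e1 : ∀ m : ℕ, ∑ i : Fin (s m),
      ((1 / Real.sqrt ((s n : ℝ) * (s m : ℝ)) : ℝ) : ℂ) * ψ ⟨m, i⟩ =
      ((1 / Real.sqrt (s n) : ℝ) : ℂ) * uu ψ m := by
    intro m
    rw [uu, ← Finset.mul_sum, ← mul_assoc, Real.sqrt_mul (Nat.cast_nonneg _)]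
    congr 1
    push_cast
    rw [div_mul_div_comm, one_mul]
  cases n with
  | zero =>
    simp only [prev, zero_add] at h1 ⊢
    rw [e1] at h1
    convert h1 using 2 with y
    by_cases hy : y.1 = 1 <;> simp [weight, hy]
  | succ n =>
    have h2 := hasSum_shell
      (fun y => ((1 / Real.sqrt ((s (n + 1) : ℝ) * (s y.1 : ℝ)) : ℝ) : ℂ) * ψ y) n
    simp only at h1 h2
    rw [e1] at h1 h2
    have h3 := h2.add h1
    simp only [prev]
    rw [mul_add]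
    convert h3 using 2 with y
    by_cases hy : y.1 = n + 1 + 1
    · have : y.1 ≠ n := by omega
      simp only [weight]
      rw [if_pos (Or.inl hy), if_neg this, if_pos hy, zero_add]
    · by_cases hy' : y.1 = n
      · simp only [weight]
        rw [if_pos (Or.inr (by rw [hy'])), if_neg hy, if_pos hy', add_zero]
      · have : n ≠ y.1 := fun h => hy' h.symm
        simp [weight, hy, hy', this]

theorem weight_symm (x y : Vtx s) : weight s x y = weight s y x := by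
  simp only [weight, or_comm, mul_comm]

theorem hasSum_sq (ψ : HS s) : HasSum (fun x => ‖ψ x‖ ^ 2) (‖ψ‖ ^ 2) := by
  have h := lp.hasSum_norm (p := 2) (by norm_num) ψ
  simpa using h

theorem mem_of_summable (f : Vtx s → ℂ) (h : Summable fun x => ‖f x‖ ^ 2) :
    Memℓp f 2 := by
  apply memℓp_gen
  simpa using h

/-- squared norm of a shell -/
noncomputable def NN (ψ : Vtx s → ℂ) (n : ℕ) : ℝ := ∑ i : Fin (s n), ‖ψ ⟨n, i⟩‖ ^ 2

theorem NN_nonneg (ψ : Vtx s → ℂ) (n : ℕ) : 0 ≤ NN ψ n :=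
  Finset.sum_nonneg fun _ _ => by positivity

theorem hasSum_NN (ψ : HS s) : HasSum (NN (ψ : Vtx s → ℂ)) (‖ψ‖ ^ 2) :=
  (hasSum_sq ψ).sigma fun _ => hasSum_fintype _

theorem uu_sq_le (hs : ∀ n, 0 < s n) (ψ : Vtx s → ℂ) (n : ℕ) : ‖uu ψ n‖ ^ 2 ≤ NN ψ n := by
  have hpos : (0 : ℝ) < s n := by exact_mod_cast hs n
  have h1 : ‖∑ i : Fin (s n), ψ ⟨n, i⟩‖ ≤ ∑ i : Fin (s n), ‖ψ ⟨n, i⟩‖ := norm_sum_le _ _
  have h2 : (∑ i : Fin (s n), ‖ψ ⟨n, i⟩‖) ^ 2 ≤ (s n : ℝ) * NN ψ n := by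
    have := sq_sum_le_card_mul_sum_sq (s := (Finset.univ : Finset (Fin (s n))))
      (f := fun i => ‖ψ ⟨n, i⟩‖)
    simpa [NN] using this
  have h3 : ‖∑ i : Fin (s n), ψ ⟨n, i⟩‖ ^ 2 ≤ (s n : ℝ) * NN ψ n :=
    le_trans (pow_le_pow_left₀ (norm_nonneg _) h1 2) h2
  rw [uu, norm_mul, mul_pow, Complex.norm_real, Real.norm_eq_abs, sq_abs, div_pow,
    Real.sq_sqrt hpos.le, one_pow, one_div, inv_mul_le_iff₀ hpos]
  exact h3

theorem uu_tendsto (hs : ∀ n, 0 < s n) (ψ : HS s) :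
    Tendsto (uu (ψ : Vtx s → ℂ)) atTop (𝓝 0) := by
  have h1 := (hasSum_NN ψ).summable.tendsto_atTop_zero
  have h2 : Tendsto (fun n => ‖uu (ψ : Vtx s → ℂ) n‖ ^ 2) atTop (𝓝 0) :=
    squeeze_zero (fun n => by positivity) (fun n => uu_sq_le hs _ n) h1
  have h3 := h2.sqrt
  rw [tendsto_zero_iff_norm_tendsto_zero]
  simpa [Real.sqrt_sq (norm_nonneg _)] using h3

theorem hasSum_spread (hs : ∀ n, 0 < s n) (w : ℕ → ℝ) (hw : ∀ n, 0 ≤ w n) {c : ℝ}
    (h : HasSum w c) : HasSum (fun x : Vtx s => w x.1 / s x.1) c := by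
  have e : ∀ n, HasSum (fun _ : Fin (s n) => w n / s n) (w n) := by
    intro n
    have hpos : (s n : ℝ) ≠ 0 := by exact_mod_cast (hs n).ne'
    have := hasSum_fintype (fun _ : Fin (s n) => w n / s n)
    simp only [Finset.sum_const, Finset.card_univ, Fintype.card_fin, nsmul_eq_mul] at this
    rwa [mul_div_cancel₀ _ hpos] at this
  refine HasSum.sigma_of_hasSum h e ?_
  rw [summable_sigma_of_nonneg (fun x => div_nonneg (hw _) (Nat.cast_nonneg _))]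
  refine ⟨fun n => (e n).summable, ?_⟩
  simp only [fun n => (e n).tsum_eq]
  exact h.summable

/-- the action of the Hamiltonian on functions -/
noncomputable def act (lam : ℝ) (v : Vtx s → ℝ) (ψ : Vtx s → ℂ) (x : Vtx s) : ℂ :=
  ((1 / Real.sqrt (s x.1) : ℝ) : ℂ) * (prev (uu ψ) x.1 + uu ψ (x.1 + 1)) +
    ((lam * v x : ℝ) : ℂ) * ψ x

theorem act_bound (hs : ∀ n, 0 < s n) (lam : ℝ) (v : Vtx s → ℝ) (hv : ∀ x, |v x| ≤ 1)
    (ψ : Vtx s → ℂ) (x : Vtx s) :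
    ‖act lam v ψ x‖ ^ 2 ≤
      3 * (prev (NN ψ) x.1 / s x.1 + NN ψ (x.1 + 1) / s x.1 + lam ^ 2 * ‖ψ x‖ ^ 2) := by
  have hpos : (0 : ℝ) < s x.1 := by exact_mod_cast hs x.1
  set c : ℝ := 1 / Real.sqrt (s x.1) with hc
  have hc0 : 0 ≤ c := by positivity
  have hc2 : c ^ 2 = 1 / s x.1 := by rw [hc, div_pow, Real.sq_sqrt hpos.le, one_pow]
  have h1 : ‖act lam v ψ x‖ ≤
      c * ‖prev (uu ψ) x.1‖ + c * ‖uu ψ (x.1 + 1)‖ + |lam| * ‖ψ x‖ := by
    rw [act]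
    refine (norm_add_le _ _).trans (add_le_add ?_ ?_)
    · rw [norm_mul, Complex.norm_real, Real.norm_eq_abs, abs_of_nonneg hc0, ← mul_add]
      exact mul_le_mul_of_nonneg_left (norm_add_le _ _) hc0
    · rw [norm_mul, Complex.norm_real, Real.norm_eq_abs, abs_mul]
      refine mul_le_mul_of_nonneg_right ?_ (norm_nonneg _)
      exact mul_le_of_le_one_right (abs_nonneg _) (hv x)
  have h2 : ‖prev (uu ψ) x.1‖ ^ 2 ≤ prev (NN ψ) x.1 := by
    cases x.1 with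
    | zero => simp [prev]
    | succ n => exact uu_sq_le hs ψ n
  have h3 := uu_sq_le hs ψ (x.1 + 1)
  have h4 : (c * ‖prev (uu ψ) x.1‖) ^ 2 ≤ prev (NN ψ) x.1 / s x.1 := by
    rw [mul_pow, hc2, one_div, inv_mul_eq_div]
    exact div_le_div_of_nonneg_right h2 hpos.le
  have h5 : (c * ‖uu ψ (x.1 + 1)‖) ^ 2 ≤ NN ψ (x.1 + 1) / s x.1 := by
    rw [mul_pow, hc2, one_div, inv_mul_eq_div]
    exact div_le_div_of_nonneg_right h3 hpos.le
  have h6 : (|lam| * ‖ψ x‖) ^ 2 = lam ^ 2 * ‖ψ x‖ ^ 2 := by rw [mul_pow, sq_abs]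
  have h7 := pow_le_pow_left₀ (norm_nonneg _) h1 2
  generalize c * ‖prev (uu ψ) x.1‖ = A at *
  generalize c * ‖uu ψ (x.1 + 1)‖ = B at *
  generalize |lam| * ‖ψ x‖ = C at *
  nlinarith [sq_nonneg (A - B), sq_nonneg (A - C), sq_nonneg (B - C)]

theorem hasSum_bound (hs : ∀ n, 0 < s n) (lam : ℝ) (ψ : HS s) :
    HasSum (fun x : Vtx s => 3 * (prev (NN (ψ : Vtx s → ℂ)) x.1 / s x.1 +
      NN (ψ : Vtx s → ℂ) (x.1 + 1) / s x.1 + lam ^ 2 * ‖ψ x‖ ^ 2))
      (3 * (‖ψ‖ ^ 2 + (‖ψ‖ ^ 2 - NN (ψ : Vtx s → ℂ) 0) + lam ^ 2 * ‖ψ‖ ^ 2)) := by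
  have h0 := hasSum_NN ψ
  have h1 : HasSum (prev (NN (ψ : Vtx s → ℂ))) (‖ψ‖ ^ 2) := by
    rw [← hasSum_nat_add_iff' 1]
    simpa [prev] using h0
  have h2 : HasSum (fun n => NN (ψ : Vtx s → ℂ) (n + 1)) (‖ψ‖ ^ 2 - NN (ψ : Vtx s → ℂ) 0) := by
    have := (hasSum_nat_add_iff' 1).2 h0
    simpa using this
  refine (((hasSum_spread hs _ (fun n => ?_) h1).add
    (hasSum_spread hs _ (fun n => NN_nonneg _ _) h2)).add ((hasSum_sq ψ).mul_left _)).mul_left 3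
  cases n with
  | zero => simp [prev]
  | succ n => exact NN_nonneg _ _

theorem act_mem (hs : ∀ n, 0 < s n) (lam : ℝ) (v : Vtx s → ℝ) (hv : ∀ x, |v x| ≤ 1)
    (ψ : HS s) : Memℓp (act lam v (ψ : Vtx s → ℂ)) 2 :=
  mem_of_summable _ ((hasSum_bound hs lam ψ).summable.of_nonneg_of_le
    (fun _ => by positivity) (act_bound hs lam v hv _))

theorem act_eq (lam : ℝ) (v : Vtx s → ℝ) (ψ : Vtx s → ℂ) (x : Vtx s) :
    act lam v ψ x =
      (∑' y : Vtx s, (weight s x y : ℂ) * ψ y) + ((lam * v x : ℝ) : ℂ) * ψ x := by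
  rw [(hasSum_weight ψ x).tsum_eq, act]

theorem exists_anderson (hs : ∀ n, 0 < s n) (lam : ℝ) (v : Vtx s → ℝ) (hv : ∀ x, |v x| ≤ 1) :
    ∃ H : HS s →L[ℂ] HS s, IsAnd s lam v H := by
  let L : HS s →ₗ[ℂ] HS s :=
    { toFun := fun ψ => ⟨act lam v (ψ : Vtx s → ℂ), act_mem hs lam v hv ψ⟩
      map_add' := by
        intro φ ψ
        apply lp.ext
        funext x
        change act lam v (φ + ψ : HS s) x = act lam v φ x + act lam v ψ x
        simp only [act_eq, lp.coeFn_add, Pi.add_apply, mul_add]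
        rw [(hasSum_weight φ x).summable.tsum_add (hasSum_weight ψ x).summable]
        ring
      map_smul' := by
        intro c ψ
        apply lp.ext
        funext x
        change act lam v (c • ψ : HS s) x = c * act lam v ψ x
        simp only [act_eq, lp.coeFn_smul, Pi.smul_apply, smul_eq_mul, mul_add]
        rw [← tsum_mul_left]
        congr 1
        · congr 1; funext y; ring
        · ring }
  have hb : ∀ ψ : HS s, ‖L ψ‖ ≤ (3 * (2 + lam ^ 2) + 1) * ‖ψ‖ := by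
    intro ψ
    have h1 : ‖L ψ‖ ^ 2 ≤
        3 * (‖ψ‖ ^ 2 + (‖ψ‖ ^ 2 - NN (ψ : Vtx s → ℂ) 0) + lam ^ 2 * ‖ψ‖ ^ 2) :=
      hasSum_le (fun x => act_bound hs lam v hv _ x) (hasSum_sq (L ψ)) (hasSum_bound hs lam ψ)
    have h2 := NN_nonneg (ψ : Vtx s → ℂ) 0
    refine (pow_le_pow_iff_left₀ (norm_nonneg _) (by positivity) two_ne_zero).1 ?_
    have h3 : 0 ≤ lam ^ 2 := sq_nonneg _
    have h4 : 0 ≤ ‖ψ‖ ^ 2 := sq_nonneg _
    rw [mul_pow]
    generalize ‖ψ‖ ^ 2 = A at *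
    generalize lam ^ 2 = B at *
    nlinarith [mul_nonneg h3 h4, mul_nonneg (mul_nonneg h3 h3) h4]
  exact ⟨L.mkContinuous _ hb, fun ψ x => act_eq lam v ψ x⟩

theorem IsAnd.apply {lam : ℝ} {v : Vtx s → ℝ} {H : HS s →L[ℂ] HS s}
    (hH : IsAnd s lam v H) (ψ : HS s) (x : Vtx s) : H ψ x = act lam v ψ x := by
  rw [hH ψ x, act_eq]

theorem IsAnd.isSelfAdjoint {lam : ℝ} {v : Vtx s → ℝ} {H : HS s →L[ℂ] HS s}
    (hH : IsAnd s lam v H) : IsSelfAdjoint H := by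
  classical
  rw [IsSelfAdjoint, ContinuousLinearMap.star_eq_adjoint]
  ext1 ψ
  apply lp.ext
  funext x
  have h1 : (ContinuousLinearMap.adjoint H ψ) x =
      ⟪lp.single 2 x (1 : ℂ), ContinuousLinearMap.adjoint H ψ⟫_ℂ := by
    rw [lp.inner_single_left]; simp
  have h2 : ∀ y, H (lp.single 2 x (1 : ℂ)) y =
      (weight s x y : ℂ) + (if y = x then ((lam * v x : ℝ) : ℂ) else 0) := by
    intro y
    rw [hH, tsum_eq_single x]
    · rw [weight_symm y x]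
      by_cases hy : y = x
      · subst hy; simp
      · simp [hy, lp.single_apply]
    · intro z hz
      simp [lp.single_apply, hz]
  rw [h1, ContinuousLinearMap.adjoint_inner_right, lp.inner_eq_tsum, hH]
  have h3 : ∀ y, ⟪H (lp.single 2 x (1 : ℂ)) y, ψ y⟫_ℂ =
      (weight s x y : ℂ) * ψ y + (if y = x then ((lam * v x : ℝ) : ℂ) * ψ x else 0) := by
    intro y
    rw [h2]
    by_cases hy : y = x
    · subst hy
      simp only [RCLike.inner_apply, if_true, map_add, Complex.conj_ofReal]; ring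
    · simp only [RCLike.inner_apply, hy, if_false, add_zero, Complex.conj_ofReal]; ring
  simp only [h3]
  rw [(hasSum_weight ψ x).summable.tsum_add (hasSum_ite_eq x _).summable, tsum_ite_eq]

end Pool.Agent.Lib.MP_be97d8_mp
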