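import Mathlib

namespace Pool.Agent.Lib.MP_be97d8_mp

open Filter Topology

theorem recur_real (h : ℝ) (hh : |h| < 2) (g : ℕ → ℝ) (hg : Summable fun n => |g n - h|)
    (u : ℕ → ℝ) (hu : ∀ n, u (n + 2) = g n * u (n + 1) - u n)
    (h0 : Tendsto u atTop (𝓝 0)) : ∀ n, u n = 0 := by
  set κ : ℝ := 1 - |h| / 2 with hκ
  have hκpos : 0 < κ := by rw [hκ]; linarith
  let Q : ℕ → ℝ := fun n => u (n + 1) ^ 2 + u n ^ 2 - h * u n * u (n + 1)
  have hQ : ∀ n, κ * (u n ^ 2 + u (n + 1) ^ 2) ≤ Q n := by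
    intro n
    have h1 : h * u n * u (n + 1) ≤ |h| * |u n * u (n + 1)| := by
      rw [← abs_mul, mul_assoc]; exact le_abs_self _
    have h2 : |u n * u (n + 1)| ≤ (u n ^ 2 + u (n + 1) ^ 2) / 2 := by
      rw [abs_le]; constructor <;> nlinarith [sq_nonneg (u n + u (n + 1)), sq_nonneg (u n - u (n + 1))]
    have h3 := mul_le_mul_of_nonneg_left h2 (abs_nonneg h)
    simp only [Q, hκ]
    nlinarith
  have hQ0 : ∀ n, 0 ≤ Q n := fun n => le_trans (by positivity) (hQ n)
  -- eventually |g n - h| ≤ 1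
  have hg0 : Tendsto (fun n => |g n - h|) atTop (𝓝 0) := hg.tendsto_atTop_zero
  let γ : ℕ → ℝ := fun n => 4 / κ * |g n - h|
  have hγ0 : ∀ n, 0 ≤ γ n := fun n => by positivity
  have hγs : Summable γ := hg.mul_left _
  have hstep : ∀ n, |g n - h| ≤ 1 → (1 - γ n) * Q n ≤ Q (n + 1) := by
    intro n hn
    have e1 : Q (n + 1) - Q n = (g n - h) * (g n * u (n + 1) ^ 2 - 2 * u n * u (n + 1)) := by
      simp only [Q]
      rw [show n + 1 + 1 = n + 2 by rfl, hu n]
      ring
    have hgb : |g n| ≤ 3 := by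
      have : |g n| ≤ |g n - h| + |h| := by
        simpa using abs_add_le (g n - h) h
      linarith
    have e2 : |g n * u (n + 1) ^ 2 - 2 * u n * u (n + 1)| ≤ 4 * (u n ^ 2 + u (n + 1) ^ 2) := by
      rw [abs_le] at hgb ⊢
      constructor <;>
        nlinarith [sq_nonneg (u n + u (n + 1)), sq_nonneg (u n - u (n + 1)), sq_nonneg (u (n + 1)),
          sq_nonneg (u n)]
    have e3 : |Q (n + 1) - Q n| ≤ |g n - h| * (4 * (u n ^ 2 + u (n + 1) ^ 2)) := by
      rw [e1, abs_mul]
      exact mul_le_mul_of_nonneg_left e2 (abs_nonneg _)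
    have e4 : u n ^ 2 + u (n + 1) ^ 2 ≤ Q n / κ := by
      rw [le_div_iff₀ hκpos]; linarith [hQ n]
    have e5 : |g n - h| * (4 * (u n ^ 2 + u (n + 1) ^ 2)) ≤ γ n * Q n := by
      have : γ n * Q n = |g n - h| * (4 * (Q n / κ)) := by simp only [γ]; ring
      rw [this]
      exact mul_le_mul_of_nonneg_left (by linarith) (abs_nonneg _)
    have := (abs_le.1 (e3.trans e5)).1
    linarith
  -- choose N
  obtain ⟨N1, hN1⟩ := eventually_atTop.1 (hg0.eventually (ge_mem_nhds (by norm_num : (0 : ℝ) < 1)))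
  have htail := tendsto_sum_nat_add γ
  obtain ⟨N2, hN2⟩ := eventually_atTop.1
    (htail.eventually (ge_mem_nhds (by norm_num : (0 : ℝ) < 1 / 2)))
  set N := max N1 N2 with hN
  have hsum : ∀ m, ∑ k ∈ Finset.range m, γ (k + N) ≤ 1 / 2 := by
    intro m
    refine le_trans ?_ (hN2 N (le_max_right _ _))
    exact ((summable_nat_add_iff N).2 hγs).sum_le_tsum _ (fun k _ => hγ0 _)
  have hlow : ∀ m, (1 - ∑ k ∈ Finset.range m, γ (k + N)) * Q N ≤ Q (m + N) := by
    intro m
    induction m with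
    | zero => simp
    | succ m ih =>
      have h1 := hstep (m + N) (hN1 _ (by omega))
      rw [show m + 1 + N = m + N + 1 by ring]
      refine le_trans ?_ h1
      have h2 := hsum (m + 1)
      rw [Finset.sum_range_succ] at h2 ⊢
      have h3 : 0 ≤ ∑ k ∈ Finset.range m, γ (k + N) := Finset.sum_nonneg fun k _ => hγ0 _
      have h4 : 0 ≤ 1 - γ (m + N) := by linarith
      have h5 := mul_le_mul_of_nonneg_left ih h4
      have h6 := mul_nonneg (mul_nonneg h3 (hγ0 (m + N))) (hQ0 N)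
      nlinarith
  have hQt : Tendsto (fun m => Q (m + N)) atTop (𝓝 0) := by
    have a1 : Tendsto (fun m => u (m + N)) atTop (𝓝 0) := (tendsto_add_atTop_iff_nat N).2 h0
    have a2 : Tendsto (fun m => u (m + N + 1)) atTop (𝓝 0) :=
      (tendsto_add_atTop_iff_nat (N + 1)).2 h0
    have := ((a2.pow 2).add (a1.pow 2)).sub ((a1.const_mul h).mul a2)
    simpa [Q] using this
  have hQN : Q N / 2 ≤ 0 := by
    refine ge_of_tendsto' hQt fun m => le_trans ?_ (hlow m)
    have := hsum m
    nlinarith [hQ0 N]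
  have hz : u N ^ 2 + u (N + 1) ^ 2 ≤ 0 := by
    have h1 := hQ N
    have : κ * (u N ^ 2 + u (N + 1) ^ 2) ≤ 0 := by linarith
    by_contra hc
    push Not at hc
    nlinarith [mul_pos hκpos hc]
  have hN0 : u N = 0 := by nlinarith [sq_nonneg (u N), sq_nonneg (u (N + 1))]
  have hN1' : u (N + 1) = 0 := by nlinarith [sq_nonneg (u N), sq_nonneg (u (N + 1))]
  have hback : ∀ m, m ≤ N → u (N - m) = 0 ∧ u (N - m + 1) = 0 := by
    intro m
    induction m with
    | zero => intro _; exact ⟨hN0, hN1'⟩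
    | succ m ih =>
      intro hm
      obtain ⟨i1, i2⟩ := ih (by omega)
      have e := hu (N - (m + 1))
      rw [show N - (m + 1) + 2 = N - m + 1 by omega, show N - (m + 1) + 1 = N - m by omega,
        i1, i2] at e
      refine ⟨by linarith, ?_⟩
      rw [show N - (m + 1) + 1 = N - m by omega]; exact i1
  have h00 := hback N le_rfl
  simp only [Nat.sub_self, zero_add] at h00
  have hfor : ∀ n, u n = 0 ∧ u (n + 1) = 0 := by
    intro n
    induction n with
    | zero => exact h00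
    | succ n ih => exact ⟨ih.2, by rw [show n + 1 + 1 = n + 2 by rfl, hu n, ih.1, ih.2]; ring⟩
  exact fun n => (hfor n).1

theorem recur_complex (h : ℝ) (hh : |h| < 2) (g : ℕ → ℝ) (hg : Summable fun n => |g n - h|)
    (u : ℕ → ℂ) (hu : ∀ n, u (n + 2) = g n * u (n + 1) - u n)
    (h0 : Tendsto u atTop (𝓝 0)) : ∀ n, u n = 0 := by
  intro n
  apply Complex.ext
  · refine recur_real h hh g hg (fun n => (u n).re) (fun n => by simp [hu n]) ?_ n
    simpa [Function.comp_def] using (Complex.continuous_re.tendsto 0).comp h0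
  · refine recur_real h hh g hg (fun n => (u n).im) (fun n => by simp [hu n]) ?_ n
    simpa [Function.comp_def] using (Complex.continuous_im.tendsto 0).comp h0

end Pool.Agent.Lib.MP_be97d8_mp
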