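import Mathlib
import Pool.Agent.Lib.MP_be97d8_mp.Defs
import Pool.Agent.Lib.MP_be97d8_mp.Oper
import Pool.Agent.Lib.MP_be97d8_mp.Recur

namespace Pool.Agent.Lib.MP_be97d8_mp

open Filter Topology Set
open scoped InnerProductSpace ComplexConjugate

variable {s : ℕ → ℕ}

/-- the empirical shell average of the resolvent of the potential -/
noncomputable def aa (lam : ℝ) (v : Vtx s → ℝ) (n : ℕ) (E : ℝ) : ℝ :=
  (1 / (s n : ℝ)) * ∑ i : Fin (s n), 1 / (E - lam * v ⟨n, i⟩)

theorem key (hs : ∀ n, 0 < s n) {lam : ℝ} {v : Vtx s → ℝ} {H : HS s →L[ℂ] HS s}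
    (hH : IsAnd s lam v H) (E : ℝ) (hE : ∀ x, E - lam * v x ≠ 0)
    (ha : ∀ n, aa lam v n E ≠ 0) (α : ℝ) (hα : 1 / 2 < |α|)
    (hsum : Summable fun n => |aa lam v n E - α|) (ψ : HS s) (β : ℂ)
    (h : ∀ x, H ψ x = E * ψ x + (if x.1 = 0 then β else 0)) : ψ = 0 ∧ β = 0 := by
  set u := uu (ψ : Vtx s → ℂ) with hu
  let c : ℕ → ℂ := fun n => ((1 / Real.sqrt (s n) : ℝ) : ℂ)
  have hc : ∀ n, c n * c n * (s n : ℂ) = 1 := by
    intro n
    have hpos : (0 : ℝ) < s n := by exact_mod_cast hs n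
    have : (1 / Real.sqrt (s n)) * (1 / Real.sqrt (s n)) * (s n : ℝ) = 1 := by
      rw [div_mul_div_comm, Real.mul_self_sqrt hpos.le]; field_simp
    simp only [c]
    exact_mod_cast this
  have hψ : ∀ x : Vtx s, ψ x = (c x.1 * (prev u x.1 + u (x.1 + 1)) - (if x.1 = 0 then β else 0)) *
      ((1 / (E - lam * v x) : ℝ) : ℂ) := by
    intro x
    have h1 := h x
    rw [hH.apply, act] at h1
    have h2 : ((E - lam * v x : ℝ) : ℂ) ≠ 0 := by exact_mod_cast hE x
    rw [Complex.ofReal_div, Complex.ofReal_one, mul_one_div, eq_div_iff h2]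
    push_cast at h1 ⊢
    simp only [c]
    push_cast
    linear_combination -h1
  have hrec : ∀ n, u n = (aa lam v n E : ℂ) *
      (prev u n + u (n + 1) - c n * s n * (if n = 0 then β else 0)) := by
    intro n
    have hpos : (s n : ℂ) ≠ 0 := by exact_mod_cast (hs n).ne'
    have e1 : u n = c n * ∑ i : Fin (s n), ψ ⟨n, i⟩ := rfl
    have e2 : ∑ i : Fin (s n), ψ ⟨n, i⟩ =
        (c n * (prev u n + u (n + 1)) - (if n = 0 then β else 0)) *
          ∑ i : Fin (s n), ((1 / (E - lam * v ⟨n, i⟩) : ℝ) : ℂ) := by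
      rw [Finset.mul_sum]
      exact Finset.sum_congr rfl fun i _ => hψ ⟨n, i⟩
    have e3 : ∑ i : Fin (s n), ((1 / (E - lam * v ⟨n, i⟩) : ℝ) : ℂ) = s n * (aa lam v n E : ℂ) := by
      rw [aa, Complex.ofReal_mul, Complex.ofReal_sum]
      push_cast
      field_simp
    rw [e1, e2, e3]
    linear_combination (aa lam v n E : ℂ) * (prev u n + u (n + 1)) * hc n
  have hα0 : α ≠ 0 := by
    intro h0; rw [h0] at hα; norm_num at hα
  have hu0 : ∀ n, u n = 0 := by
    refine recur_complex (1 / α) ?_ (fun n => 1 / aa lam v (n + 1) E) ?_ u ?_ (uu_tendsto hs ψ)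
    · rw [abs_div, abs_one, div_lt_iff₀ (abs_pos.2 hα0)]; linarith
    · have h1 : Summable fun n => |aa lam v (n + 1) E - α| := (summable_nat_add_iff 1).2 hsum
      refine Summable.of_norm_bounded_eventually_nat (h1.mul_left 8) ?_
      filter_upwards [h1.tendsto_atTop_zero.eventually
        (ge_mem_nhds (by norm_num : (0 : ℝ) < 1 / 4))] with n hn
      set a := aa lam v (n + 1) E
      have ha0 : a ≠ 0 := ha _
      have h2 : 1 / 4 ≤ |a| := by
        have : |α| ≤ |a| + |a - α| := by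
          have := abs_sub (a) (a - α)
          simpa using this
        linarith
      have h3 : 1 / a - 1 / α = (α - a) / (a * α) := by field_simp
      rw [Real.norm_eq_abs, abs_abs, h3, abs_div, abs_mul, abs_sub_comm,
        div_le_iff₀ (mul_pos (abs_pos.2 ha0) (abs_pos.2 hα0))]
      have h4 : 1 / 8 ≤ |a| * |α| := by nlinarith
      nlinarith [abs_nonneg (a - α)]
    · intro n
      have h1 := hrec (n + 1)
      have h2 : (aa lam v (n + 1) E : ℂ) ≠ 0 := by exact_mod_cast ha (n + 1)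
      simp only [prev, Nat.add_eq_zero_iff, one_ne_zero, and_false, if_false, mul_zero,
        sub_zero] at h1
      push_cast
      field_simp
      linear_combination -h1
  have hprev : ∀ n, prev u n = 0 := by
    intro n; cases n with
    | zero => rfl
    | succ n => exact hu0 n
  have hβ : β = 0 := by
    have h1 := hrec 0
    have h2 : (aa lam v 0 E : ℂ) ≠ 0 := by exact_mod_cast ha 0
    simp only [hu0, hprev, if_true, add_zero, zero_sub] at h1
    have h3 : c 0 * s 0 * β = 0 := by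
      have := (mul_eq_zero.1 h1.symm).resolve_left h2
      exact neg_eq_zero.1 this
    linear_combination c 0 * h3 - β * hc 0
  refine ⟨?_, hβ⟩
  apply lp.ext
  funext x
  rw [hψ x]
  simp [hu0, hprev, hβ]

theorem aa_strictAnti (hs : ∀ n, 0 < s n) {lam : ℝ} {v : Vtx s → ℝ} {c d : ℝ}
    (hv : ∀ x, lam * v x ∉ Icc c d) (n : ℕ) : StrictAntiOn (aa lam v n) (Icc c d) := by
  intro E hE E' hE' hlt
  have hpos : (0 : ℝ) < s n := by exact_mod_cast hs n
  simp only [aa]
  refine mul_lt_mul_of_pos_left ?_ (by positivity)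
  have : Nonempty (Fin (s n)) := ⟨⟨0, hs n⟩⟩
  apply Finset.sum_lt_sum_of_nonempty Finset.univ_nonempty
  intro i _
  have h1 := hv ⟨n, i⟩
  set p := lam * v ⟨n, i⟩
  simp only [mem_Icc, not_and_or, not_le] at h1
  rcases h1 with h1 | h1
  · exact one_div_lt_one_div_of_lt (by linarith [hE.1]) (by linarith)
  · exact one_div_lt_one_div_of_neg_of_lt (by linarith [hE'.2]) (by linarith)

section abstract

variable {E : Type*} [NormedAddCommGroup E] [InnerProductSpace ℂ E] [CompleteSpace E]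

theorem eigen_real {H : E →L[ℂ] E} (hH : IsSelfAdjoint H) {φ : E} {z : ℂ} (hφ : φ ≠ 0)
    (h : H φ = z • φ) : z = (z.re : ℂ) := by
  have hs := hH.isSymmetric φ φ
  simp only [ContinuousLinearMap.coe_coe, h, inner_smul_left, inner_smul_right] at hs
  have h2 : ⟪φ, φ⟫_ℂ ≠ 0 := by simpa using hφ
  have h3 : conj z = z := mul_right_cancel₀ h2 hs
  exact (Complex.conj_eq_iff_re.1 h3).symm

theorem not_purePoint {H : E →L[ℂ] E} (hH : IsSelfAdjoint H) {a b E0 ρ : ℝ} (hρ : 0 < ρ)
    (ha : a ≤ E0 - ρ) (hb : E0 + ρ ≤ b)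
    (hsurj : ¬ ∀ φ0 : E, ∃ ψ : E, H ψ = (E0 : ℂ) • ψ + φ0)
    (hno : ∀ (t : ℝ) (φ : E), |t - E0| < ρ → H φ = (t : ℂ) • φ → φ = 0) :
    ¬ PurePointIn H a b := by
  intro hpp
  have hspec : E0 ∈ spectrum ℝ H := by
    rw [spectrum.mem_iff]
    intro hunit
    apply hsurj
    intro φ0
    obtain ⟨T, hT⟩ := hunit.exists_right_inv
    have h1 := congrArg (fun S : E →L[ℂ] E => S (-φ0)) hT
    refine ⟨T (-φ0), ?_⟩
    simp only [Algebra.algebraMap_eq_smul_one, mul_apply_eq_comp, sub_apply, smul_apply,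
      one_apply_eq_self] at h1
    rw [Complex.coe_smul, ← sub_eq_iff_eq_add', ← neg_inj, neg_sub]
    exact h1
  let f : ℝ → ℝ := fun t => max 0 (1 - |t - E0| / (ρ / 2))
  have hf : Continuous f := by fun_prop
  have hf0 : ∀ t, ρ / 2 ≤ |t - E0| → f t = 0 := by
    intro t ht
    apply max_eq_left
    rw [sub_nonpos, le_div_iff₀ (by positivity)]; linarith
  have hne : cfc f H ≠ 0 := by
    intro h0
    have h1 := norm_apply_le_norm_cfc f H hspec hf.continuousOn hH
    rw [h0] at h1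
    simp [f] at h1
    linarith
  obtain ⟨φ, hφ⟩ : ∃ φ, cfc f H φ ≠ 0 := by
    by_contra hc
    push Not at hc
    exact hne (ContinuousLinearMap.ext hc)
  have hmem := hpp (cfc f H φ) (by
    intro g hg hg0
    have h1 : cfc g H * cfc f H = 0 := by
      rw [← cfc_mul g f H hg.continuousOn hf.continuousOn]
      have : (fun t => g t * f t) = fun _ => 0 := by
        funext t
        by_cases ht : t ∈ Icc a b
        · rw [hg0 t ht, zero_mul]
        · rw [hf0 t, mul_zero]
          simp only [mem_Icc, not_and_or, not_le] at ht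
          rcases ht with ht | ht
          · rw [abs_sub_comm]; exact le_trans (by linarith) (le_abs_self _)
          · exact le_trans (by linarith) (le_abs_self _)
      rw [this]
      exact cfc_const_zero ℝ H
    have := congrArg (fun T : E →L[ℂ] E => T φ) h1
    simpa using this)
  have hsa : IsSelfAdjoint (cfc f H) := cfc_predicate f H
  have hkill : ∀ χ ∈ {φ : E | ∃ z : ℂ, H φ = z • φ}, cfc f H χ = 0 := by
    rintro χ ⟨z, hz⟩
    by_cases hχ : χ = 0
    · rw [hχ, map_zero]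
    rw [eigen_real hH hχ hz] at hz
    set t := z.re
    have ht : ρ ≤ |t - E0| := by
      by_contra hc
      exact hχ (hno t χ (not_le.1 hc) hz)
    let k : ℝ → ℝ := fun x => f x * ((x - t) / max ((x - t) ^ 2) ((ρ / 2) ^ 2))
    have hk : Continuous k := by
      refine hf.mul (Continuous.div (by fun_prop) (by fun_prop) fun x => ?_)
      exact (lt_of_lt_of_le (by positivity) (le_max_right _ _)).ne'
    have hfk : f = fun x => k x * (x - t) := by
      funext x
      by_cases hx : ρ / 2 ≤ |x - E0|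
      · simp only [k, hf0 x hx, zero_mul]
      · have h1 : ρ / 2 ≤ |x - t| := by
          have : |t - E0| ≤ |x - t| + |x - E0| := by
            have := abs_sub (x - E0) (x - t)
            rw [show x - E0 - (x - t) = t - E0 by ring] at this
            linarith
          linarith [not_le.1 hx]
        have h2 : (ρ / 2) ^ 2 ≤ (x - t) ^ 2 := by
          rw [← sq_abs (x - t)]; exact pow_le_pow_left₀ (by positivity) h1 2
        have h3 : x - t ≠ 0 := by
          intro h0; rw [h0, abs_zero] at h1; linarith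
        simp only [k, max_eq_left h2]
        field_simp
    have h4 : cfc f H = cfc k H * (H - algebraMap ℝ (E →L[ℂ] E) t) := by
      rw [hfk, cfc_mul k (fun x => x - t) H hk.continuousOn (by fun_prop),
        cfc_sub (fun x => x) (fun _ => t) H (by fun_prop) (by fun_prop), cfc_id' ℝ H,
        cfc_const t H]
    rw [h4, mul_apply_eq_comp, sub_apply, hz,
      Algebra.algebraMap_eq_smul_one]
    simp
  have horth : cfc f H φ ∈ (Submodule.span ℂ {φ : E | ∃ z : ℂ, H φ = z • φ})ᗮ := by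
    rw [Submodule.mem_orthogonal]
    intro w hw
    have h1 : cfc f H w = 0 := by
      induction hw using Submodule.span_induction with
      | mem x hx => exact hkill x hx
      | zero => simp
      | add x y _ _ hx hy => rw [map_add, hx, hy, add_zero]
      | smul c x _ hx => rw [map_smul, hx, smul_zero]
    have h2 := hsa.isSymmetric w φ
    simp only [ContinuousLinearMap.coe_coe] at h2
    rw [← h2, h1, inner_zero_left]
  rw [← Submodule.orthogonal_orthogonal_eq_closure, Submodule.mem_orthogonal] at hmem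
  exact hφ (inner_self_eq_zero.1 (hmem _ horth))

end abstract

theorem det (hs : ∀ n, 0 < s n) {lam : ℝ} {v : Vtx s → ℝ} {H : HS s →L[ℂ] HS s}
    (hH : IsAnd s lam v H) {a b c d : ℝ} (hcd : c < d) (hac : a ≤ c) (hdb : d ≤ b)
    (hv : ∀ x, lam * v x ∉ Icc c d) (α : ℝ → ℝ)
    (hα : ∀ E ∈ Icc c d, 1 / 2 < |α E|)
    (ε : ℕ → ℝ) (hε : Summable ε) (hb : ∀ n, ∀ E ∈ Icc c d, |aa lam v n E - α E| ≤ ε n) :
    ∃ E0 ρ : ℝ, 0 < ρ ∧ a ≤ E0 - ρ ∧ E0 + ρ ≤ b ∧
      (¬ ∀ φ0 : HS s, ∃ ψ : HS s, H ψ = (E0 : ℂ) • ψ + φ0) ∧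
      ∀ (t : ℝ) (φ : HS s), |t - E0| < ρ → H φ = (t : ℂ) • φ → φ = 0 := by
  classical
  obtain ⟨n0, hn0⟩ := eventually_atTop.1
    (hε.tendsto_atTop_zero.eventually (ge_mem_nhds (by norm_num : (0 : ℝ) < 1 / 2)))
  let Z : Set ℝ := ⋃ n ∈ Iio n0, {E ∈ Icc c d | aa lam v n E = 0}
  have hZ : Z.Finite := by
    refine (finite_Iio n0).biUnion fun n _ => Set.Subsingleton.finite ?_
    intro x hx y hy
    exact (aa_strictAnti hs hv n).injOn hx.1 hy.1 (hx.2.trans hy.2.symm)
  obtain ⟨E0, hE0, hE0Z⟩ := (Ioo_infinite hcd).exists_notMem_finite hZ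
  have hopen : IsOpen (Ioo c d \ Z) := isOpen_Ioo.sdiff hZ.isClosed
  obtain ⟨r, hr, hball⟩ := Metric.isOpen_iff.1 hopen E0 ⟨hE0, hE0Z⟩
  have hgood : ∀ t, |t - E0| < r → ∀ (ψ : HS s) (β : ℂ),
      (∀ x, H ψ x = t * ψ x + (if x.1 = 0 then β else 0)) → ψ = 0 ∧ β = 0 := by
    intro t ht ψ β h
    have h1 := hball (show t ∈ Metric.ball E0 r from ht)
    have h2 : t ∈ Icc c d := Ioo_subset_Icc_self h1.1
    refine key hs hH t (fun x h0 => hv x ?_) (fun n h0 => ?_) (α t) (hα t h2)
      (hε.of_nonneg_of_le (fun n => abs_nonneg _) (fun n => hb n t h2)) ψ β h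
    · rw [← sub_eq_zero.1 h0]; exact h2
    · by_cases hn : n < n0
      · exact h1.2 (mem_biUnion (x := n) hn ⟨h2, h0⟩)
      · have h3 := hb n t h2
        have h4 := hn0 n (not_lt.1 hn)
        have h5 := hα t h2
        rw [h0, zero_sub, abs_neg] at h3
        linarith
  have hlo : c < E0 - r / 2 := (hball (show E0 - r / 2 ∈ Metric.ball E0 r by
    rw [Metric.mem_ball, Real.dist_eq, abs_lt]; constructor <;> linarith)).1.1
  have hhi : E0 + r / 2 < d := (hball (show E0 + r / 2 ∈ Metric.ball E0 r by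
    rw [Metric.mem_ball, Real.dist_eq, abs_lt]; constructor <;> linarith)).1.2
  refine ⟨E0, r / 2, by positivity, by linarith, by linarith, ?_, ?_⟩
  · intro hsurj
    let φ0 : HS s := ⟨fun x => if x.1 = 0 then (1 : ℂ) else 0, mem_of_summable _ (by
      have := (hasSum_shell (s := s) (fun _ => (1 : ℂ)) 0).summable.norm
      refine this.congr fun x => ?_
      by_cases hx : x.1 = 0 <;> simp [hx])⟩
    obtain ⟨ψ, hψ⟩ := hsurj φ0
    have h2 := (hgood E0 (by simpa using hr) ψ 1 (by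
      intro x
      rw [hψ, lp.coeFn_add, lp.coeFn_smul]
      rfl)).2
    exact one_ne_zero h2
  · intro t φ ht h
    refine (hgood t (by linarith) φ 0 fun x => ?_).1
    rw [h, lp.coeFn_smul]; simp

theorem transport {E : Type*} [NormedAddCommGroup E] [InnerProductSpace ℂ E] [CompleteSpace E]
    (e : HilbertBasis (Vtx s) ℂ E) {lam : ℝ} {v : Vtx s → ℝ} {H : HS s →L[ℂ] HS s}
    (hH : IsAnd s lam v H) {a b : ℝ}
    (h : ∃ E0 ρ : ℝ, 0 < ρ ∧ a ≤ E0 - ρ ∧ E0 + ρ ≤ b ∧
      (¬ ∀ φ0 : HS s, ∃ ψ : HS s, H ψ = (E0 : ℂ) • ψ + φ0) ∧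
      ∀ (t : ℝ) (φ : HS s), |t - E0| < ρ → H φ = (t : ℂ) • φ → φ = 0) :
    ∃ H' : E →L[ℂ] E, IsAnderson s e lam v H' ∧ IsSelfAdjoint H' ∧ ¬ PurePointIn H' a b := by
  obtain ⟨E0, ρ, h1, h2, h3, h4, h5⟩ := h
  let H' : E →L[ℂ] E := e.repr.symm.toLinearIsometry.toContinuousLinearMap ∘L H ∘L
    e.repr.toLinearIsometry.toContinuousLinearMap
  have hH' : ∀ ψ, H' ψ = e.repr.symm (H (e.repr ψ)) := fun ψ => rfl
  have hsa : IsSelfAdjoint H' := by
    rw [ContinuousLinearMap.isSelfAdjoint_iff_isSymmetric]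
    intro φ ψ
    have h6 := hH.isSelfAdjoint.isSymmetric (e.repr φ) (e.repr ψ)
    simp only [ContinuousLinearMap.coe_coe] at h6 ⊢
    rw [hH', hH', ← e.repr.inner_map_map, ← e.repr.inner_map_map φ,
      LinearIsometryEquiv.apply_symm_apply, LinearIsometryEquiv.apply_symm_apply, h6]
  refine ⟨H', ?_, hsa, not_purePoint hsa h1 h2 h3 ?_ ?_⟩
  · intro ψ x
    simp only [← e.repr_apply_apply]
    rw [hH', LinearIsometryEquiv.apply_symm_apply, hH]
  · intro hsurj
    apply h4
    intro φ0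
    obtain ⟨ψ, hψ⟩ := hsurj (e.repr.symm φ0)
    refine ⟨e.repr ψ, ?_⟩
    have := congrArg e.repr hψ
    rwa [hH', LinearIsometryEquiv.apply_symm_apply, map_add, map_smul,
      LinearIsometryEquiv.apply_symm_apply] at this
  · intro t φ ht hφ
    have := congrArg e.repr hφ
    rw [hH', LinearIsometryEquiv.apply_symm_apply, map_smul] at this
    simpa using h5 t _ ht this

end Pool.Agent.Lib.MP_be97d8_mp
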