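import Mathlib
import Pool.Agent.Lib.MP_be97d8_mp.Det

namespace Pool.Agent.Lib.MP_be97d8_mp

open Filter Topology Set MeasureTheory
open scoped ENNReal Real InnerProductSpace ComplexConjugate

variable {E : Type*} [NormedAddCommGroup E] [InnerProductSpace ℂ E] [CompleteSpace E]

/-- Poisson transform of the spectral measure of `r` -/
noncomputable def poi (H : E →L[ℂ] E) (r : E) (η x : ℝ) : ℝ :=
  (⟪r, cfc (fun t : ℝ => η / ((t - x) ^ 2 + η ^ 2)) H r⟫_ℂ).re

theorem poisson_le {η c d : ℝ} (hη : 0 < η) (hcd : c ≤ d) (t : ℝ) :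
    ‖∫ x in Icc c d, η / ((t - x) ^ 2 + η ^ 2)‖ ≤ π := by
  rw [Real.norm_eq_abs, abs_of_nonneg (integral_nonneg fun x => by positivity),
    integral_Icc_eq_integral_Ioc, ← intervalIntegral.integral_of_le hcd,
    intervalIntegral.integral_eq_sub_of_hasDerivAt (f := fun x => Real.arctan ((x - t) / η))]
  · linarith [Real.arctan_lt_pi_div_two ((d - t) / η), Real.neg_pi_div_two_lt_arctan ((c - t) / η)]
  · intro x _
    have h := (((hasDerivAt_id x).sub_const t).div_const η).arctan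
    refine HasDerivAt.congr_deriv h ?_
    simp only [id]
    field_simp
    ring
  · refine Continuous.intervalIntegrable (Continuous.div continuous_const (by fun_prop) ?_) _ _
    intro x; positivity

theorem poi_int {H : E →L[ℂ] E} (hH : IsSelfAdjoint H) (r : E) {η c d : ℝ} (hη : 0 < η)
    (hcd : c ≤ d) :
    IntegrableOn (poi H r η) (Icc c d) ∧ ∫ x in Icc c d, poi H r η x ≤ π * ‖r‖ ^ 2 := by
  let f : ℝ → ℝ → ℝ := fun x t => η / ((t - x) ^ 2 + η ^ 2)
  have hf : Continuous (Function.uncurry f) :=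
    Continuous.div continuous_const (by fun_prop) fun z => by positivity
  have hb : ∀ᵐ x ∂(volume.restrict (Icc c d)), ∀ t ∈ spectrum ℝ H, ‖f x t‖ ≤ η / η ^ 2 := by
    refine Eventually.of_forall fun x t _ => ?_
    rw [Real.norm_eq_abs, abs_of_nonneg (by positivity)]
    exact div_le_div_of_nonneg_left hη.le (by positivity) (le_add_of_nonneg_left (sq_nonneg _))
  have hi : HasFiniteIntegral (fun _ : ℝ => η / η ^ 2) (volume.restrict (Icc c d)) :=
    (integrable_const _).2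
  have h1 := integrableOn_cfc measurableSet_Icc f _ H hf.continuousOn hb hi hH
  have h2 := cfc_setIntegral measurableSet_Icc f _ H hf.continuousOn hb hi hH
  let Λ : (E →L[ℂ] E) →L[ℝ] ℝ := Complex.reCLM ∘L ((innerSL ℂ r).restrictScalars ℝ) ∘L
    ((ContinuousLinearMap.apply ℂ E r).restrictScalars ℝ)
  have hΛ : ∀ T, Λ T = (⟪r, T r⟫_ℂ).re := fun T => rfl
  have h3 : poi H r η = fun x => Λ (cfc (f x) H) := rfl
  rw [h3]
  refine ⟨Λ.integrable_comp h1, ?_⟩
  rw [Λ.integral_comp_comm h1, ← h2, hΛ]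
  have h4 : ‖cfc (fun t => ∫ x in Icc c d, f x t) H‖ ≤ π :=
    norm_cfc_le Real.pi_pos.le fun t _ => poisson_le hη hcd t
  refine (Complex.re_le_norm _).trans ((norm_inner_le_norm _ _).trans ?_)
  have h5 := (ContinuousLinearMap.le_opNorm _ r).trans
    (mul_le_mul_of_nonneg_right h4 (norm_nonneg r))
  nlinarith [norm_nonneg r]

theorem poi_lower {H : E →L[ℂ] E} (hH : IsSelfAdjoint H) (r : E) {η : ℝ} (hη : 0 < η) (x : ℝ) :
    0 ≤ poi H r η x ∧ ∀ χ : E, η * ‖⟪r, χ⟫_ℂ‖ ^ 2 ≤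
      poi H r η x * (‖H χ - (x : ℂ) • χ‖ ^ 2 + η ^ 2 * ‖χ‖ ^ 2) := by
  let f : ℝ → ℝ := fun t => η / ((t - x) ^ 2 + η ^ 2)
  have hf : Continuous f := Continuous.div continuous_const (by fun_prop) fun z => by positivity
  set A : E →L[ℂ] E := H - algebraMap ℝ (E →L[ℂ] E) x with hA
  have hAv : ∀ χ, A χ = H χ - (x : ℂ) • χ := fun χ => by
    simp [hA, Algebra.algebraMap_eq_smul_one]
  have hAc : cfc (fun t : ℝ => t - x) H = A := by
    rw [cfc_sub (fun t => t) (fun _ => x) H (by fun_prop) (by fun_prop), cfc_id' ℝ H, cfc_const x H]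
  have hAs : IsSelfAdjoint A := hAc ▸ cfc_predicate _ H
  have h1 : (A * A + algebraMap ℝ (E →L[ℂ] E) (η ^ 2)) * cfc f H = algebraMap ℝ _ η := by
    rw [← hAc, ← cfc_mul _ _ H (by fun_prop) (by fun_prop), ← cfc_const (η ^ 2) H,
      ← cfc_add (a := H) _ _ (by fun_prop) (by fun_prop),
      ← cfc_mul _ _ H (by fun_prop) hf.continuousOn, ← cfc_const η H]
    congr 1
    funext t
    simp only [f]
    field_simp
  set ξ := cfc f H r with hξ
  have h2 : A (A ξ) + ((η ^ 2 : ℝ) : ℂ) • ξ = (η : ℂ) • r := by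
    have := congrArg (fun T : E →L[ℂ] E => T r) h1
    simpa [Algebra.algebraMap_eq_smul_one, ← Complex.coe_smul] using this
  have h3 : ∀ χ, (η : ℂ) * ⟪r, χ⟫_ℂ = ⟪A ξ, A χ⟫_ℂ + ((η ^ 2 : ℝ) : ℂ) * ⟪ξ, χ⟫_ℂ := by
    intro χ
    have h4 := congrArg (fun w => ⟪w, χ⟫_ℂ) h2
    have h5 := hAs.isSymmetric (A ξ) χ
    simp only [inner_add_left, inner_smul_left, Complex.conj_ofReal,
      ContinuousLinearMap.coe_coe] at h4 h5
    rw [← h4, h5]
  have h4 : η * poi H r η x = ‖A ξ‖ ^ 2 + η ^ 2 * ‖ξ‖ ^ 2 := by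
    have h5 := congrArg Complex.re (h3 ξ)
    rw [Complex.re_ofReal_mul, Complex.add_re, Complex.re_ofReal_mul, inner_self_eq_norm_sq_to_K,
      inner_self_eq_norm_sq_to_K] at h5
    norm_cast at h5
  refine ⟨nonneg_of_mul_nonneg_right (by rw [h4]; positivity) hη |> fun h => h, fun χ => ?_⟩
  have h5 : η * ‖⟪r, χ⟫_ℂ‖ ≤ ‖A ξ‖ * ‖A χ‖ + η ^ 2 * (‖ξ‖ * ‖χ‖) := by
    have h6 := congrArg norm (h3 χ)
    rw [norm_mul, Complex.norm_real, Real.norm_eq_abs, abs_of_pos hη] at h6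
    rw [h6]
    refine (norm_add_le _ _).trans (add_le_add (norm_inner_le_norm _ _) ?_)
    rw [norm_mul, Complex.norm_real, Real.norm_eq_abs, abs_of_pos (by positivity)]
    exact mul_le_mul_of_nonneg_left (norm_inner_le_norm _ _) (by positivity)
  have h6 := pow_le_pow_left₀ (by positivity) h5 2
  rw [← hAv]
  refine le_of_mul_le_mul_left ?_ hη
  rw [← mul_assoc η (poi H r η x), h4]
  nlinarith [sq_nonneg (η * (‖A ξ‖ * ‖χ‖ - ‖ξ‖ * ‖A χ‖))]

theorem span_range {H : E →L[ℂ] E} (hH : IsSelfAdjoint H) {φ : E}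
    (hφ : φ ∈ Submodule.span ℂ {φ : E | ∃ z : ℂ, H φ = z • φ}) :
    ∃ Z : Set ℝ, Z.Finite ∧ ∀ x ∉ Z, ∃ ζ : E, φ = H ζ - (x : ℂ) • ζ := by
  induction hφ using Submodule.span_induction with
  | mem χ hχ =>
    obtain ⟨z, hz⟩ := hχ
    by_cases h0 : χ = 0
    · exact ⟨∅, finite_empty, fun x _ => ⟨0, by simp [h0]⟩⟩
    rw [eigen_real hH h0 hz] at hz
    refine ⟨{z.re}, finite_singleton _, fun x hx => ⟨((z.re : ℂ) - x)⁻¹ • χ, ?_⟩⟩
    have h1 : (z.re : ℂ) - x ≠ 0 := by exact_mod_cast sub_ne_zero.2 (Ne.symm hx)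
    rw [map_smul, hz, smul_smul, smul_smul, ← sub_smul, mul_comm (x : ℂ), ← mul_sub,
      inv_mul_cancel₀ h1, one_smul]
  | zero => exact ⟨∅, finite_empty, fun x _ => ⟨0, by simp⟩⟩
  | add χ χ' _ _ h1 h2 =>
    obtain ⟨Z, hZ, h1⟩ := h1
    obtain ⟨Z', hZ', h2⟩ := h2
    refine ⟨Z ∪ Z', hZ.union hZ', fun x hx => ?_⟩
    obtain ⟨ζ, rfl⟩ := h1 x fun h => hx (Or.inl h)
    obtain ⟨ζ', rfl⟩ := h2 x fun h => hx (Or.inr h)
    exact ⟨ζ + ζ', by rw [map_add, smul_add]; abel⟩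
  | smul c χ _ h1 =>
    obtain ⟨Z, hZ, h1⟩ := h1
    refine ⟨Z, hZ, fun x hx => ?_⟩
    obtain ⟨ζ, rfl⟩ := h1 x hx
    exact ⟨c • ζ, by rw [map_smul, smul_sub, smul_comm c]⟩

theorem split_of_purePoint {H : E →L[ℂ] E} (hH : IsSelfAdjoint H) {a b c d : ℝ}
    (hpp : PurePointIn H a b) (hac : a < c) (hdb : d < b) (φ : E) {ε : ℝ} (hε : 0 < ε) :
    ∃ (r : E) (Z : Set ℝ), ‖r‖ < ε ∧ Z.Finite ∧
      ∀ x ∈ Icc c d, x ∉ Z → ∃ ζ : E, φ = H ζ - (x : ℂ) • ζ + r := by
  set ρ := min (c - a) (b - d) / 2 with hρ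
  have hρ0 : 0 < ρ := half_pos (lt_min (by linarith) (by linarith))
  have hρ1 : 2 * ρ ≤ c - a := by rw [hρ]; linarith [min_le_left (c - a) (b - d)]
  have hρ2 : 2 * ρ ≤ b - d := by rw [hρ]; linarith [min_le_right (c - a) (b - d)]
  let g : ℝ → ℝ := fun t => max 0 (min 1 (min ((t - a) / ρ) ((b - t) / ρ)))
  have hg : Continuous g := by fun_prop
  have hmem := hpp (cfc g H φ) (by
    intro f hf hf0
    have h1 : cfc f H * cfc g H = 0 := by
      rw [← cfc_mul f g H hf.continuousOn hg.continuousOn]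
      have : (fun t => f t * g t) = fun _ => 0 := by
        funext t
        by_cases ht : t ∈ Icc a b
        · rw [hf0 t ht, zero_mul]
        · refine mul_eq_zero_of_right _ (max_eq_left (min_le_of_right_le ?_))
          simp only [mem_Icc, not_and_or, not_le] at ht
          rcases ht with ht | ht
          · exact min_le_of_left_le (div_nonpos_of_nonpos_of_nonneg (by linarith) hρ0.le)
          · exact min_le_of_right_le (div_nonpos_of_nonpos_of_nonneg (by linarith) hρ0.le)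
      rw [this]
      exact cfc_const_zero ℝ H
    have := congrArg (fun T : E →L[ℂ] E => T φ) h1
    simpa using this)
  obtain ⟨φ1, h1, h2⟩ := Metric.mem_closure_iff.1 hmem ε hε
  obtain ⟨Z, hZ, h3⟩ := span_range hH h1
  refine ⟨cfc g H φ - φ1, Z, by rwa [dist_eq_norm] at h2, hZ, fun x hx hxZ => ?_⟩
  obtain ⟨ζ, hζ⟩ := h3 x hxZ
  let k : ℝ → ℝ := fun t => (1 - g t) * ((t - x) / max ((t - x) ^ 2) (ρ ^ 2))
  have hk : Continuous k := by
    refine (continuous_const.sub hg).mul (Continuous.div (by fun_prop) (by fun_prop) fun t => ?_)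
    exact (lt_of_lt_of_le (by positivity) (le_max_right _ _)).ne'
  have hgk : (fun t => (t - x) * k t + g t) = fun _ => (1 : ℝ) := by
    funext t
    by_cases ht : |t - x| ≤ ρ
    · have h4 : g t = 1 := by
        rw [abs_le] at ht
        have h5 : 1 ≤ min ((t - a) / ρ) ((b - t) / ρ) :=
          le_min ((one_le_div hρ0).2 (by linarith [hx.1])) ((one_le_div hρ0).2 (by linarith [hx.2]))
        simp only [g, min_eq_left h5, max_eq_right zero_le_one]
      simp [k, h4]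
    · have h5 : ρ ^ 2 ≤ (t - x) ^ 2 := by
        rw [← sq_abs (t - x)]; exact pow_le_pow_left₀ hρ0.le (not_le.1 ht).le 2
      have h6 : t - x ≠ 0 := by
        intro h0; rw [h0, abs_zero] at ht; exact ht hρ0.le
      simp only [k, max_eq_left h5]
      field_simp
      ring
  have h4 : (H - algebraMap ℝ (E →L[ℂ] E) x) * cfc k H + cfc g H = 1 := by
    rw [← cfc_const_one ℝ H, ← hgk, cfc_add (a := H) _ _ (by fun_prop) hg.continuousOn,
      cfc_mul _ k H (by fun_prop) hk.continuousOn,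
      cfc_sub (fun t => t) (fun _ => x) H (by fun_prop) (by fun_prop), cfc_id' ℝ H, cfc_const x H]
  have h5 := congrArg (fun T : E →L[ℂ] E => T φ) h4
  simp only [add_apply, mul_apply_eq_comp, sub_apply, Algebra.algebraMap_eq_smul_one, smul_apply,
    one_apply_eq_self, ← Complex.coe_smul] at h5
  refine ⟨ζ + cfc k H φ, ?_⟩
  rw [map_add, smul_add, hζ]
  linear_combination (norm := abel_nf) -h5

theorem null_of_purePoint {H : E →L[ℂ] E} (hH : IsSelfAdjoint H) {a b c d : ℝ}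
    (hpp : PurePointIn H a b) (hac : a < c) (hcd : c ≤ d) (hdb : d < b) (φ : E) {C : ℝ}
    (hC : 0 < C) :
    volume {x ∈ Icc c d | ∀ L : ℕ, ∃ χ : E, ⟪φ, χ⟫_ℂ = 1 ∧
      ‖H χ - (x : ℂ) • χ‖ ^ 2 ≤ C / (L + 1) ∧ ‖χ‖ ^ 2 ≤ C * (L + 1)} = 0 := by
  set S := {x ∈ Icc c d | ∀ L : ℕ, ∃ χ : E, ⟪φ, χ⟫_ℂ = 1 ∧
      ‖H χ - (x : ℂ) • χ‖ ^ 2 ≤ C / (L + 1) ∧ ‖χ‖ ^ 2 ≤ C * (L + 1)} with hS
  have key : ∀ ε : ℝ, 0 < ε →
      ENNReal.ofReal (1 / (8 * C)) * volume S ≤ ENNReal.ofReal (π * ε ^ 2) := by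
    intro ε hε
    obtain ⟨r, Z, hr, hZ, h⟩ := split_of_purePoint hH hpp hac hdb φ hε
    let F : ℕ → ℝ → ℝ≥0∞ := fun L x => ENNReal.ofReal (poi H r (1 / ((L : ℝ) + 1)) x)
    have hη : ∀ L : ℕ, 0 < 1 / ((L : ℝ) + 1) := fun L => by positivity
    have hm : ∀ L, AEMeasurable (F L) (volume.restrict (Icc c d)) := fun L =>
      (poi_int hH r (hη L) hcd).1.aemeasurable.ennreal_ofReal
    have h1 : ∀ L, ∫⁻ x in Icc c d, F L x ≤ ENNReal.ofReal (π * ε ^ 2) := by
      intro L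
      rw [← ofReal_integral_eq_lintegral_ofReal (poi_int hH r (hη L) hcd).1
        (Eventually.of_forall fun x => (poi_lower hH r (hη L) x).1)]
      refine ENNReal.ofReal_le_ofReal ((poi_int hH r (hη L) hcd).2.trans ?_)
      gcongr
    have h2 := (lintegral_liminf_le' (u := atTop) hm).trans
      (liminf_le_of_frequently_le' (Eventually.of_forall h1).frequently)
    have hm2 : AEMeasurable (fun x => liminf (fun L => F L x) atTop)
        (volume.restrict (Icc c d)) := by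
      simp only [liminf_eq_iSup_iInf_of_nat]
      exact AEMeasurable.iSup fun n => AEMeasurable.iInf fun i => AEMeasurable.iInf fun _ => hm i
    refine le_trans ?_ ((mul_meas_ge_le_lintegral₀ hm2
      (ENNReal.ofReal (1 / (8 * C)))).trans h2)
    rw [Measure.restrict_apply' measurableSet_Icc, ← measure_sdiff_null (hZ.measure_zero volume)]
    gcongr
    rintro x ⟨⟨hx, hL⟩, hxZ⟩
    refine ⟨?_, hx⟩
    obtain ⟨ζ, hζ⟩ := h x hx hxZ
    change ENNReal.ofReal (1 / (8 * C)) ≤ liminf (fun L => F L x) atTop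
    refine le_liminf_of_le (by isBoundedDefault) ?_
    have ht : Tendsto (fun L : ℕ => ‖ζ‖ ^ 2 * C * (1 / ((L : ℝ) + 1))) atTop (𝓝 0) := by
      simpa using (tendsto_one_div_add_atTop_nhds_zero_nat (𝕜 := ℝ)).const_mul (‖ζ‖ ^ 2 * C)
    filter_upwards [ht.eventually (ge_mem_nhds (by norm_num : (0 : ℝ) < 1 / 4))] with L h3
    obtain ⟨χ, h4, h5, h6⟩ := hL L
    refine ENNReal.ofReal_le_ofReal ?_
    have h7 : ⟪ζ, H χ - (x : ℂ) • χ⟫_ℂ + ⟪r, χ⟫_ℂ = 1 := by
      have h8 := hH.isSymmetric ζ χ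
      simp only [ContinuousLinearMap.coe_coe] at h8
      rw [← h4, hζ, inner_add_left, inner_sub_left, inner_sub_right, inner_smul_left,
        inner_smul_right, Complex.conj_ofReal, h8]
    have h8 : ‖⟪ζ, H χ - (x : ℂ) • χ⟫_ℂ‖ ≤ 1 / 2 := by
      refine (pow_le_pow_iff_left₀ (norm_nonneg _) (by norm_num) two_ne_zero).1 ?_
      refine (pow_le_pow_left₀ (norm_nonneg _) (norm_inner_le_norm _ _) 2).trans ?_
      rw [mul_pow]
      refine (mul_le_mul_of_nonneg_left h5 (sq_nonneg _)).trans ?_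
      rw [mul_one_div, mul_div_assoc] at h3
      linarith
    have h9 : 1 / 2 ≤ ‖⟪r, χ⟫_ℂ‖ := by
      have := norm_add_le ⟪ζ, H χ - (x : ℂ) • χ⟫_ℂ ⟪r, χ⟫_ℂ
      rw [h7, norm_one] at this
      linarith
    obtain ⟨h10, h11⟩ := poi_lower hH r (hη L) x
    have h12 := h11 χ
    have h13 : ‖H χ - (x : ℂ) • χ‖ ^ 2 + (1 / ((L : ℝ) + 1)) ^ 2 * ‖χ‖ ^ 2 ≤
        2 * C * (1 / ((L : ℝ) + 1)) := by
      refine (add_le_add h5 (mul_le_mul_of_nonneg_left h6 (sq_nonneg _))).trans (le_of_eq ?_)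
      field_simp
      ring
    have h14 := h12.trans (mul_le_mul_of_nonneg_left h13 h10)
    rw [← mul_assoc, mul_comm, mul_le_mul_iff_left₀ (hη L)] at h14
    rw [div_le_iff₀ (by positivity)]
    nlinarith
  have h1 : Tendsto (fun ε : ℝ => ENNReal.ofReal (π * ε ^ 2)) (𝓝[>] 0) (𝓝 0) := by
    have : Continuous fun ε : ℝ => ENNReal.ofReal (π * ε ^ 2) :=
      ENNReal.continuous_ofReal.comp (by fun_prop)
    simpa using (this.tendsto 0).mono_left nhdsWithin_le_nhds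
  have h2 := ge_of_tendsto h1 (eventually_mem_nhdsWithin.mono key)
  rw [nonpos_iff_eq_zero, mul_eq_zero, ENNReal.ofReal_eq_zero] at h2
  exact h2.resolve_left (not_le.2 (by positivity))

end Pool.Agent.Lib.MP_be97d8_mp
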