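import Mathlib
import Pool.Agent.Lib.MP_be97d8_mp.AHilb

namespace Pool.Agent.Lib.MP_be97d8_mp

open Filter Topology Set MeasureTheory
open scoped InnerProductSpace ComplexConjugate

variable {s : ℕ → ℕ}

theorem recur_bdd (h : ℝ) (hh : |h| < 2) (g : ℕ → ℝ) (hg : Summable fun n => |g n - h|)
    (u : ℕ → ℝ) (hu : ∀ n, u (n + 2) = g n * u (n + 1) - u n) : ∃ M, 0 < M ∧ ∀ n, |u n| ≤ M := by
  set κ : ℝ := 1 - |h| / 2 with hκ
  have hκpos : 0 < κ := by rw [hκ]; linarith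
  let Q : ℕ → ℝ := fun n => u (n + 1) ^ 2 + u n ^ 2 - h * u n * u (n + 1)
  have hQ : ∀ n, κ * (u n ^ 2 + u (n + 1) ^ 2) ≤ Q n := by
    intro n
    have h1 : h * u n * u (n + 1) ≤ |h| * |u n * u (n + 1)| := by
      rw [← abs_mul, mul_assoc]; exact le_abs_self _
    have h2 : |u n * u (n + 1)| ≤ (u n ^ 2 + u (n + 1) ^ 2) / 2 := by
      rw [abs_le]; constructor <;> nlinarith [sq_nonneg (u n + u (n + 1)), sq_nonneg (u n - u (n + 1))]
    have h3 := mul_le_mul_of_nonneg_left h2 (abs_nonneg h)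
    simp only [Q, hκ]
    nlinarith
  have hQ0 : ∀ n, 0 ≤ Q n := fun n => le_trans (by positivity) (hQ n)
  set T := ∑' n, |g n - h| with hT
  have hT0 : 0 ≤ T := tsum_nonneg fun n => abs_nonneg _
  have hstep : ∀ n, Q (n + 1) ≤ Real.exp ((T + 3) / κ * |g n - h|) * Q n := by
    intro n
    have e1 : Q (n + 1) - Q n = (g n - h) * (g n * u (n + 1) ^ 2 - 2 * u n * u (n + 1)) := by
      simp only [Q]
      rw [show n + 1 + 1 = n + 2 by rfl, hu n]
      ring
    have hgb : |g n| ≤ T + 2 := by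
      have h1 : |g n| ≤ |g n - h| + |h| := by simpa using abs_add_le (g n - h) h
      have h2 : |g n - h| ≤ T := hg.le_tsum n fun m _ => abs_nonneg _
      linarith
    have e2 : |g n * u (n + 1) ^ 2 - 2 * u n * u (n + 1)| ≤
        (T + 3) * (u n ^ 2 + u (n + 1) ^ 2) := by
      rw [abs_le] at hgb ⊢
      constructor <;>
        nlinarith [sq_nonneg (u n + u (n + 1)), sq_nonneg (u n - u (n + 1)), sq_nonneg (u (n + 1)),
          sq_nonneg (u n)]
    have e4 : u n ^ 2 + u (n + 1) ^ 2 ≤ Q n / κ := by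
      rw [le_div_iff₀ hκpos]; linarith [hQ n]
    have e3 : |Q (n + 1) - Q n| ≤ |g n - h| * ((T + 3) * (Q n / κ)) := by
      rw [e1, abs_mul]
      exact mul_le_mul_of_nonneg_left (e2.trans (by gcongr)) (abs_nonneg _)
    have e5 := (abs_le.1 e3).2
    have e6 := mul_le_mul_of_nonneg_right (Real.add_one_le_exp ((T + 3) / κ * |g n - h|)) (hQ0 n)
    have e7 : |g n - h| * ((T + 3) * (Q n / κ)) = (T + 3) / κ * |g n - h| * Q n := by ring
    linarith
  have hup : ∀ n, Q n ≤ Real.exp ((T + 3) / κ * ∑ k ∈ Finset.range n, |g k - h|) * Q 0 := by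
    intro n
    induction n with
    | zero => simp
    | succ n ih =>
      refine (hstep n).trans ((mul_le_mul_of_nonneg_left ih (Real.exp_pos _).le).trans (le_of_eq ?_))
      rw [Finset.sum_range_succ, mul_add, Real.exp_add]; ring
  refine ⟨Real.exp ((T + 3) / κ * T) * Q 0 / κ + 1, by have := hQ0 0; positivity, fun n => ?_⟩
  have h1 : Q n ≤ Real.exp ((T + 3) / κ * T) * Q 0 := by
    refine (hup n).trans (mul_le_mul_of_nonneg_right (Real.exp_le_exp.2 ?_) (hQ0 0))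
    exact mul_le_mul_of_nonneg_left (hg.sum_le_tsum _ fun k _ => abs_nonneg _) (by positivity)
  have h2 : u n ^ 2 ≤ Real.exp ((T + 3) / κ * T) * Q 0 / κ := by
    rw [le_div_iff₀ hκpos]; nlinarith [hQ n, sq_nonneg (u (n + 1))]
  nlinarith [sq_abs (u n), sq_nonneg (|u n| - 1), abs_nonneg (u n)]

/-- the solution of a three-term recursion -/
noncomputable def sol (a : ℕ → ℝ) : ℕ → ℝ
  | 0 => 1
  | 1 => 1 / a 0
  | n + 2 => 1 / a (n + 1) * sol a (n + 1) - sol a n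

theorem sol_eq {a : ℕ → ℝ} (ha : ∀ n, a n ≠ 0) (n : ℕ) :
    sol a n = a n * (prev (sol a) n + sol a (n + 1)) := by
  cases n with
  | zero => simp [sol, prev, ha 0]
  | succ n =>
    have := ha (n + 1)
    simp only [prev, sol]; field_simp; ring

theorem sol_bdd {a : ℕ → ℝ} (ha : ∀ n, a n ≠ 0) {α : ℝ} (hα : 1 / 2 < |α|)
    (hsum : Summable fun n => |a n - α|) : ∃ M, 0 < M ∧ ∀ n, |sol a n| ≤ M := by
  have hα0 : α ≠ 0 := by
    intro h0; rw [h0] at hα; norm_num at hα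
  refine recur_bdd (1 / α) ?_ (fun n => 1 / a (n + 1)) ?_ _ fun n => rfl
  · rw [abs_div, abs_one, div_lt_iff₀ (abs_pos.2 hα0)]; linarith
  · have h1 : Summable fun n => |a (n + 1) - α| := (summable_nat_add_iff 1).2 hsum
    refine Summable.of_norm_bounded_eventually_nat (h1.mul_left 8) ?_
    filter_upwards [h1.tendsto_atTop_zero.eventually
      (ge_mem_nhds (by norm_num : (0 : ℝ) < 1 / 4))] with n hn
    have ha0 := ha (n + 1)
    generalize a (n + 1) = x at *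
    have h2 : 1 / 4 ≤ |x| := by
      have : |α| ≤ |x| + |x - α| := by simpa using abs_sub x (x - α)
      linarith
    have h3 : 1 / x - 1 / α = (α - x) / (x * α) := by field_simp
    rw [Real.norm_eq_abs, abs_abs, h3, abs_div, abs_mul, abs_sub_comm,
      div_le_iff₀ (mul_pos (abs_pos.2 ha0) (abs_pos.2 hα0))]
    have h4 : 1 / 8 ≤ |x| * |α| := by nlinarith
    nlinarith [abs_nonneg (x - α)]

theorem norm_sq_le_shell (ψ : HS s) (N : ℕ) {B : ℝ} (h0 : ∀ x : Vtx s, N ≤ x.1 → ψ x = 0)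
    (hb : ∀ n, NN (ψ : Vtx s → ℂ) n ≤ B) : ‖ψ‖ ^ 2 ≤ N * B := by
  have h1 : HasSum (NN (ψ : Vtx s → ℂ)) (∑ n ∈ Finset.range N, NN (ψ : Vtx s → ℂ) n) :=
    hasSum_sum_of_ne_finset_zero fun n hn => Finset.sum_eq_zero fun i _ => by
      rw [h0 ⟨n, i⟩ (by simpa using hn)]; simp
  rw [(hasSum_NN ψ).unique h1]
  simpa using Finset.sum_le_sum (s := Finset.range N) fun n _ => hb n

theorem mem_of_shell (f : Vtx s → ℂ) (N : ℕ) (h0 : ∀ x : Vtx s, N ≤ x.1 → f x = 0) : Memℓp f 2 :=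
  mem_of_summable f (summable_of_ne_finset_zero
    (s := (Finset.range N).sigma fun _ => Finset.univ) fun x hx => by
      rw [h0 x (by simpa using hx)]; simp)

/-- second moment of the shell resolvent -/
noncomputable def bb (lam : ℝ) (v : Vtx s → ℝ) (n : ℕ) (E : ℝ) : ℝ :=
  (1 / (s n : ℝ)) * ∑ i : Fin (s n), (1 / (E - lam * v ⟨n, i⟩)) ^ 2

theorem approx (hs : ∀ n, 0 < s n) {lam : ℝ} {v : Vtx s → ℝ} {H : HS s →L[ℂ] HS s}
    (hH : IsAnd s lam v H) {E : ℝ} (hE : ∀ x, E ≠ lam * v x) (ha : ∀ n, aa lam v n E ≠ 0)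
    {α B : ℝ} (hα : 1 / 2 < |α|) (hsum : Summable fun n => |aa lam v n E - α|)
    (hB : ∀ n, bb lam v n E ≤ B) :
    ∃ C : ℝ, ∀ L : ℕ, ∃ χ : HS s, uu (χ : Vtx s → ℂ) 0 = 1 ∧
      ‖H χ - (E : ℂ) • χ‖ ^ 2 ≤ C / (L + 1) ∧ ‖χ‖ ^ 2 ≤ C * (L + 1) := by
  obtain ⟨M, hM0, hM⟩ := sol_bdd ha hα hsum
  set u := sol fun n => aa lam v n E with hu
  have hpos : ∀ n, (0 : ℝ) < s n := fun n => by exact_mod_cast hs n
  let c : ℕ → ℝ := fun n => 1 / Real.sqrt (s n)
  have hc2 : ∀ n, c n ^ 2 = 1 / s n := fun n => by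
    simp only [c]; rw [div_pow, Real.sq_sqrt (hpos n).le, one_pow]
  have hMp : ∀ n, |prev u n| ≤ M := fun n => by
    cases n with
    | zero => simpa [prev] using hM0.le
    | succ n => exact hM n
  have hB0 : 0 ≤ B := le_trans (by unfold bb; positivity) (hB 0)
  refine ⟨max (8 * M ^ 2) (4 * M ^ 2 * B), fun L => ?_⟩
  have hL : (0 : ℝ) < L + 1 := by positivity
  let θ : ℕ → ℝ := fun n => max 0 (1 - n / ((L : ℝ) + 1))
  have hθ0 : ∀ n, L + 1 ≤ n → θ n = 0 := fun n hn => max_eq_left (by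
    rw [sub_nonpos, one_le_div hL]; exact_mod_cast hn)
  have hθ1 : ∀ n, |θ n| ≤ 1 := fun n => by
    rw [abs_of_nonneg (le_max_left _ _)]
    exact max_le zero_le_one (sub_le_self _ (by positivity))
  have hθ2 : ∀ n, |θ (n + 1) - θ n| ≤ 1 / ((L : ℝ) + 1) := fun n => by
    refine (abs_max_sub_max_le_max _ _ _ _).trans (max_le (by simp; positivity) (le_of_eq ?_))
    rw [Nat.cast_succ, add_div, abs_sub_comm, abs_of_pos] <;> [ring; (ring_nf; positivity)]
  let f : Vtx s → ℂ := fun x =>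
    ((θ x.1 * (c x.1 * (prev u x.1 + u (x.1 + 1)) * (1 / (E - lam * v x))) : ℝ) : ℂ)
  have hf0 : ∀ x : Vtx s, L + 1 ≤ x.1 → f x = 0 := fun x hx => by simp [f, hθ0 _ hx]
  have huu : ∀ n, uu f n = ((θ n * u n : ℝ) : ℂ) := by
    intro n
    simp only [uu, f]
    rw [← Complex.ofReal_sum, ← Complex.ofReal_mul, ← Finset.mul_sum, ← Finset.mul_sum]
    congr 1
    have h1 : u n = aa lam v n E * (prev u n + u (n + 1)) := sol_eq ha n
    rw [h1, aa, ← hc2]
    simp only [c]; ring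
  have hact : ∀ x : Vtx s, act lam v f x - E * f x =
      ((c x.1 * ((prev θ x.1 - θ x.1) * prev u x.1 + (θ (x.1 + 1) - θ x.1) * u (x.1 + 1)) : ℝ) : ℂ) := by
    intro x
    have h1 : prev (uu f) x.1 = ((prev θ x.1 * prev u x.1 : ℝ) : ℂ) := by
      cases x.1 with
      | zero => simp [prev]
      | succ n => exact huu n
    have h2 := sub_ne_zero.2 (hE x)
    rw [act, h1, huu]
    simp only [f]
    norm_cast
    simp only [c]
    field_simp
    ring
  let χ : HS s := ⟨f, mem_of_shell f _ hf0⟩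
  have hχ : ∀ x, (H χ - (E : ℂ) • χ : HS s) x = act lam v f x - E * f x := fun x => by
    rw [lp.coeFn_sub, lp.coeFn_smul, Pi.sub_apply, hH.apply]; rfl
  refine ⟨χ, ?_, ?_, ?_⟩
  · change uu f 0 = 1
    rw [huu]; simp [θ, hu, sol]
  · refine (norm_sq_le_shell _ (L + 2) (B := (2 * M / ((L : ℝ) + 1)) ^ 2) (fun x hx => ?_)
      fun n => ?_).trans ?_
    · obtain ⟨n, i⟩ := x
      obtain ⟨m, rfl⟩ : ∃ m, n = m + 1 := ⟨n - 1, by simp only at hx; omega⟩
      simp only at hx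
      rw [hχ, hact]
      simp [prev, hθ0 m (by omega), hθ0 (m + 1) (by omega), hθ0 (m + 1 + 1) (by omega)]
    · have h1 : |(prev θ n - θ n) * prev u n| ≤ 1 / ((L : ℝ) + 1) * M := by
        cases n with
        | zero => simp only [prev, mul_zero, abs_zero]; positivity
        | succ n =>
          rw [abs_mul, abs_sub_comm]
          exact mul_le_mul (hθ2 n) (hM n) (abs_nonneg _) (by positivity)
      have h2 : |(θ (n + 1) - θ n) * u (n + 1)| ≤ 1 / ((L : ℝ) + 1) * M := by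
        rw [abs_mul]; exact mul_le_mul (hθ2 n) (hM _) (abs_nonneg _) (by positivity)
      have h3 := pow_le_pow_left₀ (abs_nonneg _) ((abs_add_le _ _).trans (add_le_add h1 h2)) 2
      simp only [NN, hχ, hact, Complex.norm_real, Real.norm_eq_abs, sq_abs, mul_pow, hc2,
        Finset.sum_const, Finset.card_univ, Fintype.card_fin, nsmul_eq_mul]
      rw [← mul_assoc, mul_one_div_cancel (hpos n).ne', one_mul, ← sq_abs]
      exact h3.trans (le_of_eq (by ring))
    · rw [div_pow, le_div_iff₀ hL]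
      refine le_trans ?_ (le_max_left _ _)
      have h1 : ((L + 2 : ℕ) : ℝ) * ((2 * M) ^ 2 / ((L : ℝ) + 1) ^ 2) * (L + 1) =
          4 * M ^ 2 * ((L + 2) / (L + 1)) := by push_cast; field_simp; ring
      have h2 : ((L : ℝ) + 2) / (L + 1) ≤ 2 := by
        rw [div_le_iff₀ hL]; linarith [Nat.cast_nonneg (α := ℝ) L]
      rw [h1]; nlinarith [sq_nonneg M]
  · refine (norm_sq_le_shell χ (L + 1) (B := 4 * M ^ 2 * B) hf0 fun n => ?_).trans ?_
    · change NN f n ≤ _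
      simp only [NN, f, Complex.norm_real, Real.norm_eq_abs, sq_abs, mul_pow, hc2]
      rw [← Finset.mul_sum, ← Finset.mul_sum]
      have h1 : θ n ^ 2 ≤ 1 := (sq_le_one_iff_abs_le_one _).2 (hθ1 n)
      have h2 : (prev u n + u (n + 1)) ^ 2 ≤ 4 * M ^ 2 := by
        have := pow_le_pow_left₀ (abs_nonneg _)
          ((abs_add_le _ _).trans (add_le_add (hMp n) (hM (n + 1)))) 2
        rw [sq_abs] at this; linarith
      have h3 : 0 ≤ bb lam v n E := by unfold bb; positivity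
      calc _ = θ n ^ 2 * ((prev u n + u (n + 1)) ^ 2 * bb lam v n E) := by rw [bb]; ring
        _ ≤ 1 * (4 * M ^ 2 * B) := by gcongr; exact hB n
        _ = _ := one_mul _
    · push_cast
      rw [mul_comm]
      exact mul_le_mul_of_nonneg_right (le_max_right _ _) hL.le

theorem fat_not_purePoint {E : Type*} [NormedAddCommGroup E] [InnerProductSpace ℂ E]
    [CompleteSpace E] (e : HilbertBasis (Vtx s) ℂ E) (hs : ∀ n, 0 < s n) {lam : ℝ}
    {v : Vtx s → ℝ} (hv : ∀ x, |v x| ≤ 1) {a b c d : ℝ} (hac : a < c) (hcd : c ≤ d) (hdb : d < b)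
    {G : Set ℝ} (hG : volume G ≠ 0) (hGs : G ⊆ Icc c d)
    (h : ∀ t ∈ G, (∀ x, t ≠ lam * v x) ∧ (∀ n, aa lam v n t ≠ 0) ∧ ∃ α B : ℝ, 1 / 2 < |α| ∧
      (Summable fun n => |aa lam v n t - α|) ∧ ∀ n, bb lam v n t ≤ B) :
    ∃ H : E →L[ℂ] E, IsAnderson s e lam v H ∧ IsSelfAdjoint H ∧ ¬ PurePointIn H a b := by
  obtain ⟨H, hH⟩ := exists_anderson hs lam v hv
  let H' : E →L[ℂ] E := e.repr.symm.toLinearIsometry.toContinuousLinearMap ∘L H ∘L
    e.repr.toLinearIsometry.toContinuousLinearMap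
  have hH' : ∀ ψ, H' ψ = e.repr.symm (H (e.repr ψ)) := fun ψ => rfl
  have hsa : IsSelfAdjoint H' := by
    rw [ContinuousLinearMap.isSelfAdjoint_iff_isSymmetric]
    intro φ ψ
    have h6 := hH.isSelfAdjoint.isSymmetric (e.repr φ) (e.repr ψ)
    simp only [ContinuousLinearMap.coe_coe] at h6 ⊢
    rw [hH', hH', ← e.repr.inner_map_map, ← e.repr.inner_map_map φ,
      LinearIsometryEquiv.apply_symm_apply, LinearIsometryEquiv.apply_symm_apply, h6]
  refine ⟨H', fun ψ x => ?_, hsa, fun hpp => hG ?_⟩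
  · simp only [← e.repr_apply_apply]
    rw [hH', LinearIsometryEquiv.apply_symm_apply, hH]
  let φ : HS s := ⟨fun x => if x.1 = 0 then ((1 / Real.sqrt (s 0) : ℝ) : ℂ) else 0,
    mem_of_shell _ 1 fun x hx => if_neg (by omega)⟩
  have hφ : ∀ χ : HS s, ⟪φ, χ⟫_ℂ = uu (χ : Vtx s → ℂ) 0 := by
    intro χ
    rw [lp.inner_eq_tsum, uu, Finset.mul_sum,
      ← (hasSum_shell (fun x => ((1 / Real.sqrt (s 0) : ℝ) : ℂ) * χ x) 0).tsum_eq]
    refine tsum_congr fun x => ?_
    change ⟪(if x.1 = 0 then ((1 / Real.sqrt (s 0) : ℝ) : ℂ) else 0), χ x⟫_ℂ = _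
    by_cases hx : x.1 = 0
    · rw [if_pos hx, if_pos hx, RCLike.inner_apply, Complex.conj_ofReal, mul_comm]
    · rw [if_neg hx, if_neg hx, inner_zero_left]
  refine measure_mono_null ?_ (measure_iUnion_null fun k : ℕ => null_of_purePoint hsa hpp hac hcd
    hdb (e.repr.symm φ) (C := (k : ℝ) + 1) (by positivity))
  intro t ht
  obtain ⟨h1, h2, α, B, h3, h4, h5⟩ := h t ht
  obtain ⟨C, hC⟩ := approx hs hH h1 h2 h3 h4 h5
  obtain ⟨k, hk⟩ := exists_nat_ge C
  refine mem_iUnion.2 ⟨k, hGs ht, fun L => ?_⟩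
  obtain ⟨χ, h6, h7, h8⟩ := hC L
  refine ⟨e.repr.symm χ, by rw [LinearIsometryEquiv.inner_map_map, hφ, h6], ?_, ?_⟩
  · rw [hH', LinearIsometryEquiv.apply_symm_apply, ← map_smul, ← map_sub,
      LinearIsometryEquiv.norm_map]
    exact h7.trans (by gcongr; linarith)
  · rw [LinearIsometryEquiv.norm_map]
    exact h8.trans (by gcongr; linarith)

end Pool.Agent.Lib.MP_be97d8_mp
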