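import Mathlib

namespace Pool.Agent.Lib.MP_be97d8_mp

open Filter Topology Set MeasureTheory ProbabilityTheory
open scoped NNReal

/-- the support of the single-site distribution -/
def SS : Set ℝ := ⋃ k : ℕ, abs ⁻¹' Icc (1 / (2 * (k : ℝ) + 3)) (1 / (2 * (k : ℝ) + 2))

theorem mem_SS {t : ℝ} : t ∈ SS ↔
    ∃ k : ℕ, 1 / (2 * (k : ℝ) + 3) ≤ |t| ∧ |t| ≤ 1 / (2 * (k : ℝ) + 2) := by
  simp [SS]

theorem measurableSet_SS : MeasurableSet SS :=
  MeasurableSet.iUnion fun _ => measurableSet_Icc.preimage (by fun_prop)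

theorem SS_abs {t : ℝ} (ht : t ∈ SS) : |t| ≤ 1 := by
  obtain ⟨k, -, h⟩ := mem_SS.1 ht
  refine h.trans ?_
  rw [div_le_one (by positivity)]
  have : (0 : ℝ) ≤ k := Nat.cast_nonneg k
  linarith

theorem SS_ne_zero {t : ℝ} (ht : t ∈ SS) : t ≠ 0 := by
  obtain ⟨k, h, -⟩ := mem_SS.1 ht
  rw [← abs_pos]
  exact lt_of_lt_of_le (by positivity) h

theorem neg_mem_SS {t : ℝ} : -t ∈ SS ↔ t ∈ SS := by simp only [mem_SS, abs_neg]

theorem Icc_subset_SS (k : ℕ) : Icc (1 / (2 * (k : ℝ) + 3)) (1 / (2 * (k : ℝ) + 2)) ⊆ SS := by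
  intro t ht
  have : 0 ≤ t := le_trans (by positivity) ht.1
  exact mem_SS.2 ⟨k, by rw [abs_of_nonneg this]; exact ht.1, by rw [abs_of_nonneg this]; exact ht.2⟩

theorem vol_SS_ne_top : volume SS ≠ ⊤ := by
  refine ne_top_of_le_ne_top ?_ (measure_mono (t := Icc (-1) 1) fun t ht => abs_le.1 (SS_abs ht))
  simp

theorem vol_SS_ne_zero : volume SS ≠ 0 := by
  intro h
  have := measure_mono_null (Icc_subset_SS 0) h
  simp only [Real.volume_Icc, ENNReal.ofReal_eq_zero] at this
  norm_num at this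

/-- the single-site distribution -/
noncomputable def PP : Measure ℝ := cond volume SS

instance : IsProbabilityMeasure PP :=
  cond_isProbabilityMeasure_of_finite vol_SS_ne_zero vol_SS_ne_top

theorem ae_SS : ∀ᵐ t ∂PP, t ∈ SS := ae_cond_mem measurableSet_SS

theorem PP_neg : MeasurePreserving (fun t : ℝ => -t) PP PP := by
  have h1 := (Measure.measurePreserving_neg (volume : Measure ℝ)).restrict_preimage measurableSet_SS
  have h2 : (Neg.neg ⁻¹' SS : Set ℝ) = SS := by
    ext t; exact neg_mem_SS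
  rw [h2] at h1
  exact h1.smul_measure _

theorem integral_neg_PP (f : ℝ → ℝ) : ∫ t, f (-t) ∂PP = ∫ t, f t ∂PP :=
  PP_neg.integral_comp measurableEmbedding_neg f

theorem PP_support : PP (Icc (-1) 1)ᶜ = 0 := by
  have : ∀ᵐ t ∂PP, t ∈ Icc (-1 : ℝ) 1 := by
    filter_upwards [ae_SS] with t ht using abs_le.1 (SS_abs ht)
  exact this

theorem PP_mean : ∫ t, t ∂PP = 0 := by
  have h := integral_neg_PP (fun t => t)
  rw [integral_neg] at h
  linarith

theorem PP_sq_int : Integrable (fun t : ℝ => t ^ 2) PP := by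
  refine Integrable.of_bound (Measurable.aestronglyMeasurable (by fun_prop)) 1 ?_
  filter_upwards [ae_SS] with t ht
  rw [Real.norm_eq_abs, abs_pow]
  exact pow_le_one₀ (abs_nonneg _) (SS_abs ht)

theorem PP_var : 0 < variance id PP ∧ variance id PP ≤ 1 := by
  have h : variance id PP = ∫ t, t ^ 2 ∂PP :=
    variance_of_integral_eq_zero measurable_id.aemeasurable PP_mean
  rw [h]
  constructor
  · rcases (integral_nonneg (μ := PP) (f := fun t : ℝ => t ^ 2) fun t => sq_nonneg t).lt_or_eq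
      with h1 | h1
    · exact h1
    · exfalso
      have h2 := (integral_eq_zero_iff_of_nonneg (fun t => sq_nonneg t) PP_sq_int).1 h1.symm
      obtain ⟨t, ht1, ht2⟩ := (h2.and ae_SS).exists
      exact SS_ne_zero ht2 (by simpa using ht1)
  · have h1 : ∫ t, t ^ 2 ∂PP ≤ ∫ _, (1 : ℝ) ∂PP := by
      refine integral_mono_ae PP_sq_int (integrable_const _) ?_
      filter_upwards [ae_SS] with t ht
      rw [← sq_abs]
      exact pow_le_one₀ (abs_nonneg _) (SS_abs ht)
    simpa using h1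

theorem PP_density : ∃ C : ℝ≥0, PP ≤ C • (volume : Measure ℝ) := by
  refine ⟨((volume SS)⁻¹).toNNReal, ?_⟩
  have h : (((volume SS)⁻¹).toNNReal : ENNReal) = (volume SS)⁻¹ :=
    ENNReal.coe_toNNReal (ENNReal.inv_ne_top.2 vol_SS_ne_zero)
  rw [Measure.le_iff]
  intro A hA
  rw [PP, cond_apply measurableSet_SS, Measure.smul_apply, ENNReal.smul_def, h, smul_eq_mul]
  gcongr
  exact inter_subset_right

theorem SS_gap (k : ℕ) {t : ℝ} (ht : t ∈ SS) :
    1 / (2 * (k : ℝ) + 3) ≤ t ∨ t ≤ 1 / (2 * (k : ℝ) + 4) := by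
  obtain ⟨j, h1, h2⟩ := mem_SS.1 ht
  rcases le_or_gt 0 t with h0 | h0
  · rw [abs_of_nonneg h0] at h1 h2
    rcases le_or_gt j k with hj | hj
    · left
      refine le_trans (one_div_le_one_div_of_le (by positivity) ?_) h1
      have : (j : ℝ) ≤ k := by exact_mod_cast hj
      linarith
    · right
      refine le_trans h2 (one_div_le_one_div_of_le (by positivity) ?_)
      have : (k : ℝ) + 1 ≤ j := by exact_mod_cast hj
      linarith
  · right
    exact h0.le.trans (by positivity)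

theorem edge (lam : ℝ) (hlam : 0 < lam) (k : ℕ) (η0 : ℝ) (hη0 : 0 < η0) :
    ∃ η : ℝ, 0 < η ∧ η ≤ η0 ∧
      (∀ t ∈ SS, η ≤ |lam / (2 * (k : ℝ) + 3) - η - lam * t|) ∧
      ∀ E ∈ Icc (lam / (2 * (k : ℝ) + 3) - η - η / 2) (lam / (2 * (k : ℝ) + 3) - η + η / 2),
        ∫ t, 1 / (E - lam * t) ∂PP < -(1 / 2) := by
  have hk : (0 : ℝ) ≤ k := Nat.cast_nonneg k
  set α : ℝ := 1 / (2 * (k : ℝ) + 3) with hα
  set β : ℝ := 1 / (2 * (k : ℝ) + 2) with hβ
  set α' : ℝ := 1 / (2 * (k : ℝ) + 4) with hα'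
  have hαβ : α < β := one_div_lt_one_div_of_lt (by positivity) (by linarith)
  have hαα : α' < α := one_div_lt_one_div_of_lt (by positivity) (by linarith)
  have hp : lam / (2 * (k : ℝ) + 3) = lam * α := by rw [hα]; ring
  rw [hp]
  set γ := lam * α - lam * α' with hγ
  set l := lam * β - lam * α with hl
  have hγ0 : 0 < γ := by rw [hγ]; nlinarith
  have hl0 : 0 < l := by rw [hl]; nlinarith
  set C : ℝ := ((volume SS)⁻¹).toReal with hC
  have hC0 : 0 < C :=
    ENNReal.toReal_pos (ENNReal.inv_ne_zero.2 vol_SS_ne_top) (ENNReal.inv_ne_top.2 vol_SS_ne_zero)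
  set K := (4 / γ + 1) * lam / C with hK
  set η := min (min η0 (γ / 2)) (l * (2 / 3) * Real.exp (-K)) with hη
  have hη1 : 0 < η := lt_min (lt_min hη0 (by positivity)) (by positivity)
  have hη2 : η ≤ η0 := (min_le_left _ _).trans (min_le_left _ _)
  have hη3 : η ≤ γ / 2 := (min_le_left _ _).trans (min_le_right _ _)
  have hη4 : η ≤ l * (2 / 3) * Real.exp (-K) := min_le_right _ _
  have hgap : ∀ t ∈ SS, lam * α ≤ lam * t ∨ lam * t ≤ lam * α' := by
    intro t ht
    rcases SS_gap k ht with h | h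
    · exact Or.inl (mul_le_mul_of_nonneg_left h hlam.le)
    · exact Or.inr (mul_le_mul_of_nonneg_left h hlam.le)
  refine ⟨η, hη1, hη2, ?_, ?_⟩
  · intro t ht
    rcases hgap t ht with h | h
    · rw [abs_sub_comm]; exact le_trans (by linarith) (le_abs_self _)
    · exact le_trans (by linarith) (le_abs_self _)
  intro E hE
  obtain ⟨hE1, hE2⟩ := hE
  set D := lam * α - 3 * η / 2 with hD
  let g : ℝ → ℝ := (Icc α β).indicator fun t => 1 / (lam * t - D)
  have hgm : Measurable g := Measurable.indicator (by fun_prop) measurableSet_Icc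
  have hgi : Integrable g PP := by
    refine Integrable.of_bound hgm.aestronglyMeasurable (1 / (3 * η / 2)) (ae_of_all _ fun t => ?_)
    by_cases ht : t ∈ Icc α β
    · have h1 : lam * α ≤ lam * t := mul_le_mul_of_nonneg_left ht.1 hlam.le
      simp only [g, indicator_of_mem ht]
      rw [Real.norm_eq_abs, abs_of_pos (one_div_pos.2 (by linarith))]
      exact one_div_le_one_div_of_le (by positivity) (by linarith)
    · simp only [g, indicator_of_notMem ht, norm_zero]; positivity
  have hfi : Integrable (fun t => 1 / (E - lam * t)) PP := by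
    refine Integrable.of_bound (Measurable.aestronglyMeasurable (by fun_prop)) (1 / (η / 2)) ?_
    filter_upwards [ae_SS] with t ht
    rw [Real.norm_eq_abs, abs_div, abs_one]
    refine one_div_le_one_div_of_le (by positivity) ?_
    rcases hgap t ht with h | h
    · rw [abs_sub_comm]; exact le_trans (by linarith) (le_abs_self _)
    · exact le_trans (by linarith) (le_abs_self _)
  have h1 : ∫ t, 1 / (E - lam * t) ∂PP ≤ ∫ t, (4 / γ - g t) ∂PP := by
    refine integral_mono_ae hfi ((integrable_const _).sub hgi) ?_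
    filter_upwards [ae_SS] with t ht
    have h4 : 0 < 4 / γ := by positivity
    by_cases htJ : t ∈ Icc α β
    · have h2 : lam * α ≤ lam * t := mul_le_mul_of_nonneg_left htJ.1 hlam.le
      simp only [g, indicator_of_mem htJ]
      have h3 : 1 / (lam * t - D) ≤ 1 / (lam * t - E) :=
        one_div_le_one_div_of_le (by linarith) (by linarith)
      have h5 : 1 / (E - lam * t) = -(1 / (lam * t - E)) := by
        rw [← neg_sub (lam * t) E, one_div_neg_eq_neg_one_div]
      linarith
    · simp only [g, indicator_of_notMem htJ, sub_zero]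
      rcases hgap t ht with h | h
      · have : 1 / (E - lam * t) < 0 := one_div_neg.2 (by linarith)
        linarith
      · rw [show 4 / γ = 1 / (γ / 4) by field_simp]
        exact one_div_le_one_div_of_le (by positivity) (by linarith)
  rw [integral_sub (integrable_const _) hgi] at h1
  simp only [integral_const, probReal_univ, smul_eq_mul, one_mul] at h1
  have h2 : ∫ t, g t ∂PP = C * ∫ t in α..β, 1 / (lam * t - D) := by
    rw [PP, ProbabilityTheory.cond, integral_smul_measure, setIntegral_indicator measurableSet_Icc,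
      inter_eq_right.2 (Icc_subset_SS k), integral_Icc_eq_integral_Ioc,
      intervalIntegral.integral_of_le hαβ.le, smul_eq_mul]
  have hposJ : ∀ t ∈ uIcc α β, 0 < lam * t - D := by
    intro t ht
    rw [uIcc_of_le hαβ.le] at ht
    have : lam * α ≤ lam * t := mul_le_mul_of_nonneg_left ht.1 hlam.le
    linarith
  have h3 : ∫ t in α..β, 1 / (lam * t - D) =
      Real.log (lam * β - D) / lam - Real.log (lam * α - D) / lam := by
    refine intervalIntegral.integral_eq_sub_of_hasDerivAt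
      (f := fun t => Real.log (lam * t - D) / lam) (fun t ht => ?_) ?_
    · have h4 : HasDerivAt (fun t => lam * t - D) lam t := by
        simpa using ((hasDerivAt_id t).const_mul lam).sub_const D
      have h5 := (h4.log (hposJ t ht).ne').div_const lam
      have h6 : lam / (lam * t - D) / lam = 1 / (lam * t - D) := by
        rw [div_div, mul_comm (lam * t - D) lam, ← div_div, div_self hlam.ne']
      rwa [h6] at h5
    · refine ContinuousOn.intervalIntegrable ?_
      exact continuousOn_const.div (by fun_prop) fun t ht => (hposJ t ht).ne'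
  have h6 : K ≤ Real.log (lam * β - D) - Real.log (lam * α - D) := by
    have e1 : lam * α - D = 3 * η / 2 := by rw [hD]; ring
    have e2 : lam * β - D = l + 3 * η / 2 := by rw [hD, hl]; ring
    rw [e1, e2, ← Real.log_div (by positivity) (by positivity),
      Real.le_log_iff_exp_le (by positivity), le_div_iff₀ (by positivity)]
    have e3 : Real.exp K * (l * (2 / 3) * Real.exp (-K)) = l * (2 / 3) := by
      rw [Real.exp_neg]; field_simp
    have e4 := mul_le_mul_of_nonneg_left hη4 (Real.exp_pos K).le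
    nlinarith
  have h7 : 4 / γ + 1 ≤ ∫ t, g t ∂PP := by
    rw [h2, h3, ← sub_div]
    have : 4 / γ + 1 = C * (K / lam) := by rw [hK]; field_simp
    rw [this]
    exact mul_le_mul_of_nonneg_left (div_le_div_of_nonneg_right h6 hlam.le) hC0.le
  linarith

theorem exists_edge {a b : ℝ} (ha : 0 < a) (hab : a < b) :
    ∃ lam0 : ℝ, 0 < lam0 ∧ ∀ lam, lam0 ≤ lam →
      ∃ k : ℕ, a < lam / (2 * (k : ℝ) + 3) ∧ lam / (2 * (k : ℝ) + 3) ≤ b := by
  have hb : 0 < b := ha.trans hab
  have hd : 0 < 1 / a - 1 / b := sub_pos.2 (one_div_lt_one_div_of_lt ha hab)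
  refine ⟨max (3 * b) (2 / (1 / a - 1 / b)), lt_max_of_lt_left (by positivity), ?_⟩
  intro lam hlam
  have h1 : 3 * b ≤ lam := (le_max_left _ _).trans hlam
  have h2 : 2 / (1 / a - 1 / b) ≤ lam := (le_max_right _ _).trans hlam
  rw [div_le_iff₀ hd] at h2
  have h3 : 3 ≤ lam / b := by rw [le_div_iff₀ hb]; exact h1
  refine ⟨⌈(lam / b - 3) / 2⌉₊, ?_, ?_⟩
  · have h4 := Nat.ceil_lt_add_one (a := (lam / b - 3) / 2) (by linarith)
    rw [lt_div_iff₀ (by positivity), ← lt_div_iff₀' ha]
    have : lam * (1 / a - 1 / b) = lam / a - lam / b := by ring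
    linarith
  · have h4 := Nat.le_ceil ((lam / b - 3) / 2)
    rw [div_le_iff₀ (by positivity), ← div_le_iff₀' hb]
    linarith

theorem good_pos {a b : ℝ} (hb : 0 < b) (hab : a < b) :
    ∃ lam0 : ℝ, 0 < lam0 ∧ ∀ lam, lam0 ≤ lam → ∃ c δ : ℝ, 0 < δ ∧
      (∀ t ∈ SS, δ ≤ |c - lam * t|) ∧ a ≤ c - δ / 2 ∧ c + δ / 2 ≤ b ∧
      ∀ E ∈ Icc (c - δ / 2) (c + δ / 2), 1 / 2 < |∫ t, 1 / (E - lam * t) ∂PP| := by
  obtain ⟨lam0, h0, h⟩ := exists_edge (a := max a (b / 2)) (b := b)
    (lt_max_of_lt_right (by positivity)) (max_lt hab (by linarith))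
  refine ⟨lam0, h0, fun lam hlam => ?_⟩
  obtain ⟨k, hk1, hk2⟩ := h lam hlam
  have hk3 : a < lam / (2 * (k : ℝ) + 3) := (le_max_left _ _).trans_lt hk1
  obtain ⟨η, h1, h2, h3, h4⟩ := edge lam (h0.trans_le hlam) k
    ((lam / (2 * (k : ℝ) + 3) - a) / 2) (by linarith)
  refine ⟨lam / (2 * (k : ℝ) + 3) - η, η, h1, h3, by linarith, by linarith, fun E hE => ?_⟩
  have := h4 E hE
  exact lt_of_lt_of_le (by linarith) (neg_le_abs _)

theorem good {a b : ℝ} (hab : a < b) :
    ∃ lam0 : ℝ, 0 < lam0 ∧ ∀ lam, lam0 ≤ lam → ∃ c δ : ℝ, 0 < δ ∧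
      (∀ t ∈ SS, δ ≤ |c - lam * t|) ∧ a ≤ c - δ / 2 ∧ c + δ / 2 ≤ b ∧
      ∀ E ∈ Icc (c - δ / 2) (c + δ / 2), 1 / 2 < |∫ t, 1 / (E - lam * t) ∂PP| := by
  rcases lt_or_ge 0 b with hb | hb
  · exact good_pos hb hab
  obtain ⟨lam0, h0, h⟩ := good_pos (a := -b) (b := -a) (by linarith) (by linarith)
  refine ⟨lam0, h0, fun lam hlam => ?_⟩
  obtain ⟨c, δ, h1, h2, h3, h4, h5⟩ := h lam hlam
  refine ⟨-c, δ, h1, fun t ht => ?_, by linarith, by linarith, fun E hE => ?_⟩
  · have := h2 (-t) (neg_mem_SS.2 ht)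
    rwa [← abs_neg, show -(c - lam * -t) = -c - lam * t by ring] at this
  · have h6 := h5 (-E) ⟨by linarith [hE.2], by linarith [hE.1]⟩
    rw [← integral_neg_PP, ← abs_neg, ← integral_neg] at h6
    convert h6 using 4 with t
    rw [← one_div_neg_eq_neg_one_div]
    congr 1; ring

end Pool.Agent.Lib.MP_be97d8_mp
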