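import Mathlib
import Pool.Agent.Lib.MP_be97d8_mp.Dist

namespace Pool.Agent.Lib.MP_be97d8_mp

open Filter Topology Set MeasureTheory ProbabilityTheory Metric
open scoped NNReal ENNReal

/-- the gap edges -/
def Ed : Set ℝ := insert 0 (range fun k : ℕ => 1 / (2 * (k : ℝ) + 3))

/-- an enumeration of the rationals -/
noncomputable def qq (n : ℕ) : ℝ := (((Denumerable.eqv ℚ).symm n : ℚ) : ℝ)

/-- a closed nowhere dense set with positive density at the gap edges -/
def KK : Set ℝ := (⋃ n : ℕ, ball (qq n) ((1 / 2) ^ n / 8 * infDist (qq n) Ed))ᶜ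

theorem isClosed_KK : IsClosed KK := (isOpen_iUnion fun _ => isOpen_ball).isClosed_compl

theorem ball_small {n : ℕ} {p x : ℝ} (hp : p ∈ Ed)
    (hx : x ∈ ball (qq n) ((1 / 2) ^ n / 8 * infDist (qq n) Ed)) :
    7 * infDist (qq n) Ed < 8 * dist x p := by
  have h1 : infDist (qq n) Ed ≤ dist (qq n) p := infDist_le_dist_of_mem hp
  have h2 := dist_triangle_left (qq n) p x
  have h3 : ((1 : ℝ) / 2) ^ n ≤ 1 := pow_le_one₀ (by norm_num) (by norm_num)
  have h4 := mul_le_mul_of_nonneg_right h3 (infDist_nonneg (x := qq n) (s := Ed))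
  rw [mem_ball] at hx
  linarith

theorem zero_mem_KK : (0 : ℝ) ∈ KK := by
  intro h
  obtain ⟨n, hn⟩ := mem_iUnion.1 h
  have := ball_small (mem_insert 0 _) hn
  rw [dist_self] at this
  linarith [infDist_nonneg (x := qq n) (s := Ed)]

theorem KK_fat {p η : ℝ} (hp : p ∈ Ed) (hη : 0 < η) :
    volume (Icc (p - 3 * η / 2) (p - η / 2) ∩ KK) ≠ 0 := by
  intro h0
  have h1 : ∀ n : ℕ, volume (Icc (p - 3 * η / 2) (p - η / 2) ∩
      ball (qq n) ((1 / 2) ^ n / 8 * infDist (qq n) Ed)) ≤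
      ENNReal.ofReal (3 * η / 7 * (1 / 2) ^ n) := by
    intro n
    rcases (Icc (p - 3 * η / 2) (p - η / 2) ∩
      ball (qq n) ((1 / 2) ^ n / 8 * infDist (qq n) Ed)).eq_empty_or_nonempty with h | ⟨x, h2, h3⟩
    · rw [h, measure_empty]; exact zero_le
    refine (measure_mono inter_subset_right).trans ?_
    rw [Real.volume_ball]
    refine ENNReal.ofReal_le_ofReal ?_
    have h4 := ball_small hp h3
    have h5 : dist x p ≤ 3 * η / 2 := by
      rw [Real.dist_eq, abs_le]; constructor <;> linarith [h2.1, h2.2]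
    have h6 : (0 : ℝ) < (1 / 2) ^ n := by positivity
    nlinarith
  have h2 : volume (Icc (p - 3 * η / 2) (p - η / 2)) ≤ ENNReal.ofReal (3 * η / 7 * 2) := by
    refine (measure_le_inter_add_sdiff volume _ KK).trans ?_
    rw [h0, zero_add, KK, Set.sdiff_compl, inter_iUnion,
      show 3 * η / 7 * 2 = ∑' n : ℕ, 3 * η / 7 * (1 / 2) ^ n by
        rw [tsum_mul_left, tsum_geometric_two],
      ENNReal.ofReal_tsum_of_nonneg (fun n => by positivity) (summable_geometric_two.mul_left _)]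
    exact (measure_iUnion_le _).trans (ENNReal.tsum_le_tsum h1)
  rw [Real.volume_Icc, ENNReal.ofReal_le_ofReal_iff (by positivity)] at h2
  linarith

theorem KK_dense {x y : ℝ} (h : x < y) : ∃ t ∈ Ioo x y, t ∉ KK := by
  have ht : Tendsto (fun k : ℕ => 1 / (2 * (k : ℝ) + 3)) atTop (𝓝 0) :=
    tendsto_const_nhds.div_atTop (tendsto_atTop_add_const_right _ _
      (tendsto_natCast_atTop_atTop.const_mul_atTop two_pos))
  have hc : IsClosed Ed := ht.isCompact_insert_range.isClosed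
  have hd : Dense Edᶜ := Set.Countable.dense_compl ℝ ((countable_range _).insert 0)
  obtain ⟨r, hr⟩ := Rat.denseRange_cast.exists_mem_open (isOpen_Ioo.inter hc.isOpen_compl)
    (hd.inter_open_nonempty _ isOpen_Ioo (nonempty_Ioo.2 h))
  have hq : qq (Denumerable.eqv ℚ r) = r := by simp [qq]
  refine ⟨r, hr.1, not_not.2 (mem_iUnion.2 ⟨Denumerable.eqv ℚ r, ?_⟩)⟩
  rw [hq]
  have := (hc.notMem_iff_infDist_pos ⟨0, mem_insert 0 _⟩).1 hr.2
  exact mem_ball_self (by positivity)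

/-- density of the second part of the law -/
noncomputable def rho (t : ℝ) : ℝ := (Icc (-1 : ℝ) 1).indicator (fun t => infDist |t| KK ^ 4) t

theorem rho_meas : Measurable rho :=
  Measurable.indicator (((continuous_infDist_pt KK).comp continuous_abs).pow 4).measurable
    measurableSet_Icc

theorem infDist_KK_le {t : ℝ} (ht : t ∈ Icc (-1 : ℝ) 1) : infDist |t| KK ≤ 1 := by
  refine (infDist_le_dist_of_mem zero_mem_KK).trans ?_
  rw [dist_zero_right, Real.norm_eq_abs, abs_abs]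
  exact abs_le.2 ht

theorem rho_nonneg (t : ℝ) : 0 ≤ rho t := indicator_nonneg (fun _ _ => by positivity) t

/-- second part of the law -/
noncomputable def QQ : Measure ℝ := volume.withDensity fun t => ENNReal.ofReal (rho t)

theorem QQ_le : QQ ≤ volume.restrict (Icc (-1) 1) := by
  rw [← withDensity_indicator_one measurableSet_Icc]
  refine withDensity_mono (Eventually.of_forall fun t => ?_)
  by_cases ht : t ∈ Icc (-1 : ℝ) 1
  · simp only [rho, indicator_of_mem ht, Pi.one_apply, ENNReal.ofReal_le_one]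
    exact pow_le_one₀ infDist_nonneg (infDist_KK_le ht)
  · simp [rho, indicator_of_notMem ht]

instance : IsFiniteMeasure QQ := isFiniteMeasure_of_le _ QQ_le

theorem QQ_integral (g : ℝ → ℝ) : ∫ t, g t ∂QQ = ∫ t, rho t * g t := by
  rw [QQ, integral_withDensity_eq_integral_toReal_smul rho_meas.ennreal_ofReal (by simp)]
  simp only [ENNReal.toReal_ofReal (rho_nonneg _), smul_eq_mul]

theorem QQ_int {g : ℝ → ℝ} (hg : Measurable g) {C : ℝ}
    (h : ∀ t ∈ Icc (-1 : ℝ) 1, |g t| * infDist |t| KK ^ 4 ≤ C) :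
    Integrable g QQ ∧ |∫ t, g t ∂QQ| ≤ 2 * C := by
  have h1 : Integrable ((Icc (-1 : ℝ) 1).indicator fun _ => C) :=
    (integrable_indicator_iff measurableSet_Icc).2 (integrableOn_const (by simp))
  have h2 : ∀ t, ‖rho t * g t‖ ≤ (Icc (-1 : ℝ) 1).indicator (fun _ => C) t := by
    intro t
    by_cases ht : t ∈ Icc (-1 : ℝ) 1
    · rw [Real.norm_eq_abs, abs_mul, abs_of_nonneg (rho_nonneg t), mul_comm]
      simpa only [rho, indicator_of_mem ht] using h t ht
    · simp [rho, indicator_of_notMem ht]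
  constructor
  · rw [QQ, integrable_withDensity_iff rho_meas.ennreal_ofReal (by simp)]
    simp only [ENNReal.toReal_ofReal (rho_nonneg _), mul_comm (g _)]
    exact h1.mono' (rho_meas.mul hg).aestronglyMeasurable (Eventually.of_forall h2)
  · rw [QQ_integral]
    refine (norm_integral_le_of_norm_le h1 (Eventually.of_forall h2)).trans (le_of_eq ?_)
    rw [integral_indicator_const _ measurableSet_Icc]
    norm_num

instance : NeZero (PP + QQ) := ⟨fun h => by
  have := congrArg (fun μ : Measure ℝ => μ univ) h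
  simp at this⟩

/-- the single-site law with full support -/
noncomputable def PF : Measure ℝ := ((PP + QQ) univ)⁻¹ • (PP + QQ)

instance : IsProbabilityMeasure PF := isProbabilityMeasureSMul

theorem mass_bounds : 1 ≤ (PP + QQ) univ ∧ (PP + QQ) univ ≤ 3 := by
  rw [Measure.add_apply, measure_univ]
  refine ⟨le_self_add, ?_⟩
  have h : QQ univ ≤ 2 := (QQ_le univ).trans (by rw [Measure.restrict_apply_univ, Real.volume_Icc]; norm_num)
  exact (add_le_add_right h 1).trans (by norm_num)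

theorem PF_le : PF ≤ PP + QQ := by
  intro A
  rw [PF, Measure.smul_apply, smul_eq_mul]
  exact mul_le_of_le_one_left' (ENNReal.inv_le_one.2 mass_bounds.1)

theorem PF_support0 : PF (Icc (-1) 1)ᶜ = 0 := by
  refine nonpos_iff_eq_zero.1 ((PF_le _).trans ?_)
  rw [Measure.add_apply, PP_support, zero_add]
  refine (QQ_le _).trans ?_
  rw [Measure.restrict_apply measurableSet_Icc.compl, compl_inter_self, measure_empty]

theorem PF_density : ∃ C : ℝ≥0, PF ≤ C • (volume : Measure ℝ) := by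
  obtain ⟨C, hC⟩ := PP_density
  refine ⟨C + 1, PF_le.trans ?_⟩
  rw [add_smul, one_smul]
  exact add_le_add hC (QQ_le.trans Measure.restrict_le_self)

theorem PF_integral {g : ℝ → ℝ} (h1 : Integrable g PP) (h2 : Integrable g QQ) :
    Integrable g PF ∧ ∃ z : ℝ, 1 / 3 ≤ z ∧ ∫ t, g t ∂PF = z * (∫ t, g t ∂PP + ∫ t, g t ∂QQ) := by
  refine ⟨(h1.add_measure h2).mono_measure PF_le, (((PP + QQ) univ)⁻¹).toReal, ?_, ?_⟩
  · have h := ENNReal.toReal_mono (ENNReal.inv_ne_top.2 (NeZero.ne _))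
      (ENNReal.inv_le_inv.2 mass_bounds.2)
    simpa using h
  · rw [PF, integral_smul_measure, integral_add_measure h1 h2, smul_eq_mul]

theorem ae_PF : ∀ᵐ t ∂PF, |t| ≤ 1 := by
  have h : ∀ᵐ t ∂PF, t ∈ Icc (-1 : ℝ) 1 := PF_support0
  exact h.mono fun t ht => abs_le.2 ht

theorem PF_mean : ∫ t, t ∂PF = 0 := by
  have h1 : Integrable (fun t : ℝ => t) PP := Integrable.of_bound measurable_id.aestronglyMeasurable
    1 (ae_SS.mono fun t ht => SS_abs ht)
  have h2 := (QQ_int (g := fun t => t) measurable_id (C := 1) fun t ht =>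
    mul_le_one₀ (abs_le.2 ht) (by positivity) (pow_le_one₀ infDist_nonneg (infDist_KK_le ht))).1
  obtain ⟨-, z, -, h3⟩ := PF_integral h1 h2
  have h4 := integral_neg_eq_self (fun t => rho t * t) volume
  have h5 : ∀ t, rho (-t) = rho t := fun t => by
    have : -t ∈ Icc (-1 : ℝ) 1 ↔ t ∈ Icc (-1 : ℝ) 1 := by
      simp only [mem_Icc, ← abs_le, abs_neg]
    simp only [rho, indicator, this, abs_neg]
  simp only [h5, mul_neg, integral_neg] at h4
  rw [h3, PP_mean, QQ_integral (fun t => t), zero_add, show ∫ t, rho t * t = 0 by linarith, mul_zero]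

theorem PF_var : 0 < variance id PF ∧ variance id PF ≤ 1 := by
  have h : variance id PF = ∫ t, t ^ 2 ∂PF :=
    variance_of_integral_eq_zero measurable_id.aemeasurable PF_mean
  have hb : ∀ᵐ t ∂PF, t ^ 2 ≤ 1 := ae_PF.mono fun t ht => (sq_le_one_iff_abs_le_one t).2 ht
  have hi : Integrable (fun t : ℝ => t ^ 2) PF :=
    Integrable.of_bound (Measurable.aestronglyMeasurable (by fun_prop)) 1
      (hb.mono fun t ht => by rwa [Real.norm_eq_abs, abs_of_nonneg (sq_nonneg t)])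
  rw [h]
  constructor
  · refine (integral_nonneg (μ := PF) (f := fun t : ℝ => t ^ 2) fun t => sq_nonneg t).lt_of_ne
      fun h1 => ?_
    have h2 := (integral_eq_zero_iff_of_nonneg (fun t => sq_nonneg t) hi).1 h1.symm
    obtain ⟨C, hC⟩ := PF_density
    have h3 : ∀ᵐ t ∂PF, t ≠ 0 :=
      (Measure.absolutelyContinuous_of_le_smul (c := C) hC).ae_le (Measure.ae_ne volume 0)
    obtain ⟨t, ht1, ht2⟩ := (h2.and h3).exists
    exact ht2 (by simpa using ht1)
  · simpa using integral_mono_ae hi (integrable_const _) hb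

theorem PF_pos {x y : ℝ} (hx : -1 ≤ x) (hxy : x < y) (hy : y ≤ 1) : 0 < PF (Ioo x y) := by
  have ho : IsOpen (Ioo x y ∩ abs ⁻¹' KKᶜ) :=
    isOpen_Ioo.inter (isClosed_KK.isOpen_compl.preimage continuous_abs)
  have hne : (Ioo x y ∩ abs ⁻¹' KKᶜ).Nonempty := by
    rcases lt_or_ge 0 y with h | h
    · obtain ⟨t, h1, h2⟩ := KK_dense (max_lt hxy h)
      exact ⟨t, ⟨(le_max_left _ _).trans_lt h1.1, h1.2⟩, by
        rwa [mem_preimage, abs_of_pos ((le_max_right _ _).trans_lt h1.1)]⟩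
    · obtain ⟨t, h1, h2⟩ := KK_dense (neg_lt_neg hxy)
      exact ⟨-t, ⟨by linarith [h1.2], by linarith [h1.1]⟩, by
        rwa [mem_preimage, abs_neg, abs_of_pos (by linarith [h1.1])]⟩
  have h1 : QQ (Ioo x y) ≠ 0 := by
    rw [QQ, Ne, withDensity_apply_eq_zero rho_meas.ennreal_ofReal]
    refine fun h0 => (ho.measure_pos volume hne).ne' (measure_mono_null ?_ h0)
    rintro t ⟨h2, h3⟩
    refine ⟨(ENNReal.ofReal_pos.2 ?_).ne', h2⟩
    rw [rho, indicator_of_mem (show t ∈ Icc (-1 : ℝ) 1 from ⟨hx.trans h2.1.le, h2.2.le.trans hy⟩)]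
    exact pow_pos ((isClosed_KK.notMem_iff_infDist_pos ⟨0, zero_mem_KK⟩).1 h3) 4
  rw [PF, Measure.smul_apply, smul_eq_mul, Measure.add_apply _ _ (Ioo x y)]
  exact ENNReal.mul_pos (ENNReal.inv_ne_zero.2 (measure_ne_top _ _)) (by simp [h1])

theorem PF_support : PF.support = Icc (-1) 1 := by
  refine (Measure.support_subset_of_isClosed isClosed_Icc PF_support0).antisymm fun t ht => ?_
  rw [Measure.mem_support_iff_forall]
  intro U hU
  obtain ⟨l, u, h1, h2⟩ := mem_nhds_iff_exists_Ioo_subset.1 hU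
  refine (PF_pos (le_max_right l (-1)) ?_ (min_le_right u 1)).trans_le
    (measure_mono ((Ioo_subset_Ioo (le_max_left _ _) (min_le_left _ _)).trans h2))
  exact max_lt (lt_min (h1.1.trans h1.2) (h1.1.trans_le ht.2))
    (lt_min (ht.1.trans_lt h1.2) (by norm_num))

theorem PF_good {lam x δ : ℝ} (hlam : 1 ≤ lam) (hK : |x / lam| ∈ KK) (hδ : 0 < δ)
    (hgap : ∀ t ∈ SS, δ ≤ |x - lam * t|) (h4 : 4 < |∫ t, 1 / (x - lam * t) ∂PP|) :
    Integrable (fun t => (1 / (x - lam * t)) ^ 4) PF ∧ 1 / 2 < |∫ t, 1 / (x - lam * t) ∂PF| := by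
  have h0 : 0 < lam := by linarith
  have h1 : ∀ t, |1 / (x - lam * t)| * infDist |t| KK ≤ 1 := by
    intro t
    have h2 : infDist |t| KK ≤ |x - lam * t| := by
      refine (infDist_le_dist_of_mem hK).trans ((abs_abs_sub_abs_le_abs_sub _ _).trans ?_)
      rw [show x - lam * t = lam * (x / lam - t) by field_simp, abs_mul, abs_of_pos h0,
        abs_sub_comm]
      exact le_mul_of_one_le_left (abs_nonneg _) hlam
    refine (mul_le_mul_of_nonneg_left h2 (abs_nonneg _)).trans ?_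
    rw [← abs_mul, one_div]
    by_cases h3 : x - lam * t = 0
    · simp [h3]
    · simp [inv_mul_cancel₀ h3]
  have hb : ∀ᵐ t ∂PP, |1 / (x - lam * t)| ≤ 1 / δ := ae_SS.mono fun t ht => by
    rw [abs_div, abs_one]; exact one_div_le_one_div_of_le hδ (hgap t ht)
  constructor
  · refine (PF_integral (Integrable.of_bound (Measurable.aestronglyMeasurable (by fun_prop))
      ((1 / δ) ^ 4) (hb.mono fun t ht => ?_)) (QQ_int (by fun_prop) (C := 1) fun t _ => ?_).1).1
    · rw [Real.norm_eq_abs, abs_pow]; exact pow_le_pow_left₀ (abs_nonneg _) ht 4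
    · rw [abs_pow, ← mul_pow]
      exact pow_le_one₀ (mul_nonneg (abs_nonneg _) infDist_nonneg) (h1 t)
  · obtain ⟨h5, h6⟩ := QQ_int (g := fun t => 1 / (x - lam * t)) (by fun_prop) (C := 1) fun t ht => by
      rw [pow_succ', ← mul_assoc]
      exact mul_le_one₀ (h1 t) (pow_nonneg infDist_nonneg 3)
        (pow_le_one₀ infDist_nonneg (infDist_KK_le ht))
    obtain ⟨-, z, h7, h8⟩ := PF_integral (Integrable.of_bound
      (Measurable.aestronglyMeasurable (by fun_prop)) (1 / δ) hb) h5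
    rw [h8, abs_mul, abs_of_pos (by linarith)]
    have h9 := abs_sub (∫ t, 1 / (x - lam * t) ∂PP + ∫ t, 1 / (x - lam * t) ∂QQ)
      (∫ t, 1 / (x - lam * t) ∂QQ)
    rw [add_sub_cancel_right] at h9
    nlinarith

theorem fat_pos {a b : ℝ} (hb : 0 < b) (hab : a < b) :
    ∃ lam0 : ℝ, 0 < lam0 ∧ ∀ lam, lam0 ≤ lam → ∃ G : Set ℝ, MeasurableSet G ∧ volume G ≠ 0 ∧
      G ⊆ Icc a b ∧ ∀ x ∈ G, |x / lam| ∈ KK ∧ (∃ δ, 0 < δ ∧ ∀ t ∈ SS, δ ≤ |x - lam * t|) ∧
        4 < |∫ t, 1 / (x - lam * t) ∂PP| := by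
  obtain ⟨lam0, h0, h⟩ := exists_edge (a := max a (b / 2)) (b := b)
    (lt_max_of_lt_right (by positivity)) (max_lt hab (by linarith))
  refine ⟨lam0, h0, fun lam hlam => ?_⟩
  have hl : 0 < lam := h0.trans_le hlam
  obtain ⟨k, hk1, hk2⟩ := h lam hlam
  set p : ℝ := 1 / (2 * (k : ℝ) + 3) with hp
  have e1 : lam / (2 * (k : ℝ) + 3) = lam * p := by rw [hp]; ring
  have e2 : 8 * lam / (2 * (k : ℝ) + 3) = 8 * (lam * p) := by rw [hp]; ring
  rw [e1] at hk1 hk2
  obtain ⟨η, h1, h2, h3, h4⟩ := edge (8 * lam) (by positivity) k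
    (lam * p - max a (b / 2)) (by linarith)
  rw [e2] at h3 h4
  refine ⟨(lam⁻¹ * ·) ⁻¹' (Icc (p - 3 * (η / (8 * lam)) / 2) (p - η / (8 * lam) / 2) ∩ KK),
    (measurableSet_Icc.inter isClosed_KK.measurableSet).preimage (by fun_prop), ?_, ?_⟩
  · rw [Real.volume_preimage_mul_left (inv_ne_zero hl.ne')]
    exact mul_ne_zero (ENNReal.ofReal_pos.2 (by positivity)).ne'
      (KK_fat (mem_insert_of_mem _ ⟨k, rfl⟩) (by positivity))
  have hw : ∀ x ∈ (lam⁻¹ * ·) ⁻¹' (Icc (p - 3 * (η / (8 * lam)) / 2) (p - η / (8 * lam) / 2) ∩ KK),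
      lam * p - 3 * η / 16 ≤ x ∧ x ≤ lam * p - η / 16 := by
    rintro x ⟨⟨h5, h6⟩, -⟩
    rw [le_inv_mul_iff₀ hl] at h5
    rw [inv_mul_le_iff₀ hl] at h6
    exact ⟨le_of_eq_of_le (by field_simp; ring) h5, h6.trans (le_of_eq (by field_simp; ring))⟩
  have hm1 := le_max_left a (b / 2)
  have hm2 := le_max_right a (b / 2)
  refine ⟨fun x hx => ⟨by linarith [(hw x hx).1], by linarith [(hw x hx).2]⟩, fun x hx => ?_⟩
  obtain ⟨h5, h6⟩ := hw x hx
  refine ⟨?_, ⟨η / 16, by positivity, fun t ht => ?_⟩, ?_⟩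
  · rw [abs_of_pos (div_pos (by linarith) hl), div_eq_inv_mul]; exact hx.2
  · have h7 := h3 t ht
    rw [le_abs] at h7 ⊢
    rcases h7 with h7 | h7
    · left; linarith
    · right; linarith
  · have h7 := h4 (8 * x) ⟨by linarith, by linarith⟩
    have h8 : ∀ t, 1 / (8 * x - 8 * lam * t) = 1 / 8 * (1 / (x - lam * t)) := fun t => by
      rw [mul_assoc, ← mul_sub, one_div_mul_one_div]
    simp only [h8, integral_const_mul] at h7
    exact lt_of_lt_of_le (by linarith) (neg_le_abs _)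

theorem fat {a b : ℝ} (hab : a < b) :
    ∃ lam0 : ℝ, 0 < lam0 ∧ ∀ lam, lam0 ≤ lam → ∃ G : Set ℝ, MeasurableSet G ∧ volume G ≠ 0 ∧
      G ⊆ Icc a b ∧ ∀ x ∈ G, |x / lam| ∈ KK ∧ (∃ δ, 0 < δ ∧ ∀ t ∈ SS, δ ≤ |x - lam * t|) ∧
        4 < |∫ t, 1 / (x - lam * t) ∂PP| := by
  rcases lt_or_ge 0 b with hb | hb
  · exact fat_pos hb hab
  obtain ⟨lam0, h0, h⟩ := fat_pos (a := -b) (b := -a) (by linarith) (by linarith)
  refine ⟨lam0, h0, fun lam hlam => ?_⟩
  obtain ⟨G, h1, h2, h3, h4⟩ := h lam hlam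
  refine ⟨Neg.neg ⁻¹' G, h1.preimage measurable_neg, ?_,
    fun x hx => ⟨by linarith [(h3 hx).2], by linarith [(h3 hx).1]⟩, fun x hx => ?_⟩
  · rwa [(Measure.measurePreserving_neg (volume : Measure ℝ)).measure_preimage
      h1.nullMeasurableSet]
  obtain ⟨h5, ⟨δ, h6, h7⟩, h8⟩ := h4 (-x) hx
  refine ⟨by rwa [neg_div, abs_neg] at h5, ⟨δ, h6, fun t ht => ?_⟩, ?_⟩
  · have := h7 (-t) (neg_mem_SS.2 ht)
    rwa [← abs_neg, show -(-x - lam * -t) = x - lam * t by ring] at this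
  · rw [← integral_neg_PP, ← abs_neg, ← integral_neg] at h8
    convert h8 using 4 with t
    rw [← one_div_neg_eq_neg_one_div]
    congr 1; ring

end Pool.Agent.Lib.MP_be97d8_mp
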