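import Mathlib
import Pool.Agent.Lib.MP_be97d8_mp.Defs
import Pool.Agent.Lib.MP_be97d8_mp.Det

namespace Pool.Agent.Lib.MP_be97d8_mp

open Filter Topology Set MeasureTheory ProbabilityTheory

variable {s : ℕ → ℕ}

theorem ae_summable {Ω : Type*} [MeasurableSpace Ω] {μ : Measure Ω} (F : ℕ → Ω → ℝ)
    (hF : ∀ n, Integrable (F n) μ) (hs : Summable fun n => ∫ ω, ‖F n ω‖ ∂μ) :
    ∀ᵐ ω ∂μ, Summable fun n => ‖F n ω‖ := by
  refine summable_norm_of_tsum_eLpNorm_ne_top (p := 1) le_rfl (fun n => (hF n).1) ?_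
  have : ∀ n, eLpNorm (F n) 1 μ = ENNReal.ofReal (∫ ω, ‖F n ω‖ ∂μ) := by
    intro n
    rw [eLpNorm_one_eq_lintegral_enorm, ofReal_integral_norm_eq_lintegral_enorm (hF n)]
  simp only [this]
  rw [← ENNReal.ofReal_tsum_of_nonneg (fun n => integral_nonneg fun _ => norm_nonneg _) hs]
  exact ENNReal.ofReal_ne_top

/-- centred empirical mean over a shell -/
noncomputable def GG (P : Measure ℝ) (φ : ℝ → ℝ) (n : ℕ) (v : Vtx s → ℝ) : ℝ :=
  (1 / (s n : ℝ)) * ∑ i : Fin (s n), φ (v ⟨n, i⟩) - ∫ t, φ t ∂P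

theorem GG_bound (hs : ∀ n, 0 < s n) (P : Measure ℝ) [IsProbabilityMeasure P] (φ : ℝ → ℝ)
    (hφ : Measurable φ) (B : ℝ) (hB : 0 < B) (hb : ∀ᵐ t ∂P, |φ t| ≤ B) (n : ℕ) :
    Integrable (GG (s := s) P φ n) (Measure.infinitePi fun _ : Vtx s => P) ∧
      ∫ v, |GG (s := s) P φ n v| ∂(Measure.infinitePi fun _ : Vtx s => P) ≤
        B / Real.sqrt (s n) := by
  set μ := Measure.infinitePi fun _ : Vtx s => P with hμ
  have hpos : (0 : ℝ) < s n := by exact_mod_cast hs n
  have hφ2 : MemLp φ 2 P := MemLp.of_bound hφ.aestronglyMeasurable B hb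
  have hmp : ∀ x : Vtx s, MeasurePreserving (fun v : Vtx s → ℝ => v x) μ P :=
    fun x => measurePreserving_eval_infinitePi (fun _ : Vtx s => P) x
  let X : Fin (s n) → (Vtx s → ℝ) → ℝ := fun i v => φ (v ⟨n, i⟩)
  have hX : ∀ i, MemLp (X i) 2 μ := fun i => hφ2.comp_measurePreserving (hmp ⟨n, i⟩)
  have hind : iIndepFun (fun (x : Vtx s) (v : Vtx s → ℝ) => φ (v x)) μ :=
    iIndepFun_infinitePi (X := fun _ => φ) (fun _ => hφ)
  have hvar : Var[∑ i, X i; μ] = ∑ i, Var[X i; μ] := by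
    refine IndepFun.variance_sum (fun i _ => hX i) ?_
    intro i _ j _ hij
    exact hind.indepFun (i := ⟨n, i⟩) (j := ⟨n, j⟩) (fun h => hij (sigma_mk_injective (β := fun n => Fin (s n)) h))
  have hvarφ : Var[φ; P] ≤ B ^ 2 := by
    refine (variance_le_expectation_sq hφ.aestronglyMeasurable).trans ?_
    have h1 : ∫ t, (φ ^ 2) t ∂P ≤ ∫ _, B ^ 2 ∂P := by
      refine integral_mono_ae hφ2.integrable_sq (integrable_const _) ?_
      filter_upwards [hb] with t ht
      simp only [Pi.pow_apply]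
      rw [← sq_abs]
      exact pow_le_pow_left₀ (abs_nonneg _) ht 2
    simpa using h1
  have hvar2 : Var[∑ i, X i; μ] ≤ s n * B ^ 2 := by
    rw [hvar]
    have : ∀ i, Var[X i; μ] = Var[φ; P] := fun i =>
      (hmp ⟨n, i⟩).variance_fun_comp hφ.aemeasurable
    simp only [this, Finset.sum_const, Finset.card_univ, Fintype.card_fin, nsmul_eq_mul]
    exact mul_le_mul_of_nonneg_left hvarφ hpos.le
  have hY : MemLp (∑ i, X i) 2 μ := memLp_finsetSum' _ fun i _ => hX i
  have hmean : ∫ v, (∑ i, X i) v ∂μ = s n * ∫ t, φ t ∂P := by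
    simp only [Finset.sum_apply]
    rw [integral_finsetSum _ fun i _ => (hX i).integrable (by norm_num)]
    have : ∀ i, ∫ v, X i v ∂μ = ∫ t, φ t ∂P := fun i =>
      (hmp ⟨n, i⟩).hasLaw.integral_comp hφ.aestronglyMeasurable
    simp [this]
  have hG : GG (s := s) P φ n = fun v => (1 / (s n : ℝ)) * ((∑ i, X i) v - ∫ v, (∑ i, X i) v ∂μ) := by
    funext v
    rw [hmean, GG, Finset.sum_apply]
    simp only [X]
    field_simp
  have hG2 : MemLp (GG (s := s) P φ n) 2 μ := by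
    rw [hG]
    exact (hY.sub (memLp_const _)).const_mul _
  have hint : Integrable (GG (s := s) P φ n) μ := hG2.integrable (by norm_num)
  have hsq : ∫ v, (GG (s := s) P φ n v) ^ 2 ∂μ ≤ B ^ 2 / s n := by
    rw [hG]
    simp only [mul_pow]
    rw [integral_const_mul, ← variance_eq_integral hY.aestronglyMeasurable.aemeasurable]
    calc (1 / (s n : ℝ)) ^ 2 * Var[∑ i, X i; μ] ≤ (1 / (s n : ℝ)) ^ 2 * (s n * B ^ 2) :=
          mul_le_mul_of_nonneg_left hvar2 (by positivity)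
      _ = B ^ 2 / s n := by field_simp
  refine ⟨hint, ?_⟩
  set θ := B / Real.sqrt (s n) with hθ
  have hθ0 : 0 < θ := by positivity
  have hθ2 : θ ^ 2 = B ^ 2 / s n := by rw [hθ, div_pow, Real.sq_sqrt hpos.le]
  have h1 : ∫ v, |GG (s := s) P φ n v| ∂μ ≤
      ∫ v, (θ / 2 + (1 / (2 * θ)) * (GG (s := s) P φ n v) ^ 2) ∂μ := by
    refine integral_mono hint.abs ((integrable_const _).add (hG2.integrable_sq.const_mul _)) ?_
    intro v
    simp only
    rw [← sq_abs]
    generalize |GG (s := s) P φ n v| = y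
    have : θ / 2 + 1 / (2 * θ) * y ^ 2 - y = (y - θ) ^ 2 / (2 * θ) := by field_simp; ring
    have h2 : 0 ≤ (y - θ) ^ 2 / (2 * θ) := by positivity
    linarith
  rw [integral_add (integrable_const _) (hG2.integrable_sq.const_mul _), integral_const_mul] at h1
  simp only [integral_const, probReal_univ, smul_eq_mul, one_mul] at h1
  have h3 : 1 / (2 * θ) * ∫ v, (GG (s := s) P φ n v) ^ 2 ∂μ ≤ 1 / (2 * θ) * θ ^ 2 := by
    rw [hθ2]; exact mul_le_mul_of_nonneg_left hsq (by positivity)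
  have h4 : 1 / (2 * θ) * θ ^ 2 = θ / 2 := by field_simp
  linarith

theorem expansion {D e δ : ℝ} (hδ : 0 < δ) (hD : δ ≤ |D|) (he : |e| ≤ δ / 2) (J : ℕ) :
    |1 / (D + e) - ∑ j ∈ Finset.range J, (-e) ^ j * (1 / D) ^ (j + 1)| ≤
      2 / δ * (1 / 2) ^ J := by
  have hD0 : D ≠ 0 := by intro h; rw [h, abs_zero] at hD; linarith
  have hDe : δ / 2 ≤ |D + e| := by
    have := abs_sub (D + e) e
    rw [add_sub_cancel_right] at this
    linarith
  have hDe0 : D + e ≠ 0 := by intro h; rw [h, abs_zero] at hDe; linarith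
  have h1 : 1 / (D + e) - ∑ j ∈ Finset.range J, (-e) ^ j * (1 / D) ^ (j + 1) =
      (-e / D) ^ J * (1 / (D + e)) := by
    induction J with
    | zero => simp
    | succ J ih =>
      rw [Finset.sum_range_succ, ← sub_sub, ih, pow_succ, pow_succ, div_pow, div_pow, one_pow]
      field_simp
      ring
  rw [h1, abs_mul, abs_pow, mul_comm]
  refine mul_le_mul ?_ (pow_le_pow_left₀ (abs_nonneg _) ?_ J) (by positivity) (by positivity)
  · rw [abs_div, abs_one, div_le_div_iff₀ (abs_pos.2 hDe0) hδ]; linarith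
  · rw [abs_div, abs_neg, div_le_div_iff₀ (abs_pos.2 hD0) two_pos]; linarith

theorem ae_close (hs : ∀ n, 0 < s n) (hsum : Summable fun n => 1 / Real.sqrt (s n))
    (P : Measure ℝ) [IsProbabilityMeasure P] (lam c δ : ℝ) (hδ : 0 < δ)
    (hgap : ∀ᵐ t ∂P, δ ≤ |c - lam * t|) :
    ∀ᵐ v ∂(Measure.infinitePi fun _ : Vtx s => P), (∀ x, δ ≤ |c - lam * v x|) ∧
      ∃ ε : ℕ → ℝ, Summable ε ∧ ∀ n, ∀ E ∈ Icc (c - δ / 2) (c + δ / 2),
        |aa lam v n E - ∫ t, 1 / (E - lam * t) ∂P| ≤ ε n := by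
  set μ := Measure.infinitePi fun _ : Vtx s => P with hμ
  have hmp : ∀ x : Vtx s, MeasurePreserving (fun v : Vtx s → ℝ => v x) μ P :=
    fun x => measurePreserving_eval_infinitePi (fun _ : Vtx s => P) x
  have h1 : ∀ᵐ v ∂μ, ∀ x, δ ≤ |c - lam * v x| :=
    ae_all_iff.2 fun x => (hmp x).quasiMeasurePreserving.ae hgap
  let φ : ℕ → ℝ → ℝ := fun j t => (1 / (c - lam * t)) ^ (j + 1)
  have hφm : ∀ j, Measurable (φ j) := fun j => by fun_prop
  have hφb : ∀ j, ∀ᵐ t ∂P, |φ j t| ≤ (1 / δ) ^ (j + 1) := by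
    intro j
    filter_upwards [hgap] with t ht
    simp only [φ, abs_pow]
    refine pow_le_pow_left₀ (abs_nonneg _) ?_ _
    rw [abs_div, abs_one]
    exact one_div_le_one_div_of_le hδ ht
  have hφi : ∀ j, Integrable (φ j) P := fun j =>
    Integrable.of_bound (hφm j).aestronglyMeasurable _ (hφb j)
  have hG := fun j n => GG_bound hs P (φ j) (hφm j) _ (by positivity) (hφb j) n
  let F : ℕ → (Vtx s → ℝ) → ℝ := fun n v =>
    ∑ j ∈ Finset.range n, (δ / 2) ^ j * |GG (s := s) P (φ j) n v|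
  have hF0 : ∀ n v, 0 ≤ F n v := fun n v => Finset.sum_nonneg fun j _ => by positivity
  have hFi : ∀ n, Integrable (F n) μ := fun n =>
    integrable_finsetSum _ fun j _ => (hG j n).1.abs.const_mul _
  have hFb : ∀ n, ∫ v, ‖F n v‖ ∂μ ≤ 2 / δ * (1 / Real.sqrt (s n)) := by
    intro n
    simp only [Real.norm_eq_abs, abs_of_nonneg (hF0 n _)]
    simp only [F]
    rw [integral_finsetSum _ fun j _ => (hG j n).1.abs.const_mul _]
    simp only [integral_const_mul]
    calc ∑ j ∈ Finset.range n, (δ / 2) ^ j * ∫ v, |GG (s := s) P (φ j) n v| ∂μ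
        ≤ ∑ j ∈ Finset.range n, (1 / 2) ^ j * (1 / δ * (1 / Real.sqrt (s n))) := by
          refine Finset.sum_le_sum fun j _ => ?_
          refine (mul_le_mul_of_nonneg_left (hG j n).2 (by positivity)).trans (le_of_eq ?_)
          rw [pow_succ, div_pow, div_pow, div_pow, one_pow]
          field_simp
      _ ≤ 2 * (1 / δ * (1 / Real.sqrt (s n))) := by
          rw [← Finset.sum_mul]
          exact mul_le_mul_of_nonneg_right (sum_geometric_two_le n) (by positivity)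
      _ = 2 / δ * (1 / Real.sqrt (s n)) := by ring
  have h2 := ae_summable F hFi ((hsum.mul_left _).of_nonneg_of_le
    (fun n => integral_nonneg fun _ => norm_nonneg _) hFb)
  filter_upwards [h1, h2] with v hv hFv
  refine ⟨hv, fun n => ‖F n v‖ + 2 * (2 / δ * (1 / 2) ^ n),
    hFv.add ((summable_geometric_two.mul_left _).mul_left _), ?_⟩
  intro n E hE
  have hpos : (0 : ℝ) < s n := by exact_mod_cast hs n
  set e := E - c with he
  have he2 : |e| ≤ δ / 2 := by rw [abs_le]; constructor <;> linarith [hE.1, hE.2]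
  set R := 2 / δ * (1 / 2 : ℝ) ^ n with hR
  let rem : ℝ → ℝ := fun t => 1 / (E - lam * t) - ∑ j ∈ Finset.range n, (-e) ^ j * φ j t
  have hrem : ∀ t, δ ≤ |c - lam * t| → |rem t| ≤ R := by
    intro t ht
    have := expansion hδ ht he2 n
    rwa [show c - lam * t + e = E - lam * t by rw [he]; ring] at this
  have hremi : Integrable rem P := by
    refine Integrable.of_bound (Measurable.aestronglyMeasurable (by fun_prop)) R ?_
    filter_upwards [hgap] with t ht using hrem t ht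
  have hsi : Integrable (fun t => ∑ j ∈ Finset.range n, (-e) ^ j * φ j t) P :=
    integrable_finsetSum _ fun j _ => (hφi j).const_mul _
  have e1 : ∫ t, 1 / (E - lam * t) ∂P =
      ∫ t, rem t ∂P + ∑ j ∈ Finset.range n, (-e) ^ j * ∫ t, φ j t ∂P := by
    have : (fun t => 1 / (E - lam * t)) =
        fun t => rem t + ∑ j ∈ Finset.range n, (-e) ^ j * φ j t := by
      funext t; simp only [rem]; ring
    rw [this, integral_add hremi hsi, integral_finsetSum _ fun j _ => (hφi j).const_mul _]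
    simp only [integral_const_mul]
  have e2 : |∫ t, rem t ∂P| ≤ R := by
    have := norm_integral_le_of_norm_le_const (μ := P) (f := rem) (C := R) (by
      filter_upwards [hgap] with t ht using hrem t ht)
    simpa using this
  have e3 : aa lam v n E = (1 / (s n : ℝ)) * ∑ i : Fin (s n), rem (v ⟨n, i⟩) +
      ∑ j ∈ Finset.range n, (-e) ^ j * ((1 / (s n : ℝ)) * ∑ i : Fin (s n), φ j (v ⟨n, i⟩)) := by
    have : ∑ j ∈ Finset.range n, (-e) ^ j * ((1 / (s n : ℝ)) * ∑ i : Fin (s n), φ j (v ⟨n, i⟩)) =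
        (1 / (s n : ℝ)) * ∑ i : Fin (s n), ∑ j ∈ Finset.range n, (-e) ^ j * φ j (v ⟨n, i⟩) := by
      rw [Finset.sum_comm, Finset.mul_sum]
      refine Finset.sum_congr rfl fun j _ => ?_
      rw [← Finset.mul_sum]; ring
    rw [this, ← mul_add, ← Finset.sum_add_distrib, aa]
    congr 1
    refine Finset.sum_congr rfl fun i _ => ?_
    simp only [rem]; ring
  have e4 : |(1 / (s n : ℝ)) * ∑ i : Fin (s n), rem (v ⟨n, i⟩)| ≤ R := by
    rw [abs_mul, abs_of_pos (by positivity : (0 : ℝ) < 1 / (s n : ℝ)), one_div,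
      inv_mul_le_iff₀ hpos]
    refine (Finset.abs_sum_le_sum_abs _ _).trans ?_
    refine (Finset.sum_le_sum fun i _ => hrem _ (hv ⟨n, i⟩)).trans ?_
    simp
  have e5 : |∑ j ∈ Finset.range n, (-e) ^ j * GG (s := s) P (φ j) n v| ≤ ‖F n v‖ := by
    rw [Real.norm_eq_abs, abs_of_nonneg (hF0 n v)]
    refine (Finset.abs_sum_le_sum_abs _ _).trans (Finset.sum_le_sum fun j _ => ?_)
    rw [abs_mul, abs_pow, abs_neg]
    exact mul_le_mul_of_nonneg_right (pow_le_pow_left₀ (abs_nonneg _) he2 j) (abs_nonneg _)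
  have e6 : aa lam v n E - ∫ t, 1 / (E - lam * t) ∂P =
      ∑ j ∈ Finset.range n, (-e) ^ j * GG (s := s) P (φ j) n v +
        ((1 / (s n : ℝ)) * ∑ i : Fin (s n), rem (v ⟨n, i⟩) - ∫ t, rem t ∂P) := by
    rw [e1, e3]
    simp only [GG, mul_sub, Finset.sum_sub_distrib]
    ring
  rw [e6]
  have e7 := abs_sub ((1 / (s n : ℝ)) * ∑ i : Fin (s n), rem (v ⟨n, i⟩)) (∫ t, rem t ∂P)
  refine (abs_add_le _ _).trans ?_
  linarith

theorem ae_not_purePoint {E : Type*} [NormedAddCommGroup E] [InnerProductSpace ℂ E]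
    [CompleteSpace E] (e : HilbertBasis (Vtx s) ℂ E) (hs : ∀ n, 0 < s n) (hsum : Summable fun n => 1 / Real.sqrt (s n))
    (P : Measure ℝ) [IsProbabilityMeasure P] (hP : ∀ᵐ t ∂P, |t| ≤ 1) (lam c δ a b : ℝ)
    (hδ : 0 < δ) (hgap : ∀ᵐ t ∂P, δ ≤ |c - lam * t|) (ha : a ≤ c - δ / 2) (hb : c + δ / 2 ≤ b)
    (hα : ∀ x ∈ Icc (c - δ / 2) (c + δ / 2), 1 / 2 < |∫ t, 1 / (x - lam * t) ∂P|) :
    ∀ᵐ v ∂(Measure.infinitePi fun _ : Vtx s => P),
      ∃ H : E →L[ℂ] E, IsAnderson s e lam v H ∧ IsSelfAdjoint H ∧ ¬ PurePointIn H a b := by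
  have h1 : ∀ᵐ v ∂(Measure.infinitePi fun _ : Vtx s => P), ∀ x, |v x| ≤ 1 :=
    ae_all_iff.2 fun x =>
      (measurePreserving_eval_infinitePi (fun _ : Vtx s => P) x).quasiMeasurePreserving.ae hP
  filter_upwards [h1, ae_close hs hsum P lam c δ hδ hgap] with v hv ⟨hv2, ε, hε, hb2⟩
  obtain ⟨H, hH⟩ := exists_anderson hs lam v hv
  refine transport e hH (det hs hH (by linarith) ha hb ?_ _ hα ε hε hb2)
  intro x hx
  have h3 := hv2 x
  have h4 : |c - lam * v x| ≤ δ / 2 := by rw [abs_le]; constructor <;> linarith [hx.1, hx.2]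
  linarith

end Pool.Agent.Lib.MP_be97d8_mp
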