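import Mathlib

namespace Pool.Agent.Lib.MP_be97d8_mp

open Filter Topology Set MeasureTheory Metric
open scoped ENNReal Real

/-- Cayley map from the unit disc to the upper half plane -/
noncomputable def cay (w : ℂ) : ℂ := Complex.I * (1 + w) / (1 - w)

/-- average of Cauchy kernels, complex argument -/
noncomputable def ac {m : ℕ} (p : Fin m → ℝ) (z : ℂ) : ℂ := (1 / (m : ℂ)) * ∑ i, 1 / (z - p i)

/-- average of Cauchy kernels, real argument -/
noncomputable def ar {m : ℕ} (p : Fin m → ℝ) (E : ℝ) : ℝ := (1 / (m : ℝ)) * ∑ i, 1 / (E - p i)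

theorem ac_ofReal {m : ℕ} (p : Fin m → ℝ) (E : ℝ) : ac p E = (ar p E : ℂ) := by
  simp only [ac, ar]; push_cast; rfl

theorem cay_im (w : ℂ) : (cay w).im = (1 - Complex.normSq w) / Complex.normSq (1 - w) := by
  rw [cay, Complex.div_im, ← sub_div]
  congr 1
  simp [Complex.normSq_apply]
  ring

theorem cay_im_pos {w : ℂ} (hw : ‖w‖ < 1) : 0 < (cay w).im := by
  rw [cay_im]
  refine div_pos ?_ (Complex.normSq_pos.2 ?_)
  · rw [Complex.normSq_eq_norm_sq]; nlinarith [norm_nonneg w]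
  · intro h
    rw [← sub_eq_zero.1 h] at hw
    simp at hw

theorem ac_im {m : ℕ} (p : Fin m → ℝ) (z : ℂ) :
    (ac p z).im = -((1 / (m : ℝ)) * ∑ i, z.im / Complex.normSq (z - p i)) := by
  have h : (1 / (m : ℂ)) = ((1 / (m : ℝ) : ℝ) : ℂ) := by push_cast; rfl
  rw [ac, h, Complex.im_ofReal_mul, Complex.im_sum, ← mul_neg, ← Finset.sum_neg_distrib]
  congr 1
  refine Finset.sum_congr rfl fun i _ => ?_
  rw [one_div, Complex.inv_im]
  simp [neg_div]

theorem sub_ne_of_im {z : ℂ} (hz : 0 < z.im) (t : ℝ) : z - t ≠ 0 := by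
  intro h
  have := congrArg Complex.im h
  simp at this
  linarith

theorem ac_im_neg {m : ℕ} (hm : 0 < m) (p : Fin m → ℝ) {z : ℂ} (hz : 0 < z.im) :
    (ac p z).im < 0 := by
  have : Nonempty (Fin m) := ⟨⟨0, hm⟩⟩
  rw [ac_im, neg_lt_zero]
  refine mul_pos (by positivity) (Finset.sum_pos (fun i _ => ?_) Finset.univ_nonempty)
  exact div_pos hz (Complex.normSq_pos.2 (sub_ne_of_im hz _))

/-- the function whose logarithm is averaged over circles -/
noncomputable def gg {m : ℕ} (p : Fin m → ℝ) (w : ℂ) : ℂ := 1 - Complex.I / ac p (cay w)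

theorem gg_norm {m : ℕ} (hm : 0 < m) (p : Fin m → ℝ) {w : ℂ} (hw : ‖w‖ < 1) : 1 ≤ ‖gg p w‖ := by
  refine le_trans ?_ (Complex.re_le_norm _)
  have h := ac_im_neg hm p (cay_im_pos hw)
  have h2 : (Complex.I / ac p (cay w)).re = (ac p (cay w)).im / Complex.normSq (ac p (cay w)) := by
    simp [Complex.div_re]
  rw [gg, Complex.sub_re, h2, Complex.one_re]
  have := div_nonpos_of_nonpos_of_nonneg h.le (Complex.normSq_nonneg (ac p (cay w)))
  linarith

theorem gg_analytic {m : ℕ} (p : Fin m → ℝ) {w : ℂ} (h1 : w ≠ 1) (h2 : ∀ i, cay w - p i ≠ 0)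
    (h3 : ac p (cay w) ≠ 0) : AnalyticAt ℂ (gg p) w := by
  have hc : AnalyticAt ℂ cay w :=
    AnalyticAt.div (f := fun w => Complex.I * (1 + w)) (g := fun w => 1 - w) (by fun_prop)
      (by fun_prop) (sub_ne_zero.2 h1.symm)
  have ha : AnalyticAt ℂ (fun w => ac p (cay w)) w := by
    refine analyticAt_const.mul (Finset.analyticAt_fun_sum _ fun i _ => ?_)
    exact AnalyticAt.div (f := fun _ => 1) (g := fun w => cay w - p i) analyticAt_const
      (hc.sub analyticAt_const) (h2 i)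
  exact analyticAt_const.sub (AnalyticAt.div (f := fun _ => Complex.I) analyticAt_const ha h3)

theorem gg_analytic' {m : ℕ} (hm : 0 < m) (p : Fin m → ℝ) {w : ℂ} (hw : ‖w‖ < 1) :
    AnalyticAt ℂ (gg p) w := by
  refine gg_analytic p ?_ (fun i => sub_ne_of_im (cay_im_pos hw) _) ?_
  · rintro rfl; simp at hw
  · intro h
    have := ac_im_neg hm p (cay_im_pos hw)
    rw [h] at this; simp at this

theorem gg_zero {m : ℕ} (hm : 0 < m) (p : Fin m → ℝ) {Λ : ℝ} (hp : ∀ i, |p i| ≤ Λ) :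
    ‖gg p 0‖ ≤ 2 + Λ ^ 2 := by
  have hc : cay 0 = Complex.I := by simp [cay]
  have hpos : (0 : ℝ) < m := by exact_mod_cast hm
  have h1 : 1 / (1 + Λ ^ 2) ≤ ‖ac p Complex.I‖ := by
    refine le_trans ?_ ((neg_le_abs _).trans (Complex.abs_im_le_norm _))
    rw [ac_im, neg_neg, one_div (m : ℝ), le_inv_mul_iff₀ hpos]
    have : ∀ i, 1 / (1 + Λ ^ 2) ≤ Complex.I.im / Complex.normSq (Complex.I - p i) := by
      intro i
      have h2 : Complex.normSq (Complex.I - p i) = 1 + p i ^ 2 := by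
        simp [Complex.normSq_apply]; ring
      rw [h2, Complex.I_im]
      refine one_div_le_one_div_of_le (by positivity) ?_
      have := sq_le_sq' (abs_le.1 (hp i)).1 (abs_le.1 (hp i)).2
      linarith
    have h3 := Finset.sum_le_sum (s := Finset.univ) fun i _ => this i
    simpa using h3
  rw [gg, hc]
  refine (norm_sub_le _ _).trans ?_
  rw [norm_one, norm_div, Complex.norm_I]
  have h4 : 1 / ‖ac p Complex.I‖ ≤ 1 + Λ ^ 2 := by
    have := one_div_le_one_div_of_le (by positivity) h1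
    rwa [one_div_one_div] at this
  linarith

theorem circle_bound {m : ℕ} (hm : 0 < m) (p : Fin m → ℝ) {Λ : ℝ} (hp : ∀ i, |p i| ≤ Λ) {ρ : ℝ}
    (h0 : 0 ≤ ρ) (h1 : ρ < 1) :
    Continuous (fun θ => Real.log ‖gg p (circleMap 0 ρ θ)‖) ∧
    ∫⁻ θ in Ioc 0 (2 * π), ENNReal.ofReal (Real.log ‖gg p (circleMap 0 ρ θ)‖) ≤
      ENNReal.ofReal (2 * π * Real.log (2 + Λ ^ 2)) := by
  have hn : ∀ θ, ‖circleMap 0 ρ θ‖ < 1 := fun θ => by simpa [abs_of_nonneg h0] using h1
  have hcont : Continuous (fun θ => Real.log ‖gg p (circleMap 0 ρ θ)‖) := by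
    refine Continuous.log (Continuous.norm (continuous_iff_continuousAt.2 fun θ => ?_)) fun θ => ?_
    · exact (gg_analytic' hm p (hn θ)).continuousAt.comp (continuous_circleMap 0 ρ).continuousAt
    · exact (lt_of_lt_of_le one_pos (gg_norm hm p (hn θ))).ne'
  refine ⟨hcont, ?_⟩
  have hb : ∀ w ∈ closedBall (0 : ℂ) |ρ|, ‖w‖ < 1 := fun w hw => by
    rw [mem_closedBall_zero_iff, abs_of_nonneg h0] at hw; linarith
  have h2 := AnalyticOnNhd.circleAverage_log_norm_of_ne_zero (g := gg p) (c := 0) (R := ρ)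
    (fun w hw => gg_analytic' hm p (hb w hw)) (fun w hw h => by
      have := gg_norm hm p (hb w hw)
      rw [h] at this; norm_num at this)
  rw [Real.circleAverage_def, intervalIntegral.integral_of_le (by positivity), smul_eq_mul,
    inv_mul_eq_iff_eq_mul₀ (by positivity)] at h2
  rw [← ofReal_integral_eq_lintegral_ofReal (hcont.integrableOn_Ioc)
    (Eventually.of_forall fun θ => Real.log_nonneg (gg_norm hm p (hn θ))), h2]
  refine ENNReal.ofReal_le_ofReal (mul_le_mul_of_nonneg_left ?_ (by positivity))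
  exact Real.log_le_log (lt_of_lt_of_le one_pos (gg_norm hm p (by simp))) (gg_zero hm p hp)

/-- boundary values -/
noncomputable def ell {m : ℕ} (p : Fin m → ℝ) (θ : ℝ) : ℝ≥0∞ :=
  liminf (fun j : ℕ => ENNReal.ofReal (Real.log ‖gg p (circleMap 0 (1 - 1 / ((j : ℝ) + 1)) θ)‖)) atTop

theorem ell_bound {m : ℕ} (hm : 0 < m) (p : Fin m → ℝ) {Λ : ℝ} (hp : ∀ i, |p i| ≤ Λ) :
    Measurable (ell p) ∧
    ∫⁻ θ in Ioc 0 (2 * π), ell p θ ≤ ENNReal.ofReal (2 * π * Real.log (2 + Λ ^ 2)) := by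
  have h : ∀ j : ℕ, _ := fun j => circle_bound hm p hp (ρ := 1 - 1 / ((j : ℝ) + 1))
    (by rw [sub_nonneg, div_le_one (by positivity)]; linarith [Nat.cast_nonneg (α := ℝ) j])
    (by have : 0 < 1 / ((j : ℝ) + 1) := by positivity
        linarith)
  have hmeas : ∀ j : ℕ, Measurable fun θ =>
      ENNReal.ofReal (Real.log ‖gg p (circleMap 0 (1 - 1 / ((j : ℝ) + 1)) θ)‖) :=
    fun j => (h j).1.measurable.ennreal_ofReal
  refine ⟨Measurable.liminf hmeas, (lintegral_liminf_le hmeas).trans ?_⟩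
  exact liminf_le_of_frequently_le' (Eventually.of_forall fun j => (h j).2).frequently

theorem ell_eq {m : ℕ} (p : Fin m → ℝ) {θ E : ℝ} (h1 : circleMap 0 1 θ ≠ 1)
    (h2 : cay (circleMap 0 1 θ) = E) (h3 : ∀ i, E ≠ p i) (h4 : ar p E ≠ 0) :
    ell p θ = ENNReal.ofReal (Real.log (1 + (1 / ar p E) ^ 2) / 2) := by
  have ha : AnalyticAt ℂ (gg p) (circleMap 0 1 θ) := by
    refine gg_analytic p h1 (fun i => ?_) ?_
    · rw [h2]; exact_mod_cast sub_ne_zero.2 (h3 i)
    · rw [h2, ac_ofReal]; exact_mod_cast h4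
  have hn : ‖gg p (circleMap 0 1 θ)‖ = Real.sqrt (1 + (1 / ar p E) ^ 2) := by
    rw [gg, h2, ac_ofReal, Complex.norm_eq_sqrt_sq_add_sq]
    congr 1
    simp [Complex.div_re, Complex.div_im]
  have ht : Tendsto (fun j : ℕ => circleMap 0 (1 - 1 / ((j : ℝ) + 1)) θ) atTop
      (𝓝 (circleMap 0 1 θ)) := by
    have h5 : Tendsto (fun j : ℕ => 1 - 1 / ((j : ℝ) + 1)) atTop (𝓝 1) := by
      simpa using (tendsto_one_div_add_atTop_nhds_zero_nat (𝕜 := ℝ)).const_sub 1
    have h6 : Continuous fun r : ℝ => circleMap 0 r θ := by unfold circleMap; fun_prop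
    exact (h6.tendsto 1).comp h5
  have h7 := ((ha.continuousAt.tendsto.comp ht).norm.log (by rw [hn]; positivity))
  rw [hn, Real.log_sqrt (by positivity)] at h7
  exact (ENNReal.tendsto_ofReal h7).liminf_eq

theorem cay_surj (E : ℝ) : ∃ θ ∈ Ioc 0 (2 * π), circleMap 0 1 θ ≠ 1 ∧ cay (circleMap 0 1 θ) = E := by
  have h1 : (E : ℂ) + Complex.I ≠ 0 := by
    intro h; have := congrArg Complex.im h; simp at this
  have h2 : ((E : ℂ) - Complex.I) / (E + Complex.I) ∈ sphere (0 : ℂ) |1| := by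
    rw [mem_sphere_zero_iff_norm, norm_div, abs_one, div_eq_one_iff_eq (norm_ne_zero_iff.2 h1),
      Complex.norm_eq_sqrt_sq_add_sq, Complex.norm_eq_sqrt_sq_add_sq]
    simp
  rw [← image_circleMap_Ioc] at h2
  obtain ⟨θ, hθ, h3⟩ := h2
  have h4 : ((E : ℂ) - Complex.I) / (E + Complex.I) ≠ 1 := by
    rw [Ne, div_eq_one_iff_eq h1]
    intro h; have := congrArg Complex.im h; norm_num at this
  refine ⟨θ, hθ, h3 ▸ h4, ?_⟩
  rw [h3, cay, div_eq_iff (sub_ne_zero.2 h4.symm)]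
  field_simp
  ring_nf

theorem ae_cay {Q : ℝ → Prop} (h : ∀ᵐ θ ∂(volume.restrict (Ioc 0 (2 * π))), Q θ) :
    ∀ᵐ E : ℝ, ∃ θ, Q θ ∧ circleMap 0 1 θ ≠ 1 ∧ cay (circleMap 0 1 θ) = E := by
  rw [ae_restrict_iff' measurableSet_Ioc, ae_iff] at h
  set S := {θ : ℝ | ¬ (θ ∈ Ioc 0 (2 * π) → Q θ)} ∩ {θ | circleMap 0 1 θ ≠ 1} with hS
  have hd : DifferentiableOn ℝ (fun θ => (cay (circleMap 0 1 θ)).re) S := by
    intro θ hθ
    refine DifferentiableAt.differentiableWithinAt ?_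
    have hc : DifferentiableAt ℝ cay (circleMap 0 1 θ) :=
      (DifferentiableAt.div (𝕜 := ℂ) (c := fun w => Complex.I * (1 + w)) (d := fun w => 1 - w)
        (by fun_prop) (by fun_prop) (sub_ne_zero.2 (Ne.symm hθ.2))).restrictScalars ℝ
    exact Complex.reCLM.differentiableAt.comp θ (hc.comp θ (differentiable_circleMap 0 1 θ))
  have h0 := addHaar_image_eq_zero_of_differentiableOn_of_addHaar_eq_zero volume hd
    (measure_mono_null inter_subset_left h)
  rw [ae_iff]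
  refine measure_mono_null (fun E hE => ?_) h0
  obtain ⟨θ, h1, h2, h3⟩ := cay_surj E
  exact ⟨θ, ⟨fun hq => hE ⟨θ, hq h1, h2, h3⟩, h2⟩, by simp [h3]⟩

theorem herg {s : ℕ → ℕ} (hs : ∀ n, 0 < s n) (p : ∀ k, Fin (s k) → ℝ) {Λ : ℝ}
    (hp : ∀ k i, |p k i| ≤ Λ) :
    ∀ᵐ E : ℝ, (∀ k i, E ≠ p k i) → (∀ k, ar (p k) E ≠ 0) →
      ∃ C : ℝ, ∃ᶠ n in atTop, ∏ k ∈ Finset.range n, (1 + (1 / ar (p k) E) ^ 2) ≤ C ^ n := by
  have h := fun k => ell_bound (hs k) (p k) (hp k)
  set B := ENNReal.ofReal (2 * π * Real.log (2 + Λ ^ 2))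
  let F : ℕ → ℝ → ℝ≥0∞ := fun n θ => ((n : ℝ≥0∞) + 1)⁻¹ * ∑ k ∈ Finset.range n, ell (p k) θ
  have hF : ∀ n, Measurable (F n) := fun n =>
    (Finset.measurable_fun_sum _ fun k _ => (h k).1).const_mul _
  have hFi : ∀ n, ∫⁻ θ in Ioc 0 (2 * π), F n θ ≤ B := by
    intro n
    simp only [F]
    rw [lintegral_const_mul _ (Finset.measurable_fun_sum _ fun k _ => (h k).1),
      lintegral_finsetSum _ fun k _ => (h k).1]
    have h1 : ∑ k ∈ Finset.range n, ∫⁻ θ in Ioc 0 (2 * π), ell (p k) θ ≤ ((n : ℝ≥0∞) + 1) * B := by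
      refine (Finset.sum_le_sum fun k _ => (h k).2).trans ?_
      rw [Finset.sum_const, Finset.card_range, nsmul_eq_mul]
      gcongr
      exact le_self_add
    refine (mul_le_mul_right h1 _).trans ?_
    rw [← mul_assoc, ENNReal.inv_mul_cancel (by simp) (by simp), one_mul]
  have h2 : ∫⁻ θ in Ioc 0 (2 * π), liminf (fun n => F n θ) atTop ≤ B :=
    (lintegral_liminf_le hF).trans
      (liminf_le_of_frequently_le' (Eventually.of_forall hFi).frequently)
  have h3 := ae_lt_top (Measurable.liminf hF) (h2.trans_lt ENNReal.ofReal_lt_top).ne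
  filter_upwards [ae_cay h3] with E ⟨θ, h4, h5, h6⟩ h7 h8
  obtain ⟨c, hc1, hc2⟩ := ENNReal.lt_iff_exists_real_btwn.1 h4 |>.imp fun c hc => hc
  have h9 := frequently_lt_of_liminf_lt (h := hc2.1)
  refine ⟨Real.exp (4 * c), (h9.and_eventually (eventually_ge_atTop 1)).mono fun n hn => ?_⟩
  have hq : ∀ k, 0 ≤ Real.log (1 + (1 / ar (p k) E) ^ 2) / 2 := fun k =>
    div_nonneg (Real.log_nonneg (by nlinarith [sq_nonneg (1 / ar (p k) E)])) two_pos.le
  have h10 := hn.1.le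
  simp only [F, fun k => ell_eq (p k) h5 h6 (h7 k) (h8 k)] at h10
  rw [← ENNReal.ofReal_sum_of_nonneg fun k _ => hq k, ENNReal.inv_mul_le_iff (by simp) (by simp)]
    at h10
  have h11 : ((n : ℝ≥0∞) + 1) = ENNReal.ofReal ((n : ℝ) + 1) := by
    rw [ENNReal.ofReal_add (by positivity) zero_le_one]; simp
  rw [h11, ← ENNReal.ofReal_mul (by positivity),
    ENNReal.ofReal_le_ofReal_iff (by positivity), ← Finset.sum_div,
    ← Real.log_prod fun k _ => by positivity] at h10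
  have hn1 : (1 : ℝ) ≤ n := by exact_mod_cast hn.2
  rw [← Real.exp_nat_mul, ← Real.log_le_iff_le_exp (Finset.prod_pos fun k _ => by positivity)]
  nlinarith [mul_nonneg (sub_nonneg.2 hn1) hc1]

theorem ar_zero_countable {m : ℕ} (hm : 0 < m) (p : Fin m → ℝ) :
    {E : ℝ | (∀ i, E ≠ p i) ∧ ar p E = 0}.Countable := by
  have hanti : ∀ c d : ℝ, (∀ i, p i ∉ Icc c d) → StrictAntiOn (ar p) (Icc c d) := by
    intro c d hv E hE E' hE' hlt
    have hpos : (0 : ℝ) < m := by exact_mod_cast hm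
    simp only [ar]
    refine mul_lt_mul_of_pos_left ?_ (by positivity)
    have : Nonempty (Fin m) := ⟨⟨0, hm⟩⟩
    apply Finset.sum_lt_sum_of_nonempty Finset.univ_nonempty
    intro i _
    have h1 := hv i
    simp only [mem_Icc, not_and_or, not_le] at h1
    rcases h1 with h1 | h1
    · exact one_div_lt_one_div_of_lt (by linarith [hE.1]) (by linarith)
    · exact one_div_lt_one_div_of_neg_of_lt (by linarith [hE'.2]) (by linarith)
  have hc : (⋃ q : ℚ × ℚ, {E ∈ Icc (q.1 : ℝ) q.2 |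
      (∀ i, p i ∉ Icc (q.1 : ℝ) q.2) ∧ ar p E = 0}).Countable := by
    refine countable_iUnion fun q => Set.Subsingleton.countable ?_
    intro x hx y hy
    exact (hanti _ _ hx.2.1).injOn hx.1 hy.1 (hx.2.2.trans hy.2.2.symm)
  refine hc.mono fun E hE => ?_
  have ho : IsOpen (range p)ᶜ := (finite_range p).isClosed.isOpen_compl
  obtain ⟨r, hr, hb⟩ := Metric.isOpen_iff.1 ho E (by rintro ⟨i, hi⟩; exact hE.1 i hi.symm)
  obtain ⟨c, hc1, hc2⟩ := exists_rat_btwn (show E - r < E by linarith)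
  obtain ⟨d, hd1, hd2⟩ := exists_rat_btwn (show E < E + r by linarith)
  refine mem_iUnion.2 ⟨(c, d), ⟨hc2.le, hd1.le⟩, fun i hi => hb ?_ ⟨i, rfl⟩, hE.2⟩
  rw [Real.ball_eq_Ioo]
  exact ⟨hc1.trans_le hi.1, hi.2.trans_lt hd2⟩

end Pool.Agent.Lib.MP_be97d8_mp
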