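import Mathlib
import Pool.Agent.Lib.MP_be97d8_mp.Prob
import Pool.Agent.Lib.MP_be97d8_mp.UHerg
import Pool.Agent.Lib.MP_be97d8_mp.AGen

namespace Pool.Agent.Lib.MP_be97d8_mp

open Filter Topology Set MeasureTheory ProbabilityTheory

variable {s : ℕ → ℕ}

theorem GG_bound2 (hs : ∀ n, 0 < s n) (P : Measure ℝ) [IsProbabilityMeasure P] (φ : ℝ → ℝ)
    (hφ : Measurable φ) (hφ2 : MemLp φ 2 P) (B : ℝ) (hB : 0 < B) (hvarφ : Var[φ; P] ≤ B ^ 2)
    (n : ℕ) :
    Integrable (GG (s := s) P φ n) (Measure.infinitePi fun _ : Vtx s => P) ∧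
      ∫ v, |GG (s := s) P φ n v| ∂(Measure.infinitePi fun _ : Vtx s => P) ≤
        B / Real.sqrt (s n) := by
  set μ := Measure.infinitePi fun _ : Vtx s => P with hμ
  have hpos : (0 : ℝ) < s n := by exact_mod_cast hs n
  have hmp : ∀ x : Vtx s, MeasurePreserving (fun v : Vtx s → ℝ => v x) μ P :=
    fun x => measurePreserving_eval_infinitePi (fun _ : Vtx s => P) x
  let X : Fin (s n) → (Vtx s → ℝ) → ℝ := fun i v => φ (v ⟨n, i⟩)
  have hX : ∀ i, MemLp (X i) 2 μ := fun i => hφ2.comp_measurePreserving (hmp ⟨n, i⟩)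
  have hind : iIndepFun (fun (x : Vtx s) (v : Vtx s → ℝ) => φ (v x)) μ :=
    iIndepFun_infinitePi (X := fun _ => φ) (fun _ => hφ)
  have hvar : Var[∑ i, X i; μ] = ∑ i, Var[X i; μ] := by
    refine IndepFun.variance_sum (fun i _ => hX i) ?_
    intro i _ j _ hij
    exact hind.indepFun (i := ⟨n, i⟩) (j := ⟨n, j⟩) (fun h => hij (sigma_mk_injective (β := fun n => Fin (s n)) h))
  have hvar2 : Var[∑ i, X i; μ] ≤ s n * B ^ 2 := by
    rw [hvar]
    have : ∀ i, Var[X i; μ] = Var[φ; P] := fun i =>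
      (hmp ⟨n, i⟩).variance_fun_comp hφ.aemeasurable
    simp only [this, Finset.sum_const, Finset.card_univ, Fintype.card_fin, nsmul_eq_mul]
    exact mul_le_mul_of_nonneg_left hvarφ hpos.le
  have hY : MemLp (∑ i, X i) 2 μ := memLp_finsetSum' _ fun i _ => hX i
  have hmean : ∫ v, (∑ i, X i) v ∂μ = s n * ∫ t, φ t ∂P := by
    simp only [Finset.sum_apply]
    rw [integral_finsetSum _ fun i _ => (hX i).integrable (by norm_num)]
    have : ∀ i, ∫ v, X i v ∂μ = ∫ t, φ t ∂P := fun i =>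
      (hmp ⟨n, i⟩).hasLaw.integral_comp hφ.aestronglyMeasurable
    simp [this]
  have hG : GG (s := s) P φ n = fun v => (1 / (s n : ℝ)) * ((∑ i, X i) v - ∫ v, (∑ i, X i) v ∂μ) := by
    funext v
    rw [hmean, GG, Finset.sum_apply]
    simp only [X]
    field_simp
  have hG2 : MemLp (GG (s := s) P φ n) 2 μ := by
    rw [hG]
    exact (hY.sub (memLp_const _)).const_mul _
  have hint : Integrable (GG (s := s) P φ n) μ := hG2.integrable (by norm_num)
  have hsq : ∫ v, (GG (s := s) P φ n v) ^ 2 ∂μ ≤ B ^ 2 / s n := by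
    rw [hG]
    simp only [mul_pow]
    rw [integral_const_mul, ← variance_eq_integral hY.aestronglyMeasurable.aemeasurable]
    calc (1 / (s n : ℝ)) ^ 2 * Var[∑ i, X i; μ] ≤ (1 / (s n : ℝ)) ^ 2 * (s n * B ^ 2) :=
          mul_le_mul_of_nonneg_left hvar2 (by positivity)
      _ = B ^ 2 / s n := by field_simp
  refine ⟨hint, ?_⟩
  set θ := B / Real.sqrt (s n) with hθ
  have hθ0 : 0 < θ := by positivity
  have hθ2 : θ ^ 2 = B ^ 2 / s n := by rw [hθ, div_pow, Real.sq_sqrt hpos.le]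
  have h1 : ∫ v, |GG (s := s) P φ n v| ∂μ ≤
      ∫ v, (θ / 2 + (1 / (2 * θ)) * (GG (s := s) P φ n v) ^ 2) ∂μ := by
    refine integral_mono hint.abs ((integrable_const _).add (hG2.integrable_sq.const_mul _)) ?_
    intro v
    simp only
    rw [← sq_abs]
    generalize |GG (s := s) P φ n v| = y
    have : θ / 2 + 1 / (2 * θ) * y ^ 2 - y = (y - θ) ^ 2 / (2 * θ) := by field_simp; ring
    have h2 : 0 ≤ (y - θ) ^ 2 / (2 * θ) := by positivity
    linarith
  rw [integral_add (integrable_const _) (hG2.integrable_sq.const_mul _), integral_const_mul] at h1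
  simp only [integral_const, probReal_univ, smul_eq_mul, one_mul] at h1
  have h3 : 1 / (2 * θ) * ∫ v, (GG (s := s) P φ n v) ^ 2 ∂μ ≤ 1 / (2 * θ) * θ ^ 2 := by
    rw [hθ2]; exact mul_le_mul_of_nonneg_left hsq (by positivity)
  have h4 : 1 / (2 * θ) * θ ^ 2 = θ / 2 := by field_simp
  linarith

theorem ae_GG_summable (hs : ∀ n, 0 < s n) (hsum : Summable fun n => 1 / Real.sqrt (s n))
    (P : Measure ℝ) [IsProbabilityMeasure P] (φ : ℝ → ℝ) (hφ : Measurable φ)
    (hφ2 : MemLp φ 2 P) :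
    ∀ᵐ v ∂(Measure.infinitePi fun _ : Vtx s => P),
      ∑' n, ENNReal.ofReal |GG (s := s) P φ n v| < ⊤ := by
  have h0 := variance_nonneg φ P
  have h := GG_bound2 hs P φ hφ hφ2 (Var[φ; P] + 1) (by linarith) (by nlinarith)
  have h2 := ae_summable (fun n => GG (s := s) P φ n) (fun n => (h n).1)
    ((hsum.mul_left (Var[φ; P] + 1)).of_nonneg_of_le
      (fun n => integral_nonneg fun _ => norm_nonneg _) fun n => by
        rw [mul_one_div]; exact (h n).2)
  exact h2.mono fun v hv => hv.tsum_ofReal_lt_top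

theorem ae_ae_GG (hs : ∀ n, 0 < s n) (hsum : Summable fun n => 1 / Real.sqrt (s n))
    (P : Measure ℝ) [IsProbabilityMeasure P] (φ : ℝ → ℝ → ℝ)
    (hφ : Measurable (Function.uncurry φ)) {G : Set ℝ} (hG : MeasurableSet G)
    (hφ2 : ∀ E ∈ G, MemLp (φ E) 2 P) :
    ∀ᵐ v ∂(Measure.infinitePi fun _ : Vtx s => P), ∀ᵐ E ∂(volume.restrict G),
      Summable fun n => |GG (s := s) P (φ E) n v| := by
  have h1 : ∀ᵐ v ∂(Measure.infinitePi fun _ : Vtx s => P), ∀ᵐ E ∂(volume.restrict G),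
      ∑' n, ENNReal.ofReal |GG (s := s) P (φ E) n v| < ⊤ := by
    rw [Measure.ae_ae_comm]
    · filter_upwards [ae_restrict_mem hG] with E hE
      exact ae_GG_summable hs hsum P (φ E) hφ.of_uncurry_left (hφ2 E hE)
    · refine measurableSet_lt (Measurable.tsum fun n => ?_) measurable_const
      have h2 : Measurable fun E => ∫ t, φ E t ∂P :=
        (hφ.stronglyMeasurable.integral_prod_right).measurable
      have h3 : ∀ i : Fin (s n), Measurable fun z : (Vtx s → ℝ) × ℝ => φ z.2 (z.1 ⟨n, i⟩) :=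
        fun i => hφ.comp (g := Function.uncurry φ) (f := fun z : (Vtx s → ℝ) × ℝ =>
          (z.2, z.1 ⟨n, i⟩)) (by fun_prop)
      exact ((((Finset.measurable_fun_sum _ fun i _ => h3 i).const_mul _).sub
        (h2.comp measurable_snd)).abs).ennreal_ofReal
  filter_upwards [h1] with v hv
  filter_upwards [hv] with E hE
  simpa [ENNReal.toReal_ofReal (abs_nonneg _)] using ENNReal.summable_toReal hE.ne

theorem ae_fat {E : Type*} [NormedAddCommGroup E] [InnerProductSpace ℂ E] [CompleteSpace E]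
    (e : HilbertBasis (Vtx s) ℂ E) (hs : ∀ n, 0 < s n)
    (hsum : Summable fun n => 1 / Real.sqrt (s n)) (P : Measure ℝ) [IsProbabilityMeasure P]
    (hP : ∀ᵐ t ∂P, |t| ≤ 1) {lam a b c d : ℝ} (hac : a < c) (hcd : c ≤ d) (hdb : d < b)
    {G : Set ℝ} (hGm : MeasurableSet G) (hG : volume G ≠ 0) (hGs : G ⊆ Icc c d)
    (h : ∀ x ∈ G, Integrable (fun t => (1 / (x - lam * t)) ^ 4) P ∧
      1 / 2 < |∫ t, 1 / (x - lam * t) ∂P|) :
    ∀ᵐ v ∂(Measure.infinitePi fun _ : Vtx s => P),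
      ∃ H : E →L[ℂ] E, IsAnderson s e lam v H ∧ IsSelfAdjoint H ∧ ¬ PurePointIn H a b := by
  have h1 : ∀ᵐ v ∂(Measure.infinitePi fun _ : Vtx s => P), ∀ x, |v x| ≤ 1 :=
    ae_all_iff.2 fun x =>
      (measurePreserving_eval_infinitePi (fun _ : Vtx s => P) x).quasiMeasurePreserving.ae hP
  have m2 : ∀ x ∈ G, MemLp (fun t => (1 / (x - lam * t)) ^ 2) 2 P := fun x hx => by
    rw [memLp_two_iff_integrable_sq (Measurable.aestronglyMeasurable (by fun_prop))]
    simpa only [← pow_mul] using (h x hx).1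
  have m1 : ∀ x ∈ G, MemLp (fun t => 1 / (x - lam * t)) 2 P := fun x hx => by
    rw [memLp_two_iff_integrable_sq (Measurable.aestronglyMeasurable (by fun_prop))]
    exact (m2 x hx).integrable one_le_two
  have h2 := ae_ae_GG hs hsum P (fun x t => 1 / (x - lam * t)) (by fun_prop) hGm m1
  have h3 := ae_ae_GG hs hsum P (fun x t => (1 / (x - lam * t)) ^ 2) (by fun_prop) hGm m2
  filter_upwards [h1, h2, h3] with v hv h4 h5
  have h6 : ∀ᵐ x : ℝ, ∀ y, x ≠ lam * v y := ae_all_iff.2 fun y => Measure.ae_ne volume _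
  have h7 : ∀ᵐ x : ℝ, ∀ k, x ∉ {x : ℝ | (∀ i : Fin (s k), x ≠ lam * v ⟨k, i⟩) ∧
      ar (fun i : Fin (s k) => lam * v ⟨k, i⟩) x = 0} :=
    ae_all_iff.2 fun k => (ar_zero_countable (hs k) _).ae_notMem volume
  have h8 : ∀ᵐ x ∂(volume.restrict G), (∀ y, x ≠ lam * v y) ∧ (∀ n, aa lam v n x ≠ 0) ∧
      ∃ α B : ℝ, 1 / 2 < |α| ∧ (Summable fun n => |aa lam v n x - α|) ∧
        ∀ n, bb lam v n x ≤ B := by
    filter_upwards [h4, h5, ae_restrict_of_ae h6, ae_restrict_of_ae h7, ae_restrict_mem hGm]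
      with x e4 e5 e6 e7 hx
    refine ⟨e6, fun k hk => e7 k ⟨fun i => e6 _, hk⟩, _,
      ∑' n, |GG (s := s) P (fun t => (1 / (x - lam * t)) ^ 2) n v| +
        ∫ t, (1 / (x - lam * t)) ^ 2 ∂P, (h x hx).2, e4, fun n => ?_⟩
    have e8 := (le_abs_self _).trans (e5.le_tsum n fun m _ => abs_nonneg _)
    rw [← sub_le_iff_le_add]
    exact e8
  rw [ae_restrict_iff' hGm, ae_iff] at h8
  refine fat_not_purePoint e hs hv hac hcd hdb (G := G \ _)
    (by rwa [measure_sdiff_null h8]) (sdiff_subset.trans hGs) fun t ht => ?_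
  exact not_not.1 ht.2 ht.1

end Pool.Agent.Lib.MP_be97d8_mp
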