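import Mathlib
import Pool.Agent.Lib.MP_be97d8_mp.Det
import Pool.Agent.Lib.MP_be97d8_mp.UHerg

namespace Pool.Agent.Lib.MP_be97d8_mp

open Filter Topology Set MeasureTheory
open scoped InnerProductSpace ComplexConjugate

variable {s : ℕ → ℕ}

/-- energies at which no square-summable solution survives -/
def Good (lam : ℝ) (v : Vtx s → ℝ) (E : ℝ) : Prop :=
  (∀ x, E ≠ lam * v x) ∧ (∀ k, aa lam v k E ≠ 0) ∧
  (∃ C : ℝ, ∃ᶠ n in atTop, ∏ k ∈ Finset.range n, (1 + (1 / aa lam v k E) ^ 2) ≤ C ^ n) ∧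
  ∀ᶠ n in atTop, ∃ i : Fin (s n), |E - lam * v ⟨n, i⟩| ≤ lam * (((n : ℝ) + 1) / s n)

theorem shell_eq (hs : ∀ n, 0 < s n) {lam : ℝ} {v : Vtx s → ℝ} {E : ℝ} (ψ : Vtx s → ℂ) (n : ℕ)
    (hE : ∀ x, E ≠ lam * v x) (h : ∀ i, act lam v ψ ⟨n, i⟩ = E * ψ ⟨n, i⟩) :
    uu ψ n = (aa lam v n E : ℂ) * (prev (uu ψ) n + uu ψ (n + 1)) := by
  have hpos : (0 : ℝ) < s n := by exact_mod_cast hs n
  set c : ℝ := 1 / Real.sqrt (s n) with hc
  have hc2 : c * c = 1 / s n := by rw [hc, div_mul_div_comm, Real.mul_self_sqrt hpos.le, one_mul]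
  have hψ : ∀ i, ψ ⟨n, i⟩ = (c : ℂ) * (prev (uu ψ) n + uu ψ (n + 1)) *
      ((1 / (E - lam * v ⟨n, i⟩) : ℝ) : ℂ) := by
    intro i
    have h1 := h i
    have h2 : ((E - lam * v ⟨n, i⟩ : ℝ) : ℂ) ≠ 0 := by exact_mod_cast sub_ne_zero.2 (hE _)
    rw [Complex.ofReal_div 1 (E - _), Complex.ofReal_one, mul_one_div, eq_div_iff h2,
      Complex.ofReal_sub]
    simp only [act, ← hc] at h1
    linear_combination -h1
  have e1 : uu ψ n = c * ∑ i : Fin (s n), ψ ⟨n, i⟩ := rfl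
  rw [e1, Finset.sum_congr rfl fun i _ => hψ i, ← Finset.mul_sum, aa, ← hc2, Complex.ofReal_mul,
    Complex.ofReal_mul, Complex.ofReal_sum]
  ring

theorem uu_decay (hs : ∀ n, 0 < s n) (hsup : ∀ C : ℝ, ∀ᶠ n in atTop, C ^ n ≤ s n) {lam : ℝ}
    {v : Vtx s → ℝ} {E : ℝ}
    (hg : ∀ᶠ n in atTop, ∃ i : Fin (s n), |E - lam * v ⟨n, i⟩| ≤ lam * (((n : ℝ) + 1) / s n))
    (ψ : HS s) (h : ∀ᶠ n in atTop, ∀ i, act lam v ψ ⟨n, i⟩ = E * ψ ⟨n, i⟩) {K : ℝ} (hK : 2 ≤ K) :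
    ∀ᶠ n in atTop, ‖uu (ψ : Vtx s → ℂ) n‖ ≤ (1 / K) ^ n := by
  set u := uu (ψ : Vtx s → ℂ) with hu
  have h1 : ∀ᶠ n : ℕ in atTop, lam * ‖ψ‖ * ((n : ℝ) + 1) ≤ 2 ^ n := by
    have h2 := (tendsto_self_mul_const_pow_of_lt_one (r := 1 / 2) (by norm_num) (by norm_num)).add
      (tendsto_pow_atTop_nhds_zero_of_lt_one (r := (1 / 2 : ℝ)) (by norm_num) (by norm_num))
    have h3 := h2.const_mul (lam * ‖ψ‖)
    rw [add_zero, mul_zero] at h3
    filter_upwards [h3.eventually (ge_mem_nhds one_pos)] with n hn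
    rw [← add_one_mul, ← mul_assoc, one_div, inv_pow, mul_inv_le_iff₀ (by positivity), one_mul] at hn
    exact hn
  have hw : ∀ᶠ n in atTop, ‖prev u n + u (n + 1)‖ ≤ (1 / K) ^ n := by
    filter_upwards [hg, h, h1, hsup ((2 * K) ^ 2)] with n ⟨i, hi⟩ hn h2 h3
    have hpos : (0 : ℝ) < s n := by exact_mod_cast hs n
    have h4 := hn i
    simp only [act, ← hu] at h4
    have h5 : ((1 / Real.sqrt (s n) : ℝ) : ℂ) * (prev u n + u (n + 1)) =
        ((E - lam * v ⟨n, i⟩ : ℝ) : ℂ) * ψ ⟨n, i⟩ := by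
      rw [Complex.ofReal_sub]; linear_combination h4
    have h6 := congrArg norm h5
    rw [norm_mul, norm_mul, Complex.norm_real, Complex.norm_real, Real.norm_eq_abs,
      Real.norm_eq_abs, abs_of_pos (by positivity)] at h6
    have h7 : ‖ψ ⟨n, i⟩‖ ≤ ‖ψ‖ := lp.norm_apply_le_norm (by norm_num) ψ _
    have h8 := mul_le_mul hi h7 (norm_nonneg _) ((abs_nonneg _).trans hi)
    have h9 : (2 * K) ^ n ≤ Real.sqrt (s n) := by
      apply Real.le_sqrt_of_sq_le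
      rwa [← pow_mul, mul_comm n 2, pow_mul]
    have hr : 0 < Real.sqrt (s n) := Real.sqrt_pos.2 hpos
    have h10 : ‖prev u n + u (n + 1)‖ * Real.sqrt (s n) ≤ 2 ^ n := by
      refine le_trans ?_ h2
      rw [← h6] at h8
      have h11 := mul_le_mul_of_nonneg_left h8 hpos.le
      have h12 : (s n : ℝ) = Real.sqrt (s n) * Real.sqrt (s n) := (Real.mul_self_sqrt hpos.le).symm
      calc ‖prev u n + u (n + 1)‖ * Real.sqrt (s n)
          = s n * (1 / Real.sqrt (s n) * ‖prev u n + u (n + 1)‖) := by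
            generalize Real.sqrt (s n) = r at *
            rw [h12]; field_simp
        _ ≤ _ := h11
        _ = _ := by field_simp
    have h13 := (mul_le_mul_of_nonneg_left h9 (norm_nonneg _)).trans h10
    rw [mul_pow, mul_left_comm, mul_le_iff_le_one_right (by positivity)] at h13
    rw [one_div, inv_pow, ← one_div, le_div_iff₀ (by positivity)]
    exact h13
  obtain ⟨N, hN⟩ := eventually_atTop.1 hw
  have hK0 : 0 < 1 / K := by positivity
  have hK1 : 1 / K ≤ 1 / 2 := one_div_le_one_div_of_le two_pos hK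
  have hstep : ∀ n, N ≤ n → ‖u n‖ - (1 / K) ^ n ≤ ‖u (n + 2)‖ - (1 / K) ^ (n + 2) := by
    intro n hn
    have h2 := hN (n + 1) (by omega)
    have h3 : ‖u n‖ ≤ ‖prev u (n + 1) + u (n + 1 + 1)‖ + ‖u (n + 2)‖ := by
      simpa [prev] using norm_sub_le (u n + u (n + 2)) (u (n + 2))
    have h4 : 0 < (1 / K) ^ n := by positivity
    rw [pow_succ] at h2
    rw [pow_add]
    generalize (1 / K) = κ at *
    nlinarith [mul_pos h4 hK0, mul_le_mul_of_nonneg_left hK1 (mul_pos h4 hK0).le,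
      mul_le_mul_of_nonneg_left hK1 h4.le]
  filter_upwards [eventually_ge_atTop N] with n hn
  have h2 : ∀ j, ‖u n‖ - (1 / K) ^ n ≤ ‖u (2 * j + n)‖ := by
    have h3 : ∀ j, ‖u n‖ - (1 / K) ^ n ≤ ‖u (2 * j + n)‖ - (1 / K) ^ (2 * j + n) := by
      intro j
      induction j with
      | zero => simp
      | succ j ih =>
        rw [show 2 * (j + 1) + n = 2 * j + n + 2 by ring]
        exact ih.trans (hstep _ (by omega))
    exact fun j => (h3 j).trans (sub_le_self _ (by positivity))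
  have h3 : Tendsto (fun j => ‖u (2 * j + n)‖) atTop (𝓝 0) := by
    have h4 : Tendsto (fun j : ℕ => 2 * j + n) atTop atTop :=
      tendsto_atTop_mono (fun j => by simp only [id]; omega) tendsto_id
    simpa using ((uu_tendsto hs ψ).comp h4).norm
  linarith [ge_of_tendsto' h3 h2]

theorem Good.zero (hs : ∀ n, 0 < s n) (hsup : ∀ C : ℝ, ∀ᶠ n in atTop, C ^ n ≤ s n) {lam : ℝ}
    {v : Vtx s → ℝ} {E : ℝ} (hg : Good lam v E) (x0 : Vtx s) (ψ : HS s)
    (h : ∀ x, x ≠ x0 → act lam v ψ x = E * ψ x) (hlow : ∀ x : Vtx s, x.1 < x0.1 → ψ x = 0) :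
    ψ x0 = 0 ∧ act lam v ψ x0 = 0 := by
  obtain ⟨h1, h2, ⟨C, h3⟩, h4⟩ := hg
  obtain ⟨n0, i0⟩ := x0
  set u := uu (ψ : Vtx s → ℂ) with hu
  have heq : ∀ n, n0 < n → ∀ i, act lam v ψ ⟨n, i⟩ = E * ψ ⟨n, i⟩ := fun n hn i =>
    h _ fun hx => hn.ne' (congrArg Sigma.fst hx)
  let q : ℕ → ℝ := fun k => 1 + (1 / aa lam v k E) ^ 2
  have hq : ∀ k, 1 ≤ q k := fun k => le_add_of_nonneg_right (sq_nonneg _)
  let N : ℕ → ℝ := fun k => ‖u k‖ ^ 2 + ‖u (k + 1)‖ ^ 2
  have hN0 : ∀ k, 0 ≤ N k := fun k => by positivity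
  have hstep : ∀ k, n0 ≤ k → N k ≤ 2 * q (k + 1) * N (k + 1) := by
    intro k hk
    have e := shell_eq hs ψ (k + 1) h1 (heq _ (by omega))
    have ha : (aa lam v (k + 1) E : ℂ) ≠ 0 := by exact_mod_cast h2 _
    have e2 : u k = ((1 / aa lam v (k + 1) E : ℝ) : ℂ) * u (k + 1) - u (k + 1 + 1) := by
      simp only [prev, ← hu] at e
      push_cast
      field_simp
      linear_combination -e
    have e3 : ‖u k‖ ≤ |1 / aa lam v (k + 1) E| * ‖u (k + 1)‖ + ‖u (k + 1 + 1)‖ := by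
      rw [e2]
      refine (norm_sub_le _ _).trans (le_of_eq ?_)
      rw [norm_mul, Complex.norm_real, Real.norm_eq_abs]
    have e4 := pow_le_pow_left₀ (norm_nonneg _) e3 2
    simp only [N, q]
    rw [← sq_abs (1 / aa lam v (k + 1) E)]
    generalize |1 / aa lam v (k + 1) E| = g at *
    generalize ‖u (k + 1)‖ = A at *
    generalize ‖u (k + 1 + 1)‖ = B at *
    nlinarith [sq_nonneg (A - g * B), sq_nonneg (g * A), sq_nonneg (g * B), sq_nonneg B]
  have hprod : ∀ m, n0 ≤ m → N n0 ≤ 2 ^ (m + 1) * (∏ k ∈ Finset.range (m + 1), q k) * N m := by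
    intro m hm
    induction m, hm using Nat.le_induction with
    | base =>
      refine le_mul_of_one_le_left (hN0 _) (one_le_mul_of_one_le_of_one_le ?_ ?_)
      · exact one_le_pow₀ one_le_two
      · exact Finset.one_le_prod fun k _ => hq k
    | succ m hm ih =>
      refine ih.trans ?_
      have hp : 0 ≤ 2 ^ (m + 1) * ∏ k ∈ Finset.range (m + 1), q k :=
        mul_nonneg (by positivity) (Finset.prod_nonneg fun k _ => zero_le_one.trans (hq k))
      refine (mul_le_mul_of_nonneg_left (hstep m hm) hp).trans (le_of_eq ?_)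
      rw [Finset.prod_range_succ _ (m + 1)]
      ring
  set K : ℝ := 2 + 4 * |C| with hK
  have hK2 : 2 ≤ K := by rw [hK]; linarith [abs_nonneg C]
  obtain ⟨N1, hN1⟩ := eventually_atTop.1 (uu_decay hs hsup h4 ψ
    ((eventually_gt_atTop n0).mono heq) hK2)
  have hfreq : ∃ᶠ n in atTop, N n0 ≤ 2 * K ^ 2 * (1 / 2) ^ n := by
    refine (h3.and_eventually (eventually_gt_atTop (max n0 N1))).mono fun n hn => ?_
    obtain ⟨m, rfl⟩ : ∃ m, n = m + 1 := ⟨n - 1, by omega⟩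
    have hm0 : n0 ≤ m := by omega
    have hK0 : 0 < K := by linarith
    have e1 : N m ≤ 2 * K ^ 2 * ((1 / K) ^ 2) ^ (m + 1) := by
      have e2 := pow_le_pow_left₀ (norm_nonneg _) (hN1 m (by omega)) 2
      have e3 := pow_le_pow_left₀ (norm_nonneg _) ((hN1 (m + 1) (by omega)).trans
        (pow_le_pow_of_le_one (by positivity)
          ((div_le_one hK0).2 (by linarith)) (Nat.le_succ m))) 2
      have e4 : 2 * K ^ 2 * ((1 / K) ^ 2) ^ (m + 1) = 2 * ((1 / K) ^ m) ^ 2 := by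
        rw [pow_succ _ m, ← pow_mul, mul_comm 2 m, pow_mul]; field_simp
      simp only [N]; linarith
    have e5 : ∏ k ∈ Finset.range (m + 1), q k ≤ |C| ^ (m + 1) :=
      hn.1.trans ((le_abs_self _).trans (abs_pow C _).le)
    have e6 : 2 * |C| * (1 / K) ^ 2 ≤ 1 / 2 := by
      rw [div_pow, one_pow, mul_one_div, div_le_div_iff₀ (by positivity) two_pos]
      nlinarith [abs_nonneg C]
    calc N n0 ≤ 2 ^ (m + 1) * (∏ k ∈ Finset.range (m + 1), q k) * N m := hprod m hm0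
      _ ≤ 2 ^ (m + 1) * |C| ^ (m + 1) * (2 * K ^ 2 * ((1 / K) ^ 2) ^ (m + 1)) := by gcongr
      _ = 2 * K ^ 2 * (2 * |C| * (1 / K) ^ 2) ^ (m + 1) := by rw [mul_pow, mul_pow]; ring
      _ ≤ _ := by gcongr
  have hlim : Tendsto (fun n : ℕ => 2 * K ^ 2 * (1 / 2 : ℝ) ^ n) atTop (𝓝 0) := by
    simpa using (tendsto_pow_atTop_nhds_zero_of_lt_one (r := (1 / 2 : ℝ)) (by norm_num)
      (by norm_num)).const_mul (2 * K ^ 2)
  have hz : N n0 ≤ 0 := ge_of_tendsto_of_frequently hlim hfreq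
  have hu0 : u n0 = 0 := by
    have : ‖u n0‖ ^ 2 ≤ 0 := le_trans (le_add_of_nonneg_right (sq_nonneg _)) hz
    simpa using this
  have hu1 : u (n0 + 1) = 0 := by
    have : ‖u (n0 + 1)‖ ^ 2 ≤ 0 := le_trans (le_add_of_nonneg_left (sq_nonneg _)) hz
    simpa using this
  have hprev : prev u n0 = 0 := by
    cases n0 with
    | zero => rfl
    | succ n =>
      simp only [prev, hu, uu]
      rw [Finset.sum_eq_zero fun i _ => hlow ⟨n, i⟩ (Nat.lt_succ_self n), mul_zero]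
  have hx0 : ψ ⟨n0, i0⟩ = 0 := by
    have e1 : ∑ i : Fin (s n0), ψ ⟨n0, i⟩ = ψ ⟨n0, i0⟩ := by
      refine Finset.sum_eq_single i0 (fun i _ hi => ?_) (by simp)
      have e2 := h ⟨n0, i⟩ fun hx => hi (sigma_mk_injective (β := fun n => Fin (s n)) hx)
      simp only [act, ← hu, hprev, hu1, add_zero, mul_zero, zero_add] at e2
      have e3 : ((lam * v ⟨n0, i⟩ : ℝ) : ℂ) ≠ E := by exact_mod_cast (h1 _).symm
      by_contra hc
      exact e3 (mul_right_cancel₀ hc e2)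
    have hpos : (0 : ℝ) < s n0 := by exact_mod_cast hs n0
    simp only [hu, uu, e1, mul_eq_zero, Complex.ofReal_eq_zero] at hu0
    exact hu0.resolve_left (by positivity)
  exact ⟨hx0, by simp only [act, ← hu, hprev, hu1, hx0, add_zero, mul_zero]⟩

end Pool.Agent.Lib.MP_be97d8_mp
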