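import Mathlib
import Pool.Agent.Lib.MP_be97d8_mp.UGood

namespace Pool.Agent.Lib.MP_be97d8_mp

open Filter Topology Set MeasureTheory Metric
open scoped ENNReal InnerProductSpace ComplexConjugate

variable {s : ℕ → ℕ}

theorem ae_density (P : Measure ℝ) [IsProbabilityMeasure P] :
    ∀ᵐ t ∂P, ∃ κ : ℝ, 0 < κ ∧ ∀ᶠ δ in 𝓝[>] (0 : ℝ), κ * δ ≤ P.real (closedBall t δ) := by
  filter_upwards [Besicovitch.ae_tendsto_rnDeriv volume P, Measure.rnDeriv_lt_top volume P]
    with t h1 h2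
  obtain ⟨c, hc0, hc1, -⟩ := ENNReal.lt_iff_exists_real_btwn.1 h2
  have hc : 0 < c := ENNReal.ofReal_pos.1 (lt_of_le_of_lt zero_le hc1)
  refine ⟨2 / c, by positivity, ?_⟩
  filter_upwards [h1.eventually (gt_mem_nhds hc1), self_mem_nhdsWithin] with δ h3 h4
  have h6 : volume (closedBall t δ) ≤ ENNReal.ofReal c * P (closedBall t δ) :=
    (ENNReal.div_le_iff_le_mul (Or.inr ENNReal.ofReal_ne_top)
      (Or.inl (measure_ne_top _ _))).1 h3.le
  rw [Real.volume_closedBall, ← ofReal_measureReal (μ := P), ← ENNReal.ofReal_mul hc.le,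
    ENNReal.ofReal_le_ofReal_iff (by positivity)] at h6
  rw [div_mul_eq_mul_div, div_le_iff₀' hc]
  exact h6

theorem ae_close_pt (hs : ∀ n, 0 < s n) (hsup : ∀ C : ℝ, ∀ᶠ n in atTop, C ^ n ≤ s n)
    (P : Measure ℝ) [IsProbabilityMeasure P] {t κ : ℝ} (hκ : 0 < κ)
    (h : ∀ᶠ δ in 𝓝[>] (0 : ℝ), κ * δ ≤ P.real (closedBall t δ)) :
    ∀ᵐ v ∂(Measure.infinitePi fun _ : Vtx s => P), ∀ᶠ n in atTop,
      ∃ i : Fin (s n), |t - v ⟨n, i⟩| ≤ ((n : ℝ) + 1) / s n := by
  have hpos : ∀ n, (0 : ℝ) < s n := fun n => by exact_mod_cast hs n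
  have hδ : Tendsto (fun n : ℕ => ((n : ℝ) + 1) / s n) atTop (𝓝[>] 0) := by
    refine tendsto_nhdsWithin_iff.2 ⟨?_, Eventually.of_forall fun n =>
      div_pos (by positivity) (hpos n)⟩
    have h2 := (tendsto_self_mul_const_pow_of_lt_one (r := 1 / 2) (by norm_num) (by norm_num)).add
      (tendsto_pow_atTop_nhds_zero_of_lt_one (r := (1 / 2 : ℝ)) (by norm_num) (by norm_num))
    rw [add_zero] at h2
    refine squeeze_zero' (Eventually.of_forall fun n => (div_pos (by positivity) (hpos n)).le) ?_ h2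
    filter_upwards [hsup 2] with n hn
    rw [← add_one_mul, one_div, inv_pow, ← div_eq_mul_inv]
    exact div_le_div_of_nonneg_left (by positivity) (by positivity) hn
  obtain ⟨N, hN⟩ := eventually_atTop.1 (hδ.eventually h)
  let A : ℕ → Set (Vtx s → ℝ) := fun n => if N ≤ n then
    Set.pi (Finset.univ.map (Function.Embedding.sigmaMk n) : Finset (Vtx s))
      (fun _ => (closedBall t (((n : ℝ) + 1) / s n))ᶜ) else ∅
  have hA : ∀ n, (Measure.infinitePi fun _ : Vtx s => P) (A n) ≤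
      ENNReal.ofReal (Real.exp (-κ) ^ (n + 1)) := by
    intro n
    by_cases hn : N ≤ n
    · simp only [A, if_pos hn]
      rw [Measure.infinitePi_pi _ fun _ _ => measurableSet_closedBall.compl, Finset.prod_const,
        Finset.card_map, Finset.card_univ, Fintype.card_fin, ← ofReal_measureReal,
        ← ENNReal.ofReal_pow measureReal_nonneg, probReal_compl_eq_one_sub measurableSet_closedBall]
      refine ENNReal.ofReal_le_ofReal ?_
      have h1 := hN n hn
      have h2 : 1 - P.real (closedBall t (((n : ℝ) + 1) / s n)) ≤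
          Real.exp (-(κ * (((n : ℝ) + 1) / s n))) := by
        linarith [Real.add_one_le_exp (-(κ * (((n : ℝ) + 1) / s n)))]
      refine (pow_le_pow_left₀ (sub_nonneg.2 measureReal_le_one) h2 _).trans (le_of_eq ?_)
      rw [← Real.exp_nat_mul, ← Real.exp_nat_mul]
      congr 1
      have := hpos n
      push_cast
      field_simp
    · simp [A, hn]
  have hsum : Summable fun n : ℕ => Real.exp (-κ) ^ (n + 1) :=
    (summable_nat_add_iff 1).2 (summable_geometric_of_lt_one (Real.exp_pos _).le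
      (Real.exp_lt_one_iff.2 (by linarith)))
  have h3 := ae_eventually_notMem
    (ne_top_of_le_ne_top hsum.tsum_ofReal_ne_top (ENNReal.tsum_le_tsum hA))
  filter_upwards [h3] with v hv
  filter_upwards [hv, eventually_ge_atTop N] with n hn h4
  by_contra hc
  push Not at hc
  apply hn
  simp only [A, if_pos h4]
  intro x hx
  obtain ⟨i, -, rfl⟩ := Finset.mem_map.1 hx
  rw [mem_compl_iff, mem_closedBall', Real.dist_eq]
  exact not_le.2 (hc i)

theorem ae_good (hs : ∀ n, 0 < s n) (hsup : ∀ C : ℝ, ∀ᶠ n in atTop, C ^ n ≤ s n)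
    (P : Measure ℝ) [IsProbabilityMeasure P] (hP : ∀ᵐ t ∂P, |t| ≤ 1) {p q lam : ℝ}
    (hpq : volume.restrict (Icc p q) ≪ P) (hlam : 0 < lam) :
    ∀ᵐ v ∂(Measure.infinitePi fun _ : Vtx s => P), ∀ᵐ E : ℝ,
      E ∈ Icc (lam * p) (lam * q) → Good lam v E := by
  have h1 : ∀ᵐ v ∂(Measure.infinitePi fun _ : Vtx s => P), ∀ x, |v x| ≤ 1 :=
    ae_all_iff.2 fun x =>
      (measurePreserving_eval_infinitePi (fun _ : Vtx s => P) x).quasiMeasurePreserving.ae hP
  have h2 : ∀ᵐ v ∂(Measure.infinitePi fun _ : Vtx s => P), ∀ᵐ t ∂(volume.restrict (Icc p q)),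
      ∃ N, ∀ n, N ≤ n → ∃ i : Fin (s n), |t - v ⟨n, i⟩| ≤ ((n : ℝ) + 1) / s n := by
    rw [Measure.ae_ae_comm]
    · filter_upwards [hpq.ae_le (ae_density P)] with t ⟨κ, hκ, ht⟩
      exact (ae_close_pt hs hsup P hκ ht).mono fun v hv => eventually_atTop.1 hv
    · refine Measurable.setOf (Measurable.exists fun N => Measurable.forall fun n =>
        Measurable.imp measurable_const (Measurable.exists fun i => ?_))
      exact (measurableSet_le (f := fun z : (Vtx s → ℝ) × ℝ => |z.2 - z.1 ⟨n, i⟩|) (by fun_prop)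
        measurable_const).mem
  filter_upwards [h1, h2] with v hv h3
  rw [ae_restrict_iff' measurableSet_Icc] at h3
  have h4 : ∀ᵐ E : ℝ, lam⁻¹ * E ∈ Icc p q → ∃ N, ∀ n, N ≤ n →
      ∃ i : Fin (s n), |lam⁻¹ * E - v ⟨n, i⟩| ≤ ((n : ℝ) + 1) / s n := by
    rw [ae_iff] at h3 ⊢
    have := Real.volume_preimage_mul_left (inv_ne_zero hlam.ne') {t | ¬ (t ∈ Icc p q → ∃ N, ∀ n,
      N ≤ n → ∃ i : Fin (s n), |t - v ⟨n, i⟩| ≤ ((n : ℝ) + 1) / s n)}
    rw [h3, mul_zero] at this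
    exact this
  have h5 := herg hs (fun k i => lam * v ⟨k, i⟩) (Λ := lam) fun k i => by
    rw [abs_mul, abs_of_pos hlam]; exact mul_le_of_le_one_right hlam.le (hv _)
  have h6 : ∀ᵐ E : ℝ, ∀ x, E ≠ lam * v x :=
    ae_all_iff.2 fun x => Measure.ae_ne volume _
  have h7 : ∀ᵐ E : ℝ, ∀ k, E ∉ {E : ℝ | (∀ i : Fin (s k), E ≠ lam * v ⟨k, i⟩) ∧
      ar (fun i : Fin (s k) => lam * v ⟨k, i⟩) E = 0} :=
    ae_all_iff.2 fun k => (ar_zero_countable (hs k) _).ae_notMem volume
  filter_upwards [h4, h5, h6, h7] with E e4 e5 e6 e7 hE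
  have e8 : ∀ k, aa lam v k E ≠ 0 := fun k hk => e7 k ⟨fun i => e6 _, hk⟩
  refine ⟨e6, e8, e5 (fun k i => e6 _) e8, ?_⟩
  obtain ⟨N, hN⟩ := e4 ⟨(le_inv_mul_iff₀ hlam).2 hE.1, (inv_mul_le_iff₀ hlam).2 hE.2⟩
  filter_upwards [eventually_ge_atTop N] with n hn
  obtain ⟨i, hi⟩ := hN n hn
  refine ⟨i, ?_⟩
  have : E - lam * v ⟨n, i⟩ = lam * (lam⁻¹ * E - v ⟨n, i⟩) := by field_simp
  rw [this, abs_mul, abs_of_pos hlam]
  exact mul_le_mul_of_nonneg_left hi hlam.le

theorem update_map {ι : Type*} [DecidableEq ι] (P : Measure ℝ) [IsProbabilityMeasure P] (x0 : ι) :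
    ((Measure.infinitePi fun _ : ι => P).prod P).map
      (fun z : (ι → ℝ) × ℝ => Function.update z.1 x0 z.2) = Measure.infinitePi fun _ : ι => P := by
  refine Measure.eq_infinitePi _ fun F t ht => ?_
  rw [Measure.map_apply measurable_update' (MeasurableSet.pi F.countable_toSet fun i _ => ht i)]
  by_cases hx : x0 ∈ F
  · have : (fun z : (ι → ℝ) × ℝ => Function.update z.1 x0 z.2) ⁻¹' (Set.pi F t) =
        (Set.pi (F.erase x0) t) ×ˢ t x0 := by
      ext ⟨ω, r⟩
      simp only [mem_preimage, Set.mem_pi, Finset.mem_coe, mem_prod, Finset.mem_erase]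
      constructor
      · intro h
        exact ⟨fun i hi => by simpa [hi.1] using h i hi.2, by simpa using h x0 hx⟩
      · intro h i hi
        by_cases hi0 : i = x0
        · subst hi0; simpa using h.2
        · simpa [hi0] using h.1 i ⟨hi0, hi⟩
    rw [this, Measure.prod_prod, Measure.infinitePi_pi _ fun i _ => ht i,
      Finset.prod_erase_mul _ _ hx]
  · have : (fun z : (ι → ℝ) × ℝ => Function.update z.1 x0 z.2) ⁻¹' (Set.pi F t) =
        (Set.pi F t) ×ˢ univ := by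
      ext ⟨ω, r⟩
      simp only [mem_preimage, Set.mem_pi, Finset.mem_coe, mem_prod, mem_univ, and_true]
      refine forall₂_congr fun i hi => ?_
      rw [Function.update_of_ne (ne_of_mem_of_not_mem hi hx)]
    rw [this, Measure.prod_prod, Measure.infinitePi_pi _ fun i _ => ht i, measure_univ, mul_one]

theorem null_of_rel (R : ℝ → ℝ → Prop) (L : ℝ)
    (h : ∀ E t E' t', R E t → R E' t' → |t - t'| ≤ L * |E - E'|) {N : Set ℝ} (hN : volume N = 0) :
    volume {t | ∃ E ∈ N, R E t} = 0 := by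
  classical
  let f : ℝ → ℝ := fun E => if h : ∃ t, R E t then h.choose else 0
  have hf : ∀ E t, R E t → R E (f E) := fun E t ht => by
    simp only [f, dif_pos (⟨t, ht⟩ : ∃ t, R E t)]
    exact Exists.choose_spec (⟨t, ht⟩ : ∃ t, R E t)
  have hL : LipschitzOnWith L.toNNReal f (N ∩ {E | ∃ t, R E t}) := by
    refine LipschitzOnWith.of_le_add_mul' L ?_
    rintro E ⟨-, t, ht⟩ E' ⟨-, t', ht'⟩
    have := (abs_le.1 (h _ _ _ _ (hf _ _ ht) (hf _ _ ht'))).2
    rw [Real.dist_eq]; linarith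
  have h1 := hL.hausdorffMeasure_image_le zero_le_one
  rw [hausdorffMeasure_real, measure_mono_null inter_subset_left hN, mul_zero] at h1
  refine measure_mono_null ?_ (nonpos_iff_eq_zero.1 h1)
  rintro t ⟨E, hE, ht⟩
  refine ⟨E, ⟨hE, t, ht⟩, ?_⟩
  have := h _ _ _ _ (hf _ _ ht) ht
  rw [sub_self, abs_zero, mul_zero] at this
  exact sub_eq_zero.1 (abs_nonpos_iff.1 this)

end Pool.Agent.Lib.MP_be97d8_mp
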