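import Mathlib
import Pool.Agent.Lib.MP_be97d8_mp.UProb

namespace Pool.Agent.Lib.MP_be97d8_mp

open Filter Topology Set MeasureTheory Metric
open scoped ENNReal InnerProductSpace ComplexConjugate

variable {s : ℕ → ℕ}

/-- triples (potential, energy, normalised eigenfunction) -/
def Trip (lam a b : ℝ) (x0 : Vtx s) (M : ℝ) : Set ((Vtx s → ℝ) × ℝ × (Vtx s → ℂ)) :=
  {z | (∀ x, |z.1 x| ≤ 1) ∧ z.2.1 ∈ Icc a b ∧ (∀ F : Finset (Vtx s), ∑ x ∈ F, ‖z.2.2 x‖ ^ 2 ≤ M ^ 2) ∧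
    z.2.2 x0 = 1 ∧ (∀ x : Vtx s, x.1 < x0.1 → z.2.2 x = 0) ∧
    ∀ x, act lam z.1 z.2.2 x = z.2.1 * z.2.2 x}

theorem continuous_uu (n : ℕ) : Continuous fun ψ : Vtx s → ℂ => uu ψ n := by
  unfold uu; fun_prop

theorem continuous_act (lam : ℝ) (x : Vtx s) :
    Continuous fun z : (Vtx s → ℝ) × ℝ × (Vtx s → ℂ) => act lam z.1 z.2.2 x := by
  have h1 : Continuous fun ψ : Vtx s → ℂ => prev (uu ψ) x.1 := by
    cases x.1 with
    | zero => exact continuous_const
    | succ n => exact continuous_uu n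
  have h2 := continuous_uu (s := s) (x.1 + 1)
  have h3 : Continuous fun z : (Vtx s → ℝ) × ℝ × (Vtx s → ℂ) => z.2.2 := by fun_prop
  exact (continuous_const.mul ((h1.comp h3).add (h2.comp h3))).add (by fun_prop)

theorem isCompact_Trip (lam a b : ℝ) (x0 : Vtx s) (M : ℝ) : IsCompact (Trip lam a b x0 M) := by
  have hK : IsCompact ((Set.pi univ fun _ : Vtx s => Icc (-1 : ℝ) 1) ×ˢ Icc a b ×ˢ
      (Set.pi univ fun _ : Vtx s => closedBall (0 : ℂ) |M|)) :=
    (isCompact_univ_pi fun _ => isCompact_Icc).prod (isCompact_Icc.prod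
      (isCompact_univ_pi fun _ => isCompact_closedBall _ _))
  refine hK.of_isClosed_subset ?_ ?_
  · simp only [Trip, ofPred_and, ofPred_forall]
    refine (isClosed_iInter fun x => isClosed_le (by fun_prop) continuous_const).inter
      ((isClosed_Icc.preimage (by fun_prop)).inter
      ((isClosed_iInter fun F => isClosed_le (by fun_prop) continuous_const).inter
      ((isClosed_eq (by fun_prop) continuous_const).inter
      ((isClosed_iInter fun x => isClosed_iInter fun _ =>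
        isClosed_eq (by fun_prop) continuous_const).inter
      (isClosed_iInter fun x => isClosed_eq (continuous_act lam x) (by fun_prop))))))
  · rintro z ⟨h1, h2, h3, -⟩
    refine ⟨fun x _ => abs_le.1 (h1 x), h2, fun x _ => ?_⟩
    have := h3 {x}
    rw [Finset.sum_singleton, sq_le_sq, abs_norm] at this
    exact mem_closedBall_zero_iff.2 this

theorem lip_rel {lam : ℝ} {v : Vtx s → ℝ} {H : HS s →L[ℂ] HS s} (hH : IsAnd s lam v H)
    (x0 : Vtx s) {E E' c c' : ℝ} {ψ ψ' : HS s} (h1 : ψ x0 = 1) (h1' : ψ' x0 = 1)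
    (h : ∀ x, act lam v ψ x + (if x = x0 then (c : ℂ) else 0) = E * ψ x)
    (h' : ∀ x, act lam v ψ' x + (if x = x0 then (c' : ℂ) else 0) = E' * ψ' x) :
    |c - c'| ≤ ‖ψ'‖ * ‖ψ‖ * |E - E'| := by
  classical
  have e : ∀ (E c : ℝ) (ψ : HS s),
      (∀ x, act lam v ψ x + (if x = x0 then (c : ℂ) else 0) = E * ψ x) →
      H ψ = (E : ℂ) • ψ - lp.single 2 x0 (c : ℂ) := by
    intro E c ψ h
    apply lp.ext
    funext x
    rw [hH.apply, lp.coeFn_sub, lp.coeFn_smul, Pi.sub_apply, Pi.smul_apply, smul_eq_mul, ← h x,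
      lp.single_apply, Pi.single_apply]
    simp
  have h2 := hH.isSelfAdjoint.isSymmetric ψ' ψ
  simp only [ContinuousLinearMap.coe_coe, e _ _ _ h, e _ _ _ h', inner_sub_left, inner_sub_right,
    inner_smul_left, inner_smul_right, lp.inner_single_left, lp.inner_single_right, h1, h1',
    Complex.conj_ofReal, RCLike.inner_apply, map_one, one_mul, mul_one] at h2
  have h3 : ((c - c' : ℝ) : ℂ) = ⟪ψ', ψ⟫_ℂ * ((E - E' : ℝ) : ℂ) := by
    push_cast; linear_combination h2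
  have h4 := congrArg norm h3
  rw [norm_mul, Complex.norm_real, Complex.norm_real, Real.norm_eq_abs, Real.norm_eq_abs] at h4
  rw [h4]
  exact mul_le_mul_of_nonneg_right (norm_inner_le_norm _ _) (abs_nonneg _)

theorem bad_null (hs : ∀ n, 0 < s n) (hsup : ∀ C : ℝ, ∀ᶠ n in atTop, C ^ n ≤ s n)
    (P : Measure ℝ) [IsProbabilityMeasure P] (hac : P ≪ volume) {lam a b : ℝ} (hlam : 0 < lam)
    (hg : ∀ᵐ v ∂(Measure.infinitePi fun _ : Vtx s => P), (∀ x, |v x| ≤ 1) ∧ ∀ᵐ E : ℝ,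
      E ∈ Icc a b → Good lam v E) (x0 : Vtx s) {M : ℝ} (hM : 0 ≤ M) :
    (Measure.infinitePi fun _ : Vtx s => P) (Prod.fst '' Trip lam a b x0 M) = 0 := by
  classical
  have hm : MeasurableSet (Prod.fst '' Trip lam a b x0 M) :=
    ((isCompact_Trip lam a b x0 M).image continuous_fst).isClosed.measurableSet
  rw [← update_map P x0, Measure.map_apply measurable_update' hm,
    Measure.measure_prod_null (measurable_update' hm)]
  filter_upwards [hg] with v ⟨hv, hE⟩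
  obtain ⟨H, hH⟩ := exists_anderson hs lam v hv
  let R : ℝ → ℝ → Prop := fun E t => ∃ ψ : HS s, ‖ψ‖ ≤ M ∧ ψ x0 = 1 ∧
    ∀ x, act lam v ψ x + (if x = x0 then ((lam * (t - v x0) : ℝ) : ℂ) else 0) = E * ψ x
  have hR := null_of_rel R (M * M / lam) (by
    rintro E t E' t' ⟨ψ, h1, h2, h3⟩ ⟨ψ', h1', h2', h3'⟩
    have h4 := lip_rel hH x0 h2 h2' h3 h3'
    rw [← mul_sub, sub_sub_sub_cancel_right, abs_mul, abs_of_pos hlam] at h4
    rw [div_mul_eq_mul_div, le_div_iff₀' hlam]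
    exact h4.trans (mul_le_mul_of_nonneg_right (mul_le_mul h1' h1 (norm_nonneg _) hM)
      (abs_nonneg _))) (ae_iff.1 hE)
  refine measure_mono_null ?_ (hac hR)
  rintro t ⟨⟨w, E, f⟩, ⟨-, h2, h3, h4, h5, h6⟩, hw⟩
  simp only at h2 h3 h4 h5 h6 hw
  subst hw
  have hsum : Summable fun x => ‖f x‖ ^ 2 := summable_of_sum_le (fun x => by positivity) h3
  let ψ : HS s := ⟨f, mem_of_summable f hsum⟩
  have hψ : (ψ : Vtx s → ℂ) = f := rfl
  have hn : ‖ψ‖ ≤ M := by
    refine (pow_le_pow_iff_left₀ (norm_nonneg _) hM two_ne_zero).1 ?_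
    exact hasSum_le_of_sum_le (hasSum_sq ψ) h3
  have h7 : ∀ x, x ≠ x0 → act lam v f x = E * f x := fun x hx => by
    rw [← h6 x]; simp only [act, Function.update_of_ne hx]
  refine ⟨E, fun hgood => ?_, ψ, hn, h4, fun x => ?_⟩
  · have := ((hgood h2).zero hs hsup x0 ψ h7 h5).1
    rw [hψ, h4] at this
    exact one_ne_zero this
  · by_cases hx : x = x0
    · subst hx
      rw [hψ, ← h6 x, if_pos rfl]
      simp only [act, Function.update_self, h4]
      push_cast; ring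
    · rw [if_neg hx, add_zero]; exact h7 x hx

theorem ae_noEigen (hs : ∀ n, 0 < s n) (hsup : ∀ C : ℝ, ∀ᶠ n in atTop, C ^ n ≤ s n)
    (P : Measure ℝ) [IsProbabilityMeasure P] (hac : P ≪ volume) {lam a b : ℝ} (hlam : 0 < lam)
    (hg : ∀ᵐ v ∂(Measure.infinitePi fun _ : Vtx s => P), (∀ x, |v x| ≤ 1) ∧ ∀ᵐ E : ℝ,
      E ∈ Icc a b → Good lam v E) :
    ∀ᵐ v ∂(Measure.infinitePi fun _ : Vtx s => P), ∀ E ∈ Icc a b, ∀ φ : HS s,
      (∀ x, act lam v φ x = E * φ x) → φ = 0 := by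
  classical
  have h1 : ∀ᵐ v ∂(Measure.infinitePi fun _ : Vtx s => P), ∀ (x0 : Vtx s) (M : ℕ),
      v ∉ Prod.fst '' Trip lam a b x0 M :=
    ae_all_iff.2 fun x0 => ae_all_iff.2 fun M =>
      measure_eq_zero_iff_ae_notMem.1 (bad_null hs hsup P hac hlam hg x0 (Nat.cast_nonneg M))
  filter_upwards [h1, hg] with v hv ⟨hv1, _⟩ E hE φ hφ
  by_contra hne
  have hex : ∃ n, ∃ i : Fin (s n), φ ⟨n, i⟩ ≠ 0 := by
    by_contra hc
    push Not at hc
    exact hne (lp.ext (funext fun x => hc x.1 x.2))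
  obtain ⟨i, hi⟩ := Nat.find_spec hex
  set x0 : Vtx s := ⟨Nat.find hex, i⟩
  obtain ⟨H, hH⟩ := exists_anderson hs lam v hv1
  let ψ : HS s := (φ x0)⁻¹ • φ
  have hψ : ∀ x, ψ x = (φ x0)⁻¹ * φ x := fun x => rfl
  refine hv x0 ⌈‖ψ‖⌉₊ ⟨(v, E, ψ), ⟨hv1, hE, fun F => ?_, ?_, fun x hx => ?_, fun x => ?_⟩, rfl⟩
  · exact (sum_le_hasSum F (fun x _ => by positivity) (hasSum_sq ψ)).trans
      (pow_le_pow_left₀ (norm_nonneg _) (Nat.le_ceil _) 2)
  · exact inv_mul_cancel₀ hi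
  · have := Nat.find_min hex hx
    push Not at this
    simp only [hψ]
    rw [show φ x = 0 from this x.2, mul_zero]
  · simp only
    rw [← hH.apply, map_smul, lp.coeFn_smul, Pi.smul_apply, hH.apply, hφ, hψ, smul_eq_mul]
    ring

theorem superexp (h : Tendsto (fun n => Real.log (s n) / n) atTop atTop) (hs : ∀ n, 0 < s n)
    (C : ℝ) : ∀ᶠ n in atTop, C ^ n ≤ s n := by
  filter_upwards [h.eventually_ge_atTop |C|, eventually_gt_atTop 0] with n hn h0
  have hpos : (0 : ℝ) < s n := by exact_mod_cast hs n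
  rw [le_div_iff₀ (by exact_mod_cast h0), Real.le_log_iff_exp_le hpos, mul_comm,
    Real.exp_nat_mul] at hn
  refine (le_abs_self _).trans ((abs_pow C n).le.trans (le_trans ?_ hn))
  exact pow_le_pow_left₀ (abs_nonneg _) (by linarith [Real.add_one_le_exp |C|]) n

theorem ae_uniform {E : Type*} [NormedAddCommGroup E] [InnerProductSpace ℂ E] [CompleteSpace E]
    (e : HilbertBasis (Vtx s) ℂ E) (hs : ∀ n, 0 < s n)
    (hsup : ∀ C : ℝ, ∀ᶠ n in atTop, C ^ n ≤ s n) (P : Measure ℝ) [IsProbabilityMeasure P]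
    (hP : ∀ᵐ t ∂P, |t| ≤ 1) (hac : P ≪ volume) {p q lam a b : ℝ}
    (hpq : volume.restrict (Icc p q) ≪ P) (hlam : 0 < lam) (hab : a < b) (ha : lam * p ≤ a)
    (hb : b ≤ lam * q) :
    ∀ᵐ v ∂(Measure.infinitePi fun _ : Vtx s => P),
      ∃ H : E →L[ℂ] E, IsAnderson s e lam v H ∧ IsSelfAdjoint H ∧ ¬ PurePointIn H a b ∧
        ∀ t ∈ Icc a b, ∀ φ : E, H φ = (t : ℂ) • φ → φ = 0 := by
  classical
  have h1 : ∀ᵐ v ∂(Measure.infinitePi fun _ : Vtx s => P), ∀ x, |v x| ≤ 1 :=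
    ae_all_iff.2 fun x =>
      (measurePreserving_eval_infinitePi (fun _ : Vtx s => P) x).quasiMeasurePreserving.ae hP
  have hg : ∀ᵐ v ∂(Measure.infinitePi fun _ : Vtx s => P), (∀ x, |v x| ≤ 1) ∧ ∀ᵐ E : ℝ,
      E ∈ Icc a b → Good lam v E := by
    filter_upwards [h1, ae_good hs hsup P hP hpq hlam] with v hv h2
    exact ⟨hv, h2.mono fun E hE h3 => hE ⟨ha.trans h3.1, h3.2.trans hb⟩⟩
  filter_upwards [hg, ae_noEigen hs hsup P hac hlam hg] with v ⟨hv, h2⟩ h3
  obtain ⟨H, hH⟩ := exists_anderson hs lam v hv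
  have h4 : ∀ t ∈ Icc a b, ∀ φ : HS s, H φ = (t : ℂ) • φ → φ = 0 := fun t ht φ h =>
    h3 t ht φ fun x => by rw [← hH.apply, h, lp.coeFn_smul]; rfl
  obtain ⟨E0, hE0, hgood⟩ := Measure.exists_mem_of_measure_ne_zero_of_ae (μ := volume)
    (s := Ioo a b) (by simpa using hab) (ae_restrict_of_ae h2)
  obtain ⟨H', h5, h6, h7⟩ := transport e hH (a := a) (b := b) ⟨E0, min (E0 - a) (b - E0),
    lt_min (sub_pos.2 hE0.1) (sub_pos.2 hE0.2), by linarith [min_le_left (E0 - a) (b - E0)],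
    by linarith [min_le_right (E0 - a) (b - E0)], by
      intro hsurj
      let x0 : Vtx s := ⟨0, ⟨0, hs 0⟩⟩
      obtain ⟨ψ, hψ⟩ := hsurj (lp.single 2 x0 1)
      have h5 : ∀ x, act lam v ψ x = E0 * ψ x + (lp.single 2 x0 1 : HS s) x := fun x => by
        rw [← hH.apply, hψ, lp.coeFn_add, lp.coeFn_smul]; rfl
      have h6 := (hgood (Ioo_subset_Icc_self hE0)).zero hs hsup x0 ψ
        (fun x hx => by rw [h5, lp.single_apply_ne _ _ _ hx, add_zero])
        (fun x hx => absurd hx (Nat.not_lt_zero _))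
      have h7 := h5 x0
      rw [h6.1, h6.2, lp.single_apply_self] at h7
      simp at h7, by
      intro t φ ht
      rw [abs_lt] at ht
      exact h4 t ⟨by linarith [min_le_left (E0 - a) (b - E0)],
        by linarith [min_le_right (E0 - a) (b - E0)]⟩ φ⟩
  refine ⟨H', h5, h6, h7, fun t ht φ hφ => ?_⟩
  have h8 := h3 t ht (e.repr φ) fun x => by
    have := h5 φ x
    rw [hφ, inner_smul_right] at this
    simp only [act_eq, e.repr_apply_apply, this]
  simpa using h8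

end Pool.Agent.Lib.MP_be97d8_mp
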